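import Mathlib
import Pool.Agent.Work.MP_8efaaa_nt.T.Defs
import Pool.Agent.Work.MP_8efaaa_nt.T.CDefs
import Pool.Agent.Work.MP_8efaaa_nt.R.Defs
import Pool.Agent.Work.MP_8efaaa_nt.N5.Defs

/-!
# Definitions of the block N7 (fixed file)

Congruent numbers `a = 7 (mod 8)`: complex conjugation and inertia.
-/

set_option autoImplicit false

namespace Pool.Agent.Work.MP_8efaaa_nt.N7

open IsDedekindDomain NumberField Pool.Agent.Work.MP_787500_nt.HC
open Pool.Agent.Work.MP_8efaaa_nt.T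
open scoped Pointwise nonZeroDivisors

noncomputable section

/-- an integral ideal as a fractional ideal (`1` for the zero ideal) -/
def idl {K : Type*} [Field K] [NumberField K] (c : Ideal (𝓞 K)) : Idl K :=
  open scoped Classical in
  if h : c = ⊥ then 1 else
    Units.mk0 (c : FractionalIdeal (𝓞 K)⁰ K) (FractionalIdeal.coeIdeal_ne_zero.2 h)

/-- the complex values of the functions `W`, `W'`; `v`, `v'` are the places above `2` -/
structure CW (K : Type*) [Field K] [NumberField K] [Algebra K ℂ] (v v' : HeightOneSpectrum (𝓞 K))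
    (W W' : ClassGroup (𝓞 K) → ℂ) : Prop where
  ne : v ≠ v'
  hv : (2 : 𝓞 K) ∈ v.asIdeal
  hv' : (2 : 𝓞 K) ∈ v'.asIdeal
  mul : pr v * pr v' = prin (Units.mk0 (2 : K) two_ne_zero)
  hW : ∀ I, W (cl I) = wv (pr v) (eV v) I
  hW' : ∀ I, W' (cl I) = wv (pr v') (eV v') I

/-- `F` contains the values of the functions and a real square root `w` of `d` -/
structure ICtx7 (K F : Type*) [Field K] [NumberField K] [Algebra K ℂ] [Field F] [Algebra F ℂ]
    (v v' : HeightOneSpectrum (𝓞 K)) (d : ℕ) (w : F) (W W' : ClassGroup (𝓞 K) → F) : Prop where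
  cw : CW K v v' (fun C => algebraMap F ℂ (W C)) (fun C => algebraMap F ℂ (W' C))
  hw : w ^ 2 = (d : F)
  hwr : (starRingEnd ℂ) (algebraMap F ℂ w) = algebraMap F ℂ w

/-- `σ` acts by the inverse of the class of the ideal `b` -/
structure MAct7 {K F : Type*} [Field K] [NumberField K] [Field F] (d : ℕ) (w : F)
    (W W' : ClassGroup (𝓞 K) → F) (σ : F → F) (b : Ideal (𝓞 K)) : Prop where
  hW : ∀ C, σ (W C) = W (cl (idl b)⁻¹ * C)
  hW' : ∀ C, σ (W' C) = W' (cl (idl b)⁻¹ * C)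
  sq : σ w = (jacobiSym d (Ideal.absNorm b) : ℤ) * w

/-- The Galois data over `ℚ`. -/
structure IDat7 (K F : Type*) [Field K] [NumberField K] [Field F] [NumberField F]
    [Algebra K F] (a d : ℕ) (s : K) (v : HeightOneSpectrum (𝓞 K)) (w : F)
    (W W' : ClassGroup (𝓞 K) → F) (κ : F ≃ₐ[ℚ] F) : Prop where
  rel : WRel (cl (pr v)⁻¹) W W'
  rec3 : ∀ c, (1 + W c ^ 2) * (1 + W' (cl (pr v)⁻¹ * c) ^ 2) = 2
  prod : ∀ (m : ℕ) (β : Kˣ), prin β = pr v ^ m → ∀ c : ClassGroup (𝓞 K),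
    algebraMap K F (β : K) ^ 2 =
      (∏ k ∈ Finset.range m, (1 + W (cl (pr v)⁻¹ ^ k * c) ^ 2)) ^ 2
  hw : w ^ 2 = (d : F)
  /-- all automorphisms act by ideals prime to `2 a` -/
  act : ∀ σ : F ≃ₐ[K] F, ∃ b : Ideal (𝓞 K), Nat.Coprime (Ideal.absNorm b) (2 * a) ∧
    MAct7 d w W W' σ b
  /-- complex conjugation -/
  cs : κ (algebraMap K F s) = -algebraMap K F s
  cw : κ w = w
  cW : ∀ C, κ (W C) = W' C⁻¹
  cW' : ∀ C, κ (W' C) = W C⁻¹

end

end Pool.Agent.Work.MP_8efaaa_nt.N7
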