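import Mathlib
import Pool.Agent.Work.MP_8efaaa_nt.T.Quad
import Pool.Agent.Work.MP_787500_nt.HC.ClsA
import Pool.Agent.Work.MP_8efaaa_nt.N7.Defs

/-!
# N7/IBas (S-M): integral ideals as fractional ideals, classes

PROOF. `idl` of a nonzero ideal is `Units.mk0 (c : FractionalIdeal ..)`; `coeIdeal_mul`. `exists_odd`: a class contains an integral ideal `I`; choose `x` in `I⁻¹ ..`: every class contains an
integral ideal prime to a given nonzero integer `N`: standard (`ClassGroup.exists_integral..`, strong approximation: take `J` in the inverse class, `x ∈ J` with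
`v (x) = v (J)` for all `v ∣ N` (prime avoidance: `J / (J * ∏ P)` ..), `x J⁻¹`). See `exists_odd_rep`, `R/DMoveA.lean`, `Rf`, `MP_787500_nt/HC/ArC` for similar results
(search `IsCoprime`, `exists_odd`, `moving`).
-/

set_option autoImplicit false

namespace Pool.Agent.Work.MP_8efaaa_nt.N7

open IsDedekindDomain NumberField Pool.Agent.Work.MP_787500_nt.HC
open Pool.Agent.Work.MP_8efaaa_nt.T
open scoped nonZeroDivisors

variable {K : Type*} [Field K] [NumberField K]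

theorem idl_ne {c : Ideal (𝓞 K)} (hc : c ≠ ⊥) :
    ((idl c : Idl K) : FractionalIdeal (𝓞 K)⁰ K) = (c : FractionalIdeal (𝓞 K)⁰ K) := by
  unfold idl
  rw [dif_neg hc]
  rfl

theorem idl_mul {b c : Ideal (𝓞 K)} (hb : b ≠ ⊥) (hc : c ≠ ⊥) :
    idl (b * c) = idl b * (idl c : Idl K) := by
  apply Units.ext
  rw [Units.val_mul, idl_ne (mul_ne_zero hb hc : b * c ≠ ⊥), idl_ne hb, idl_ne hc,
    FractionalIdeal.coeIdeal_mul]

theorem idl_pr (v : HeightOneSpectrum (𝓞 K)) : idl v.asIdeal = pr v := by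
  apply Units.ext
  rw [idl_ne v.ne_bot]
  rfl

theorem idl_span {x : 𝓞 K} (hx : x ≠ 0) (hx' : algebraMap (𝓞 K) K x ≠ 0) :
    idl (Ideal.span {x}) = prin (Units.mk0 (algebraMap (𝓞 K) K x) hx') := by
  apply Units.ext
  rw [idl_ne (by rwa [Ne, Ideal.span_singleton_eq_bot]), FractionalIdeal.coeIdeal_span_singleton]
  unfold prin
  rw [coe_toPrincipalIdeal]
  rfl

/-- the inverse of the fractional ideal of `c` -/
theorem mem_inv_idl {c : Ideal (𝓞 K)} (hc : c ≠ ⊥) (I : Idl K) (x : K) :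
    x ∈ ((I * (idl c)⁻¹ : Idl K) : FractionalIdeal (𝓞 K)⁰ K) ↔
      ∀ y ∈ c, x * algebraMap (𝓞 K) K y ∈ (I : FractionalIdeal (𝓞 K)⁰ K) := by
  have hc0 : (c : FractionalIdeal (𝓞 K)⁰ K) ≠ 0 := FractionalIdeal.coeIdeal_ne_zero.2 hc
  have h1 : ((I * (idl c)⁻¹ : Idl K) : FractionalIdeal (𝓞 K)⁰ K) =
      (I : FractionalIdeal (𝓞 K)⁰ K) / (c : FractionalIdeal (𝓞 K)⁰ K) := by
    rw [Units.val_mul, Units.val_inv_eq_inv_val, idl_ne hc, div_eq_mul_inv]
  rw [h1, FractionalIdeal.mem_div_iff_of_ne_zero hc0]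
  constructor
  · intro h y hy
    exact h _ ((FractionalIdeal.mem_coeIdeal _).2 ⟨y, hy, rfl⟩)
  · intro h y hy
    obtain ⟨z, hz, rfl⟩ := (FractionalIdeal.mem_coeIdeal _).1 hy
    exact h z hz

private theorem IBas_cl {J I : Ideal (𝓞 K)} (hJ : J ≠ ⊥) (hI : I ≠ ⊥) {a : 𝓞 K} (ha : a ≠ 0)
    (h : Ideal.span {a} = J * I) : cl (idl I) = (cl (idl J))⁻¹ := by
  have ha' : algebraMap (𝓞 K) K a ≠ 0 := fun h0 => ha (by
    apply RingOfIntegers.ext
    simpa using h0)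
  have h1 : idl (Ideal.span {a}) = idl J * (idl I : Idl K) := by rw [h, idl_mul hJ hI]
  rw [idl_span ha ha'] at h1
  have h2 : cl (1 : Idl K) = cl (idl J * idl I) := cl_eq_iff.2 ⟨_, by rw [← h1, mul_one]⟩
  rw [cl_one, cl_mul] at h2
  exact (inv_eq_of_mul_eq_one_right h2.symm).symm

private theorem IBas_surj (C : ClassGroup (𝓞 K)) : ∃ J : Ideal (𝓞 K), J ≠ ⊥ ∧ cl (idl J) = C := by
  obtain ⟨I, rfl⟩ := cl_surjective C
  have hden := FractionalIdeal.den_mul_self_eq_num' (S := (𝓞 K)⁰) (P := K)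
    (I : FractionalIdeal (𝓞 K)⁰ K)
  have hd0 : ((I : FractionalIdeal (𝓞 K)⁰ K).den : 𝓞 K) ≠ 0 := nonZeroDivisors.coe_ne_zero _
  have hd' : algebraMap (𝓞 K) K (I : FractionalIdeal (𝓞 K)⁰ K).den ≠ 0 := by
    rw [Ne, map_eq_zero_iff _ (FaithfulSMul.algebraMap_injective (𝓞 K) K)]
    exact hd0
  have hnum0 : (I : FractionalIdeal (𝓞 K)⁰ K).num ≠ ⊥ := by
    have h1 := (FractionalIdeal.num_eq_zero_iff (I := (I : FractionalIdeal (𝓞 K)⁰ K))).not.2
      I.ne_zero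
    simpa using h1
  refine ⟨_, hnum0, ?_⟩
  symm
  refine cl_eq_iff.2 ⟨Units.mk0 _ hd', ?_⟩
  apply Units.ext
  rw [idl_ne hnum0, Units.val_mul]
  unfold prin
  rw [coe_toPrincipalIdeal, ← hden]
  rfl

/-- every class contains an integral ideal prime to `N` -/
theorem exists_rep {N : ℕ} (hN : N ≠ 0) (C : ClassGroup (𝓞 K)) :
    ∃ c : Ideal (𝓞 K), c ≠ ⊥ ∧ Nat.Coprime (Ideal.absNorm c) N ∧ cl (idl c) = C := by
  obtain ⟨J, hJ, hJC⟩ := IBas_surj C⁻¹
  have hJ0 : J ≠ 0 := hJ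
  have hN0 : Ideal.span {(N : 𝓞 K)} ≠ 0 := by
    rw [Ideal.zero_eq_bot, Ne, Ideal.span_singleton_eq_bot, Nat.cast_eq_zero]
    exact hN
  obtain ⟨a, ha⟩ := IsDedekindDomain.exists_sup_span_eq
    (I := J * (Ideal.span {(N : 𝓞 K)} * J)) (J := J) Ideal.mul_le_left
    (mul_ne_zero hJ0 (mul_ne_zero hN0 hJ0))
  have hle : Ideal.span {a} ≤ J := by
    rw [← ha]
    exact le_sup_right
  obtain ⟨I, hI⟩ := Ideal.dvd_iff_le.2 hle
  have hsup : I ⊔ (Ideal.span {(N : 𝓞 K)} * J) = ⊤ := by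
    rw [hI, ← Ideal.mul_sup] at ha
    apply mul_left_cancel₀ hJ0
    rw [sup_comm, ha, Ideal.mul_top]
  by_cases hI0 : I = ⊥
  · rw [hI0, bot_sup_eq] at hsup
    have hJ1 : J = ⊤ := top_le_iff.1 (hsup ▸ Ideal.mul_le_right)
    refine ⟨⊤, top_ne_bot, by simp, ?_⟩
    rw [hJ1] at hJC
    have h1 : idl (⊤ : Ideal (𝓞 K)) = (1 : Idl K) := by
      apply Units.ext
      rw [idl_ne top_ne_bot]
      simp
    rw [h1, cl_one] at hJC ⊢
    rw [← inv_inj, ← hJC, inv_one]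
  · have ha0 : a ≠ 0 := by
      rintro rfl
      rw [Ideal.span_singleton_eq_bot.2 rfl] at hI
      rcases mul_eq_zero.1 hI.symm with h | h
      · exact hJ0 h
      · exact hI0 h
    refine ⟨I, hI0, ?_, ?_⟩
    · refine Nat.Coprime.symm (Nat.coprime_of_dvd fun p hp hpN hpI => ?_)
      obtain ⟨P, hP, hPp, hPI⟩ := Ideal.exists_isMaximal_dvd_of_dvd_absNorm' hp I hpI
      have h1 : I ≤ P := Ideal.dvd_iff_le.1 hPI
      have h2 : (p : ℤ) ∈ P.under ℤ := by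
        rw [hPp]
        exact Ideal.mem_span_singleton_self _
      have h3 : (N : 𝓞 K) ∈ P := by
        obtain ⟨k, rfl⟩ := hpN
        have h4 : ((p : ℤ) : 𝓞 K) ∈ P := by
          simpa [Ideal.under, Ideal.mem_comap] using h2
        push_cast
        exact P.mul_mem_right _ (by exact_mod_cast h4)
      apply hP.ne_top
      rw [eq_top_iff, ← hsup]
      refine sup_le h1 (Ideal.mul_le_left.trans ?_)
      rwa [Ideal.span_singleton_le_iff_mem]
    · rw [IBas_cl hJ hI0 ha0 hI, hJC, inv_inv]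

end Pool.Agent.Work.MP_8efaaa_nt.N7
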