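import Mathlib
import Pool.Agent.Work.MP_787500_nt.HC.ClsA
import Pool.Agent.Work.MP_8efaaa_nt.T.Quad
import Pool.Agent.Work.MP_8efaaa_nt.Rf.Cj
import Pool.Agent.Work.MP_8efaaa_nt.N7.Defs
import Pool.Agent.Work.MP_8efaaa_nt.N7.IBas

/-!
# N7/ICj (M): the conjugate ideal

PROOF. Compare `Rf/Cj.lean` (`exists_cj`, the case `a = 5 (mod 8)`, where `𝓞 K = ℤ[S]`) and `MP_787500_nt.Quad.exists_conj` (the automorphism `σ` of `K` with
`σ s = -s`); `τ` is its restriction. `c * τ c = (N c)`: as there; here `𝓞 K = ℤ[W]`, `2 W = 1 + s` (`T.exists_W`). For every element `x`: `x * τ x = N x ∈ ℤ`. `N c ∈ c * τ c`: .. see the proof there.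
`conj_em`: complex conjugation of `algebraMap K ℂ` is another embedding, `s ↦ -s` because `s^2 = -a < 0`. `map_v`: `N v = 2` (`T.dyadic`), so `v * τ v = (2)`, `idl (τ v) = pr v'` by cancellation.
-/

set_option autoImplicit false

namespace Pool.Agent.Work.MP_8efaaa_nt.N7

open IsDedekindDomain NumberField Pool.Agent.Work.MP_787500_nt.HC
open Pool.Agent.Work.MP_8efaaa_nt.T
open scoped nonZeroDivisors

variable {K : Type*} [Field K] [NumberField K] {a : ℕ} {s : K}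

/-- roots of ideals are unique -/
private theorem icj_pow_inj {b c : Ideal (𝓞 K)} {n : ℕ} (hn : n ≠ 0) (h : b ^ n = c ^ n) :
    b = c := by
  have h1 : b ∣ c := (UniqueFactorizationMonoid.pow_dvd_pow_iff_dvd hn).1 h.dvd
  have h2 : c ∣ b := (UniqueFactorizationMonoid.pow_dvd_pow_iff_dvd hn).1 h.symm.dvd
  exact associated_iff_eq.1 (associated_of_dvd_dvd h1 h2)

private theorem icj_absNorm_map (e : 𝓞 K ≃+* 𝓞 K) (I : Ideal (𝓞 K)) :
    Ideal.absNorm (I.map (e : 𝓞 K →+* 𝓞 K)) = Ideal.absNorm I := by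
  rw [Ideal.absNorm_apply, Submodule.cardQuot_apply, Ideal.absNorm_apply, Submodule.cardQuot_apply]
  exact (Nat.card_congr (Ideal.quotientEquiv I _ e rfl).toEquiv).symm

private theorem icj_norm_int (hdim : Module.finrank ℚ K = 2) (n : ℤ) :
    Ideal.absNorm (Ideal.span {(n : 𝓞 K)}) = n.natAbs ^ 2 := by
  rw [Ideal.absNorm_span_singleton]
  have h1 : Algebra.norm ℤ (n : 𝓞 K) = n ^ 2 := by
    have h2 := Algebra.norm_algebraMap (R := ℤ) (S := 𝓞 K) n
    rw [RingOfIntegers.rank, hdim] at h2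
    simpa using h2
  rw [h1, Int.natAbs_pow]

private theorem icj_prin (hdim : Module.finrank ℚ K = 2) (τ : 𝓞 K ≃+* 𝓞 K) (x : 𝓞 K)
    (hx : ∃ n : ℤ, x * τ x = n) :
    Ideal.span {x} * Ideal.span {τ x} =
      Ideal.span {((Ideal.absNorm (Ideal.span {x}) : ℕ) : 𝓞 K)} := by
  obtain ⟨n, hn⟩ := hx
  have e1 : Ideal.span {τ x} = (Ideal.span {x}).map (τ : 𝓞 K →+* 𝓞 K) := by
    rw [Ideal.map_span, Set.image_singleton]
    rfl
  have e2 : Ideal.span {x} * Ideal.span {τ x} = Ideal.span {(n : 𝓞 K)} := by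
    rw [Ideal.span_singleton_mul_span_singleton, hn]
  have e3 : Ideal.absNorm (Ideal.span {x}) = n.natAbs := by
    have h1 := congrArg Ideal.absNorm e2
    rw [map_mul, icj_norm_int hdim, e1, icj_absNorm_map, ← sq] at h1
    exact Nat.pow_left_injective two_ne_zero h1
  rw [e2, e3]
  rcases Int.natAbs_eq n with h | h
  · conv_lhs => rw [h]
    rw [Int.cast_natCast]
  · conv_lhs => rw [h]
    rw [Int.cast_neg, Int.cast_natCast, Ideal.span_singleton_neg]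

private theorem icj_two {v : HeightOneSpectrum (𝓞 K)}
    (h : ∀ x : 𝓞 K, x ∈ v.asIdeal ∨ x - 1 ∈ v.asIdeal) : Ideal.absNorm v.asIdeal = 2 := by
  rw [Ideal.absNorm_apply, Submodule.cardQuot_apply, Nat.card_eq_two_iff]
  refine ⟨(Ideal.Quotient.mk v.asIdeal 0 : 𝓞 K ⧸ v.asIdeal), Ideal.Quotient.mk v.asIdeal 1, ?_, ?_⟩
  · intro h0
    rw [eq_comm, Ideal.Quotient.eq, sub_zero] at h0
    exact v.isPrime.ne_top ((Ideal.eq_top_iff_one _).2 h0)
  · rw [Set.eq_univ_iff_forall]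
    intro y
    obtain ⟨x, rfl⟩ := Ideal.Quotient.mk_surjective y
    rcases h x with hx | hx
    · left
      rw [Ideal.Quotient.eq, sub_zero]
      exact hx
    · right
      exact Ideal.Quotient.eq.2 hx

theorem exists_tau (hb : Base K a s) : ∃ τ : 𝓞 K ≃+* 𝓞 K, (∀ x, τ (τ x) = x) ∧
    (∀ x : 𝓞 K, ∃ n : ℤ, x * τ x = n) ∧
    (∀ [Algebra K ℂ], ∀ x : 𝓞 K, (starRingEnd ℂ) (algebraMap K ℂ (algebraMap (𝓞 K) K x)) =
      algebraMap K ℂ (algebraMap (𝓞 K) K (τ x))) ∧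
    (∀ c : Ideal (𝓞 K), c * c.map (τ : 𝓞 K →+* 𝓞 K) =
      Ideal.span {((Ideal.absNorm c : ℕ) : 𝓞 K)}) ∧
    (∀ c : Ideal (𝓞 K), c ≠ ⊥ → cl (idl (c.map (τ : 𝓞 K →+* 𝓞 K))) = (cl (idl c))⁻¹) ∧
    ∀ v v' : HeightOneSpectrum (𝓞 K), v ≠ v' → (2 : 𝓞 K) ∈ v.asIdeal → (2 : 𝓞 K) ∈ v'.asIdeal →
      v.asIdeal.map (τ : 𝓞 K →+* 𝓞 K) = v'.asIdeal := by
  have hpos : 0 < a := Nat.pos_of_ne_zero hb.sf.ne_zero
  obtain ⟨W, k, hW, hk, hco⟩ := Qd.exists_W hb.dim hb.sq hb.sf hb.mod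
  obtain ⟨σK, hσK⟩ := Pool.Agent.Work.MP_787500_nt.Quad.exists_conj hb.dim hb.sq hpos
  have hτW : RingOfIntegers.mapRingEquiv σK W = 1 - W := by
    apply RingOfIntegers.ext
    show σK (algebraMap (𝓞 K) K W) = algebraMap (𝓞 K) K (1 - W)
    have h1 := congrArg σK hW
    rw [map_mul, map_ofNat, map_add, map_one, hσK] at h1
    rw [map_sub, map_one]
    linear_combination (1 / 2 : K) * h1 + (1 / 2 : K) * hW
  have hmap : ∀ x : 𝓞 K, algebraMap (𝓞 K) K (RingOfIntegers.mapRingEquiv σK x) =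
      σK (algebraMap (𝓞 K) K x) := fun x => rfl
  obtain ⟨τ, hτ⟩ : ∃ τ : 𝓞 K ≃+* 𝓞 K, τ = RingOfIntegers.mapRingEquiv σK := ⟨_, rfl⟩
  rw [← hτ] at hτW hmap
  have hn : ∀ x : 𝓞 K, ∃ n : ℤ, x * τ x = n := by
    intro x
    obtain ⟨α, β, rfl⟩ := hco x
    refine ⟨α ^ 2 + α * β + 2 * k * β ^ 2, ?_⟩
    rw [map_add, map_mul, map_intCast, map_intCast, hτW]
    push_cast
    linear_combination (β : 𝓞 K) ^ 2 * hk
  have hc : ∀ c : Ideal (𝓞 K), c * c.map (τ : 𝓞 K →+* 𝓞 K) =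
      Ideal.span {((Ideal.absNorm c : ℕ) : 𝓞 K)} := by
    intro c
    by_cases hc : c = ⊥
    · subst hc
      rw [Ideal.absNorm_bot, Ideal.bot_mul]
      simp
    classical
    obtain ⟨n, hn0, α, hα⟩ : ∃ n : ℕ, n ≠ 0 ∧ ∃ α : 𝓞 K, c ^ n = Ideal.span {α} := by
      refine ⟨Fintype.card (ClassGroup (𝓞 K)), Fintype.card_ne_zero, ?_⟩
      have h2 : (ClassGroup.mk0 ⟨c, mem_nonZeroDivisors_iff_ne_zero.2 hc⟩) ^
          Fintype.card (ClassGroup (𝓞 K)) = 1 := pow_card_eq_one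
      rw [← map_pow, ClassGroup.mk0_eq_one_iff] at h2
      obtain ⟨α, hα⟩ := h2
      exact ⟨α, hα⟩
    apply icj_pow_inj hn0
    have h3 := icj_prin hb.dim τ α (hn α)
    rw [mul_pow, ← Ideal.map_pow, hα, Ideal.map_span, Set.image_singleton,
      Ideal.span_singleton_pow]
    refine Eq.trans h3 ?_
    rw [← hα, map_pow, Nat.cast_pow]
  refine ⟨τ, fun x => ?_, hn, ?_, hc, ?_, ?_⟩
  · obtain ⟨α, β, rfl⟩ := hco x
    simp only [map_add, map_mul, map_intCast, hτW, map_sub, map_one]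
    ring
  · intro _ x
    rw [hmap]
    obtain ⟨p, r, hpr⟩ := Pool.Agent.Work.MP_787500_nt.Quad.exists_coords hb.dim hb.sq hpos
      (algebraMap (𝓞 K) K x)
    rw [hpr, map_add, map_add, map_mul, map_mul, map_add, map_mul, map_add, map_mul, map_ratCast,
      map_ratCast, map_ratCast, map_ratCast, map_ratCast, map_ratCast, hσK, map_neg, map_ratCast,
      map_ratCast]
    have h1 := (Pool.Agent.Work.MP_787500_nt.Quad.emb_re_im hb.sq hpos (algebraMap K ℂ)).1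
    have h2 : (starRingEnd ℂ) (algebraMap K ℂ s) = -algebraMap K ℂ s := by
      apply Complex.ext
      · simp [h1]
      · simp
    rw [h2]
  · intro c hc0
    have hc1 : c.map (τ : 𝓞 K →+* 𝓞 K) ≠ ⊥ := by
      intro h0
      have h1 := icj_absNorm_map τ c
      rw [h0, Ideal.absNorm_bot] at h1
      exact hc0 (Ideal.absNorm_eq_zero_iff.1 h1.symm)
    have hN : ((Ideal.absNorm c : ℕ) : 𝓞 K) ≠ 0 := by
      intro h0
      exact hc0 (Ideal.absNorm_eq_zero_iff.1 (Nat.cast_eq_zero.1 h0))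
    have hN' : algebraMap (𝓞 K) K ((Ideal.absNorm c : ℕ) : 𝓞 K) ≠ 0 := by
      intro h0
      exact hN ((map_eq_zero_iff _ (RingOfIntegers.coe_injective)).1 h0)
    have h1 : cl (idl (c * c.map (τ : 𝓞 K →+* 𝓞 K))) = 1 := by
      rw [hc c, idl_span hN hN', ← cl_one, eq_comm, cl_eq_iff]
      exact ⟨_, (mul_one _).symm⟩
    rw [idl_mul hc0 hc1, cl_mul] at h1
    exact (inv_eq_of_mul_eq_one_right h1).symm
  · intro v v' hne hv hv'
    have h1 := hc v.asIdeal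
    rw [icj_two (Qd.dyadic hb.dim hb.sq hb.sf hb.mod hv).1] at h1
    have h2 : v'.asIdeal ∣ v.asIdeal * v.asIdeal.map (τ : 𝓞 K →+* 𝓞 K) := by
      rw [h1, Ideal.dvd_iff_le, Ideal.span_singleton_le_iff_mem]
      exact_mod_cast hv'
    have hmax : v'.asIdeal.IsMaximal := v'.isMaximal
    have hmax0 : v.asIdeal.IsMaximal := v.isMaximal
    rcases v'.prime.dvd_or_dvd h2 with h3 | h3
    · exfalso
      apply hne
      have h4 := hmax0.eq_of_le hmax.ne_top (Ideal.dvd_iff_le.1 h3)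
      exact HeightOneSpectrum.ext h4
    · have hmax1 : (v.asIdeal.map (τ : 𝓞 K →+* 𝓞 K)).IsMaximal :=
        Ideal.map_isMaximal_of_equiv τ
      exact hmax1.eq_of_le hmax.ne_top (Ideal.dvd_iff_le.1 h3)

end Pool.Agent.Work.MP_8efaaa_nt.N7
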