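import Mathlib
import Pool.Agent.Work.MP_787500_nt.HC.ArA
import Pool.Agent.Work.MP_787500_nt.HC.ArB
import Pool.Agent.Work.MP_8efaaa_nt.T.Defs
import Pool.Agent.Work.MP_8efaaa_nt.T.Quad

/-!
# N7/NPr (S-M): for a prime `a` the class number is odd

PROOF. Copy `ambiguous` (MP_787500_nt/HC/ArA.lean) and `odd_hK` (HC/ArB.lean): there `IsBase K q s` asks `q % 16`, but the proofs only use `q` prime, `q % 4 = 3` (or `q % 8 = 7`);
`T.Quad` has the facts for `Base`.
-/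

set_option autoImplicit false

namespace Pool.Agent.Work.MP_8efaaa_nt.N7

open NumberField Pool.Agent.Work.MP_8efaaa_nt.T

section

open WithZero IsDedekindDomain Pool.Agent.Work.MP_787500_nt
open scoped Pointwise nonZeroDivisors

variable {K : Type*} [Field K] [NumberField K] {q : ℕ} {s : K}

private theorem np_ambiguous (hK2 : Module.finrank ℚ K = 2) (hs : s ^ 2 = -(q : K)) (hq : q.Prime)
    (hq8 : q % 8 = 7) {S : 𝓞 K} (hS : algebraMap (𝓞 K) K S = s)
    (σ : 𝓞 K ≃+* 𝓞 K) (hσ : σ S = -S) {J : Ideal (𝓞 K)} (hJ : ∀ x ∈ J, σ x ∈ J) :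
    Submodule.IsPrincipal J := by
  obtain ⟨W, k, hW, hWk, hx⟩ := Quad.exists_W hK2 hs hq (by omega)
  have hinj : Function.Injective (algebraMap (𝓞 K) K) := RingOfIntegers.coe_injective
  have hW' : 2 * W = 1 + S := by
    apply hinj
    rw [map_mul, map_ofNat, hW, map_add, map_one, hS]
  have hS2 : S ^ 2 = -(q : 𝓞 K) := by
    apply hinj
    rw [map_pow, hS, hs, map_neg, map_natCast]
  have h20 : (2 : 𝓞 K) ≠ 0 := two_ne_zero
  have hσW : σ W = 1 - W := by
    apply mul_left_cancel₀ h20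
    have h1 : σ (2 * W) = 1 - S := by rw [hW', map_add, map_one, hσ]; ring
    rw [map_mul, map_ofNat] at h1
    rw [h1]
    linear_combination hW'
  by_cases hJ0 : J = ⊥
  · rw [hJ0]
    exact bot_isPrincipal
  obtain ⟨x0, hx0J, hx00⟩ := Submodule.exists_mem_ne_zero_of_ne_bot hJ0
  -- the ideal of the coefficients of W
  let B : Ideal ℤ :=
    { carrier := {b | ∃ a : ℤ, (a : 𝓞 K) + b * W ∈ J}
      add_mem' := by
        rintro b b' ⟨a, ha⟩ ⟨a', ha'⟩
        refine ⟨a + a', ?_⟩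
        have := J.add_mem ha ha'
        convert this using 1
        push_cast
        ring
      zero_mem' := ⟨0, by simp⟩
      smul_mem' := by
        rintro c b ⟨a, ha⟩
        refine ⟨c * a, ?_⟩
        have := J.mul_mem_left (c : 𝓞 K) ha
        convert this using 1
        rw [smul_eq_mul]
        push_cast
        ring }
  have hBmem : ∀ b : ℤ, b ∈ B ↔ ∃ a : ℤ, (a : 𝓞 K) + b * W ∈ J := fun b => Iff.rfl
  obtain ⟨r, hr⟩ := (IsPrincipalIdealRing.principal B).principal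
  have hmulW : ∀ a b : ℤ, (a : 𝓞 K) + b * W ∈ J →
      ((-(2 * k * b) : ℤ) : 𝓞 K) + ((a + b : ℤ) : 𝓞 K) * W ∈ J := by
    intro a b hab
    have h1 := J.mul_mem_right W hab
    convert h1 using 1
    push_cast
    linear_combination (b : 𝓞 K) * hWk
  have hdvd : ∀ a b : ℤ, (a : 𝓞 K) + b * W ∈ J → r ∣ b ∧ r ∣ a := by
    intro a b hab
    have h1 : b ∈ B := ⟨a, hab⟩
    have h2 : a + b ∈ B := ⟨_, hmulW a b hab⟩
    rw [hr] at h1 h2
    obtain ⟨c, hc⟩ := Ideal.mem_span_singleton'.1 h1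
    obtain ⟨d, hd⟩ := Ideal.mem_span_singleton'.1 h2
    exact ⟨⟨c, by rw [← hc]; ring⟩, ⟨d - c, by linear_combination hc - hd⟩⟩
  have hr0 : r ≠ 0 := by
    rintro rfl
    obtain ⟨a, b, rfl⟩ := hx x0
    obtain ⟨h1, h2⟩ := hdvd a b hx0J
    rw [zero_dvd_iff] at h1 h2
    apply hx00
    rw [h1, h2]
    simp
  have hr0' : (r : 𝓞 K) ≠ 0 := by exact_mod_cast hr0
  obtain ⟨a0, ha0⟩ : ∃ a : ℤ, (a : 𝓞 K) + r * W ∈ J := by
    have : r ∈ B := by
      rw [hr]
      exact Ideal.mem_span_singleton_self r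
    exact this
  obtain ⟨a', rfl⟩ := (hdvd _ _ ha0).2
  -- the divided ideal
  have hJ'S : (r : 𝓞 K) * S ∈ J := by
    have h1 := J.sub_mem ha0 (hJ _ ha0)
    rw [map_add, map_mul, hσW, map_intCast, map_intCast] at h1
    convert h1 using 1
    push_cast
    linear_combination -(r : 𝓞 K) * hW'
  have hqJ : (r : 𝓞 K) * q ∈ J := by
    have h1 := J.mul_mem_right (-S) hJ'S
    convert h1 using 1
    linear_combination (r : 𝓞 K) * hS2
  by_cases hall : ∀ x, (r : 𝓞 K) * x ∈ J → x ∈ Ideal.span {S}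
  · refine ⟨⟨(r : 𝓞 K) * S, ?_⟩⟩
    refine le_antisymm ?_ ?_
    · intro x hxJ
      obtain ⟨a, b, rfl⟩ := hx x
      obtain ⟨⟨b1, rfl⟩, ⟨a1, rfl⟩⟩ := hdvd a b hxJ
      have h1 : (r : 𝓞 K) * (a1 + b1 * W) ∈ J := by
        convert hxJ using 1
        push_cast
        ring
      obtain ⟨c, hc⟩ := Ideal.mem_span_singleton'.1 (hall _ h1)
      refine Ideal.mem_span_singleton'.2 ⟨c, ?_⟩
      push_cast
      linear_combination (r : 𝓞 K) * hc
    · exact (Ideal.span_singleton_le_iff_mem _).2 hJ'S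
  · push Not at hall
    obtain ⟨x, hxJ, hxS⟩ := hall
    refine ⟨⟨(r : 𝓞 K), ?_⟩⟩
    refine le_antisymm ?_ ?_
    · intro y hyJ
      obtain ⟨a, b, rfl⟩ := hx y
      obtain ⟨⟨b1, rfl⟩, ⟨a1, rfl⟩⟩ := hdvd a b hyJ
      refine Ideal.mem_span_singleton'.2 ⟨(a1 : 𝓞 K) + b1 * W, ?_⟩
      push_cast
      ring
    · refine (Ideal.span_singleton_le_iff_mem _).2 ?_
      obtain ⟨a, b, rfl⟩ := hx x
      have hm : (r : 𝓞 K) * ((2 * a + b : ℤ) : 𝓞 K) ∈ J := by
        have h1 := J.sub_mem (J.mul_mem_left 2 hxJ) (J.mul_mem_left (b : 𝓞 K) hJ'S)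
        convert h1 using 1
        push_cast
        linear_combination -(r : 𝓞 K) * b * hW'
      have hqS : (q : 𝓞 K) ∈ Ideal.span {S} := Ideal.mem_span_singleton'.2 ⟨-S, by
        linear_combination -hS2⟩
      have hqm : ¬ (q : ℤ) ∣ 2 * a + b := by
        rintro ⟨c, hc⟩
        apply hxS
        have hcK : (2 : 𝓞 K) * a + b = q * c := by exact_mod_cast congrArg (Int.cast (R := 𝓞 K)) hc
        have h1 : 2 * ((a : 𝓞 K) + b * W) ∈ Ideal.span {S} := by
          have h2 : 2 * ((a : 𝓞 K) + b * W) = q * c + b * S := by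
            linear_combination hcK + (b : 𝓞 K) * hW'
          rw [h2]
          exact Ideal.add_mem _ (Ideal.mul_mem_right _ _ hqS)
            (Ideal.mul_mem_left _ _ (Ideal.mem_span_singleton_self S))
        obtain ⟨m, hm2⟩ : ∃ m : ℕ, q + 1 = 2 * m := ⟨(q + 1) / 2, by omega⟩
        have hmK : (q : 𝓞 K) + 1 = 2 * m := by exact_mod_cast hm2
        have h3 : (a : 𝓞 K) + b * W = m * (2 * ((a : 𝓞 K) + b * W)) -
            (a + b * W) * q := by
          linear_combination ((a : 𝓞 K) + b * W) * hmK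
        rw [h3]
        exact Ideal.sub_mem _ (Ideal.mul_mem_left _ _ h1) (Ideal.mul_mem_left _ _ hqS)
      have hcop : IsCoprime (q : ℤ) (2 * a + b) :=
        (Prime.coprime_iff_not_dvd (Nat.prime_iff_prime_int.1 hq)).2 hqm
      obtain ⟨u, t, hut⟩ := hcop
      have hutK : (u : 𝓞 K) * q + t * ((2 * a + b : ℤ) : 𝓞 K) = 1 := by
        exact_mod_cast congrArg (Int.cast (R := 𝓞 K)) hut
      have h4 : (r : 𝓞 K) = u * (r * q) + t * (r * ((2 * a + b : ℤ) : 𝓞 K)) := by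
        linear_combination -(r : 𝓞 K) * hutK
      rw [h4]
      exact J.add_mem (J.mul_mem_left _ hqJ) (J.mul_mem_left _ hm)

private theorem np_coords (hs : s ^ 2 = -(q : K)) (hq : 0 < q) {W : 𝓞 K}
    (hW : 2 * algebraMap (𝓞 K) K W = 1 + s) {a b : ℤ} (h : (a : 𝓞 K) + b * W = 0) :
    a = 0 ∧ b = 0 := by
  have h1 : ((2 * a + b : ℚ) : K) + ((b : ℚ) : K) * s = 0 := by
    have h2 := congrArg (algebraMap (𝓞 K) K) h
    rw [map_add, map_mul, map_intCast, map_intCast, map_zero] at h2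
    push_cast
    linear_combination 2 * h2 - (b : K) * hW
  obtain ⟨h2, h3⟩ := Quad.not_rat hs hq _ _ h1
  have h4 : b = 0 := by exact_mod_cast h3
  subst h4
  have h5 : (2 : ℚ) * a = 0 := by simpa using h2
  have h6 : (a : ℚ) = 0 := by linarith
  exact ⟨by exact_mod_cast h6, rfl⟩

private theorem np_dvd (hs : s ^ 2 = -(q : K)) (hq : 0 < q) {W : 𝓞 K}
    (hW : 2 * algebraMap (𝓞 K) K W = 1 + s) (hx : ∀ x : 𝓞 K, ∃ a b : ℤ, x = a + b * W)
    {m n : ℤ} (h : (m : 𝓞 K) ∣ (n : 𝓞 K)) : m ∣ n := by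
  obtain ⟨z, hz⟩ := h
  obtain ⟨a, b, rfl⟩ := hx z
  have h1 : ((n - m * a : ℤ) : 𝓞 K) + ((-(m * b) : ℤ) : 𝓞 K) * W = 0 := by
    push_cast
    linear_combination hz
  obtain ⟨h2, -⟩ := np_coords hs hq hW h1
  exact ⟨a, by linarith⟩

private theorem np_odd (hK2 : Module.finrank ℚ K = 2) (hs : s ^ 2 = -(q : K)) (hq : q.Prime)
    (hq8 : q % 8 = 7) : Odd (Nat.card (ClassGroup (𝓞 K))) := by
  obtain ⟨W, k, hW, hWk, hx⟩ := Quad.exists_W hK2 hs hq (by omega)
  obtain ⟨S, hS, hS2⟩ := Quad.exists_int_s hs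
  obtain ⟨σK, hσK⟩ := Quad.exists_conj hK2 hs hq.pos
  have hinj : Function.Injective (algebraMap (𝓞 K) K) := RingOfIntegers.coe_injective
  set σ : 𝓞 K ≃+* 𝓞 K := RingOfIntegers.mapRingEquiv σK with hσdef
  have hσmap : ∀ x : 𝓞 K, algebraMap (𝓞 K) K (σ x) = σK (algebraMap (𝓞 K) K x) := fun x => rfl
  have hσ : σ S = -S := by
    apply hinj
    rw [hσmap, hS, hσK, map_neg, hS]
  have hW' : 2 * W = 1 + S := by
    apply hinj
    rw [map_mul, map_ofNat, hW, map_add, map_one, hS]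
  have h20 : (2 : 𝓞 K) ≠ 0 := two_ne_zero
  have hσW : σ W = 1 - W := by
    apply mul_left_cancel₀ h20
    have h1 : σ (2 * W) = 1 - S := by rw [hW', map_add, map_one, hσ]; ring
    rw [map_mul, map_ofNat] at h1
    rw [h1]
    linear_combination hW'
  have hσσ : ∀ x, σ (σ x) = x := by
    intro x
    obtain ⟨a, b, rfl⟩ := hx x
    rw [map_add, map_mul, hσW, map_intCast, map_intCast, map_add, map_mul, map_sub, map_one, hσW,
      map_intCast, map_intCast]
    ring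
  -- norms
  have hk8 : 8 * k = q + 1 := by
    have h1 : (4 : 𝓞 K) * (W * (1 - W)) = 1 + q := by
      linear_combination (2 - 2 * W - (1 + S)) * hW' - hS2
    rw [hWk] at h1
    have h2 : ((8 * k : ℤ) : 𝓞 K) = ((q + 1 : ℤ) : 𝓞 K) := by
      push_cast
      linear_combination h1
    exact_mod_cast h2
  have hnorm : ∀ x : 𝓞 K, x ≠ 0 → ∃ m : ℤ, 0 < m ∧ x * σ x = m := by
    intro x hx0
    obtain ⟨a, b, rfl⟩ := hx x
    refine ⟨a ^ 2 + a * b + 2 * k * b ^ 2, ?_, ?_⟩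
    · have h1 : 4 * (a ^ 2 + a * b + 2 * k * b ^ 2) = (2 * a + b) ^ 2 + q * b ^ 2 := by
        linear_combination b ^ 2 * hk8
      have hq0 : (0 : ℤ) < q := by exact_mod_cast hq.pos
      have h2 : 0 < (2 * a + b) ^ 2 + q * b ^ 2 := by
        by_cases hb0 : b = 0
        · subst hb0
          have ha0 : a ≠ 0 := by
            rintro rfl
            apply hx0
            simp
          have : 0 < a ^ 2 := by positivity
          nlinarith
        · have : 0 < b ^ 2 := by positivity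
          have h3 : 0 < (q : ℤ) * b ^ 2 := mul_pos hq0 this
          nlinarith [sq_nonneg (2 * a + b)]
      linarith
    · rw [map_add, map_mul, hσW, map_intCast, map_intCast]
      push_cast
      linear_combination (b : 𝓞 K) ^ 2 * hWk
  -- suppose the class number is even
  by_contra hodd
  rw [Nat.not_odd_iff_even] at hodd
  have hdvd : 2 ∣ Nat.card (ClassGroup (𝓞 K)) := even_iff_two_dvd.1 hodd
  have : Fact (Nat.Prime 2) := ⟨Nat.prime_two⟩
  obtain ⟨c, hc⟩ := exists_prime_orderOf_dvd_card' 2 hdvd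
  obtain ⟨I, rfl⟩ := ClassGroup.mk0_surjective c
  have hI0 : (I : Ideal (𝓞 K)) ≠ ⊥ := nonZeroDivisors.coe_ne_zero I
  have hcc : ClassGroup.mk0 I * ClassGroup.mk0 I = 1 := by
    rw [← pow_two, ← hc, pow_orderOf_eq_one]
  have hc1 : ClassGroup.mk0 I ≠ 1 := by
    intro h
    rw [h, orderOf_one] at hc
    omega
  set I' : Ideal (𝓞 K) := (I : Ideal (𝓞 K)).map (σ : 𝓞 K →+* 𝓞 K) with hI'
  have hmapmap : ∀ L : Ideal (𝓞 K), (L.map (σ : 𝓞 K →+* 𝓞 K)).map (σ : 𝓞 K →+* 𝓞 K) = L := by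
    intro L
    rw [Ideal.map_map]
    have : ((σ : 𝓞 K →+* 𝓞 K).comp (σ : 𝓞 K →+* 𝓞 K)) = RingHom.id _ := by
      ext1 x
      exact hσσ x
    rw [this, Ideal.map_id]
  have hmem : ∀ (L : Ideal (𝓞 K)) x, x ∈ L → σ x ∈ L.map (σ : 𝓞 K →+* 𝓞 K) := fun L x hxL =>
    Ideal.mem_map_of_mem (σ : 𝓞 K →+* 𝓞 K) hxL
  have hI'0 : I' ≠ ⊥ := by
    intro h0
    apply hI0
    rw [← hmapmap I, ← hI', h0, Ideal.map_bot]
  -- step 1
  have hprin : Submodule.IsPrincipal ((I : Ideal (𝓞 K)) * I') := by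
    refine np_ambiguous hK2 hs hq hq8 hS σ hσ (fun x hxL => ?_)
    have h1 := hmem _ x hxL
    rw [Ideal.map_mul, hI', hmapmap, mul_comm] at h1
    exact h1
  have hII'0 : (I : Ideal (𝓞 K)) * I' ≠ ⊥ := mul_ne_zero hI0 hI'0
  have hI'mem : I' ∈ (Ideal (𝓞 K))⁰ := mem_nonZeroDivisors_of_ne_zero hI'0
  have hcl : ClassGroup.mk0 I = ClassGroup.mk0 ⟨I', hI'mem⟩ := by
    have h1 : ClassGroup.mk0 (I * ⟨I', hI'mem⟩) = 1 := by
      have h2 := (ClassGroup.mk0_eq_one_iff (mem_nonZeroDivisors_of_ne_zero hII'0)).2 hprin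
      exact h2
    rw [map_mul] at h1
    have h2 := hcc.trans h1.symm
    exact mul_left_cancel h2
  obtain ⟨y, x, hy0, hx0, hxy⟩ := ClassGroup.mk0_eq_mk0_iff.1 hcl
  -- (y) I = (x) I'
  have hxy' : Ideal.span {y} * (I : Ideal (𝓞 K)) = Ideal.span {x} * I' := hxy
  have hspanσ : ∀ z : 𝓞 K, (Ideal.span {z}).map (σ : 𝓞 K →+* 𝓞 K) = Ideal.span {σ z} := by
    intro z
    rw [Ideal.map_span, Set.image_singleton]
    rfl
  have hxyσ : Ideal.span {σ y} * I' = Ideal.span {σ x} * (I : Ideal (𝓞 K)) := by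
    have h1 := congrArg (Ideal.map (σ : 𝓞 K →+* 𝓞 K)) hxy'
    rw [Ideal.map_mul, Ideal.map_mul, hspanσ, hspanσ, ← hI', hI', hmapmap] at h1
    rw [hI']
    exact h1
  have hnormeq : x * σ x = y * σ y := by
    obtain ⟨m, hm, hxm⟩ := hnorm x hx0
    obtain ⟨n, hn, hyn⟩ := hnorm y hy0
    have h1 : Ideal.span {y * σ y} * ((I : Ideal (𝓞 K)) * I') =
        Ideal.span {x * σ x} * ((I : Ideal (𝓞 K)) * I') := by
      rw [← Ideal.span_singleton_mul_span_singleton, ← Ideal.span_singleton_mul_span_singleton]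
      calc Ideal.span {y} * Ideal.span {σ y} * ((I : Ideal (𝓞 K)) * I')
          = (Ideal.span {y} * (I : Ideal (𝓞 K))) * (Ideal.span {σ y} * I') := by ring
        _ = (Ideal.span {x} * I') * (Ideal.span {σ x} * (I : Ideal (𝓞 K))) := by
            rw [hxy', hxyσ]
        _ = _ := by ring
    have h2 := mul_right_cancel₀ hII'0 h1
    rw [hxm, hyn, Ideal.span_singleton_eq_span_singleton] at h2
    have h3 := np_dvd hs hq.pos hW hx h2.dvd
    have h4 := np_dvd hs hq.pos hW hx h2.symm.dvd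
    have h5 : n = m := Int.dvd_antisymm hn.le hm.le h3 h4
    rw [hxm, hyn, h5]
  have hσ0 : ∀ z : 𝓞 K, z ≠ 0 → σ z ≠ 0 := fun z hz h => hz (by
    have := congrArg σ h
    rwa [hσσ, map_zero] at this)
  -- step 3
  obtain ⟨z, hz0, hz⟩ : ∃ z : 𝓞 K, z ≠ 0 ∧ σ z * y = z * σ x := by
    by_cases hxy0 : x + y = 0
    · have hyx : y = -x := by linear_combination hxy0
      refine ⟨x * S, mul_ne_zero hx0 ?_, ?_⟩
      · rintro rfl
        rw [map_zero] at hS
        exact Quad.s_ne_zero hs hq hS.symm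
      · rw [map_mul, hσ, hyx]
        ring
    · refine ⟨x + y, hxy0, ?_⟩
      rw [map_add]
      linear_combination -hnormeq
  have hc0 : z * σ x ≠ 0 := mul_ne_zero hz0 (hσ0 x hx0)
  have hJ : Submodule.IsPrincipal (Ideal.span {z * σ x} * (I : Ideal (𝓞 K))) := by
    refine np_ambiguous hK2 hs hq hq8 hS σ hσ (fun t ht => ?_)
    have h1 := hmem _ t ht
    rw [Ideal.map_mul, hspanσ, map_mul, hσσ, ← hI'] at h1
    have h2 : Ideal.span {σ z * x} * I' = Ideal.span {z * σ x} * (I : Ideal (𝓞 K)) := by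
      rw [← hz, ← Ideal.span_singleton_mul_span_singleton,
        ← Ideal.span_singleton_mul_span_singleton, mul_assoc, mul_assoc, hxy']
    rw [h2] at h1
    exact h1
  apply hc1
  have hmemI : Ideal.span {z * σ x} * (I : Ideal (𝓞 K)) ∈ (Ideal (𝓞 K))⁰ := by
    refine mem_nonZeroDivisors_of_ne_zero (mul_ne_zero ?_ hI0)
    rw [Ne, Ideal.zero_eq_bot, Ideal.span_singleton_eq_bot]
    exact hc0
  have h1 := (ClassGroup.mk0_eq_one_iff hmemI).2 hJ
  rw [← h1, ClassGroup.mk0_eq_mk0_iff]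
  refine ⟨z * σ x, 1, hc0, one_ne_zero, ?_⟩
  rw [Ideal.span_singleton_one, Ideal.one_eq_top.symm, one_mul]

end

theorem prime_odd {K : Type*} [Field K] [NumberField K] {a : ℕ} {s : K} (hb : Base K a s)
    (hp : a.Prime) : Odd (Nat.card (ClassGroup (𝓞 K))) := by
  obtain ⟨hK2, hs, -, hq8⟩ := hb
  exact np_odd hK2 hs hp hq8

end Pool.Agent.Work.MP_8efaaa_nt.N7
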