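import Mathlib
import Pool.Agent.Work.MP_8efaaa_nt.N5.DIn
import Pool.Agent.Work.MP_8efaaa_nt.N5.DFix
import Pool.Agent.Work.MP_8efaaa_nt.T.Defs
import Pool.Agent.Work.MP_8efaaa_nt.T.Quad

/-!
# N7/DIn (M): an inertia element at a ramified prime

PROOF. `exists_inert7`: as `exists_inert` (N5/DIn.lean, the case `a = 5 (mod 8)`). `inert_w7`: if `l ∣ d`: `e = s / w` has `e^2 = -(a / d)`, an integer that is not in `L`
(`a` squarefree, so `l ∤ a / d`; `l ∈ L`), so `ι e = e` (`inert_sq`, N5/DFix) and `ι w = ι s / ι e = -w` (`w ≠ 0`). If `l ∤ d`: `inert_sq` for `w`, `w^2 = d`.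
-/

set_option autoImplicit false

namespace Pool.Agent.Work.MP_8efaaa_nt.N7

open NumberField Pool.Agent.Work.MP_8efaaa_nt.T Pool.Agent.Work.MP_8efaaa_nt.N5

private theorem din_sq7 {K : Type*} [Field K] [NumberField K] {a : ℕ} {S : 𝓞 K}
    (hqs : S * S = -(a : 𝓞 K)) (hqf : Squarefree a) {l : ℕ} (_hl : l.Prime) (hla : l ∣ a) {P : Ideal (𝓞 K)} (hP : P.IsPrime)
    (hlP : (l : 𝓞 K) ∈ P) :
    Ideal.map (algebraMap ℤ (𝓞 K)) (Ideal.span {(l : ℤ)}) ≤ P ^ 2 := by
  have haP : (a : 𝓞 K) ∈ P := by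
    obtain ⟨c, rfl⟩ := hla
    push_cast
    exact P.mul_mem_right _ hlP
  have hSP : S ∈ P := by
    have h1 : S * S ∈ P := by
      rw [hqs]
      exact P.neg_mem haP
    rcases hP.mem_or_mem h1 with h | h <;> exact h
  obtain ⟨c, hc⟩ := hla
  have hcop : IsCoprime (l : ℤ) (c : ℤ) := by
    rw [Nat.isCoprime_iff_coprime]
    have h1 : Squarefree (l * c) := hc ▸ hqf
    exact (Nat.squarefree_mul_iff.1 h1).1
  obtain ⟨u, v, huv⟩ := hcop
  have huv' : (u : 𝓞 K) * l + v * c = 1 := by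
    exact_mod_cast congrArg (Int.cast : ℤ → 𝓞 K) huv
  have hl2 : (l : 𝓞 K) ∈ P ^ 2 := by
    have h1 : (l : 𝓞 K) = u * (l * l) + (-v) * (S * S) := by
      have h2 : S * S = -((l : 𝓞 K) * c) := by
        rw [hqs, hc]
        push_cast
        ring
      rw [h2]
      linear_combination (-(l : 𝓞 K)) * huv'
    rw [h1, pow_two]
    exact Ideal.add_mem _ (Ideal.mul_mem_left _ _ (Ideal.mul_mem_mul hlP hlP))
      (Ideal.mul_mem_left _ _ (Ideal.mul_mem_mul hSP hSP))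
  rw [Ideal.map_span, Set.image_singleton, Ideal.span_singleton_le_iff_mem]
  simpa using hl2

theorem exists_inert7 {K : Type*} {F : Type*} [Field K] [NumberField K] [Field F] [NumberField F]
    [Algebra K F] [IsGalois ℚ F] {a : ℕ} {s : K} (hb : Base K a s) {l : ℕ} (hl : l.Prime)
    (hla : l ∣ a) : ∃ (ι : F ≃ₐ[ℚ] F) (L : Ideal (𝓞 F)), Inert ι L ∧ (l : 𝓞 F) ∈ L ∧
      ι (algebraMap K F s) = -algebraMap K F s := by
  classical
  have hKF : IsGalois K F := IsGalois.tower_top_of_isGalois ℚ K F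
  have hpos : 0 < a := Nat.pos_of_ne_zero hb.sf.ne_zero
  have hint : IsIntegral ℤ s := by
    refine IsIntegral.of_pow (n := 2) (by norm_num) ?_
    rw [hb.sq]
    have h1 : (-(a : K)) = algebraMap ℤ K (-(a : ℤ)) := by simp
    rw [h1]
    exact isIntegral_algebraMap
  obtain ⟨S, hS⟩ : ∃ S : 𝓞 K, algebraMap (𝓞 K) K S = s := ⟨⟨s, hint⟩, rfl⟩
  have hqs : S * S = -(a : 𝓞 K) := by
    apply NumberField.RingOfIntegers.coe_injective
    rw [map_mul, map_neg, map_natCast, hS, ← hb.sq, pow_two]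
  have hlZ : Prime (l : ℤ) := Nat.prime_iff_prime_int.1 hl
  have hpZ : (Ideal.span {(l : ℤ)}).IsPrime := (Ideal.span_singleton_prime hlZ.ne_zero).2 hlZ
  have hpZ0 : (Ideal.span {(l : ℤ)}) ≠ ⊥ := by
    rw [Ne, Ideal.span_singleton_eq_bot]
    exact hlZ.ne_zero
  obtain ⟨⟨L, hL1, hL2⟩⟩ :=
    (inferInstance : Nonempty ((Ideal.span {(l : ℤ)}).primesOver (𝓞 F)))
  have hLl : (l : 𝓞 F) ∈ L := by
    have h1 : (l : ℤ) ∈ Ideal.span {(l : ℤ)} := Ideal.mem_span_singleton_self _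
    rw [hL2.over, Ideal.mem_comap] at h1
    simpa using h1
  have hLbot : L ≠ ⊥ := by
    rintro rfl
    rw [Ideal.mem_bot] at hLl
    exact hl.ne_zero (by exact_mod_cast hLl)
  have hodd : l % 2 = 1 := by
    obtain ⟨c, hc⟩ := hla
    have h1 := hb.mod
    rcases Nat.mod_two_eq_zero_or_one l with h | h
    · exfalso
      have h2 : a % 2 = 0 := by
        rw [hc, Nat.mul_mod, h]
        simp
      omega
    · exact h
  have hL2' : (2 : 𝓞 F) ∉ L := by
    intro h2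
    apply hL1.ne_top
    rw [Ideal.eq_top_iff_one]
    have h3 : (1 : 𝓞 F) = (l : 𝓞 F) - ((l / 2 : ℕ) : 𝓞 F) * 2 := by
      have h4 : l = (l / 2) * 2 + 1 := by omega
      have h5 : (l : 𝓞 F) = ((l / 2 : ℕ) : 𝓞 F) * 2 + 1 := by exact_mod_cast congrArg (Nat.cast : ℕ → 𝓞 F) h4
      rw [h5]
      ring
    rw [h3]
    exact L.sub_mem hLl (L.mul_mem_left _ h2)
  by_contra hno
  have hfix : ∀ σ ∈ L.inertia (F ≃ₐ[ℚ] F), σ (algebraMap K F s) = algebraMap K F s := by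
    intro σ hσ
    have hsq : (σ (algebraMap K F s)) ^ 2 = (algebraMap K F s) ^ 2 := by
      rw [← map_pow, ← map_pow, hb.sq]
      simp
    rcases sq_eq_sq_iff_eq_or_eq_neg.mp hsq with h | h
    · exact h
    · exfalso
      apply hno
      refine ⟨σ, L, ⟨hL1, hLbot, hL2', fun x => ⟨σ • x - x, hσ x, ?_⟩⟩, hLl, h⟩
      rw [map_sub]
      rfl
  have hcomm : ∀ σ ∈ L.inertia (F ≃ₐ[ℚ] F), ∀ k : K,
      σ (algebraMap K F k) = algebraMap K F k := by
    intro σ hσ k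
    obtain ⟨x, y, rfl⟩ :=
      Pool.Agent.Work.MP_787500_nt.Quad.exists_coords hb.dim hb.sq hpos k
    rw [map_add, map_mul, map_add, map_mul, hfix σ hσ]
    simp
  let toK : L.inertia (F ≃ₐ[ℚ] F) → L.inertia (F ≃ₐ[K] F) := fun σ =>
    ⟨AlgEquiv.ofRingEquiv (f := (σ.1 : F ≃ₐ[ℚ] F).toRingEquiv) (hcomm σ.1 σ.2), fun x => by
      have h1 := σ.2 x
      exact h1⟩
  have hinj : Function.Injective toK := by
    intro σ τ h
    apply Subtype.ext
    apply AlgEquiv.ext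
    intro x
    have h1 := congrArg (fun g => (g : F ≃ₐ[K] F) x) (congrArg Subtype.val h)
    exact h1
  have hle : Nat.card (L.inertia (F ≃ₐ[ℚ] F)) ≤ Nat.card (L.inertia (F ≃ₐ[K] F)) :=
    Nat.card_le_card_of_injective toK hinj
  have hP : (L.under (𝓞 K)).IsPrime := inferInstance
  have hlP : (l : 𝓞 K) ∈ L.under (𝓞 K) := by
    rw [Ideal.mem_comap]
    simpa using hLl
  have hPo : (L.under (𝓞 K)).LiesOver (Ideal.span {(l : ℤ)}) := by
    constructor
    rw [hL2.over, Ideal.under_under]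
  have e1 : Nat.card (L.inertia (F ≃ₐ[ℚ] F)) = L.ramificationIdx ℤ := by
    rw [Ideal.card_inertia_eq_ramificationIdxIn (Ideal.span {(l : ℤ)}) L,
      Ideal.ramificationIdxIn_eq_ramificationIdx (Ideal.span {(l : ℤ)}) L (F ≃ₐ[ℚ] F)]
  have e2 : Nat.card (L.inertia (F ≃ₐ[K] F)) = L.ramificationIdx (𝓞 K) := by
    rw [Ideal.card_inertia_eq_ramificationIdxIn (L.under (𝓞 K)) L,
      Ideal.ramificationIdxIn_eq_ramificationIdx (L.under (𝓞 K)) L (F ≃ₐ[K] F)]
  have e3 : L.ramificationIdx ℤ = (L.under (𝓞 K)).ramificationIdx ℤ * L.ramificationIdx (𝓞 K) :=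
    Ideal.ramificationIdx_tower _ _
  have e4 : (L.under (𝓞 K)).ramificationIdx ℤ ≠ 1 := by
    rw [← Ideal.ramificationIdx'_eq_ramificationIdx (Ideal.span {(l : ℤ)}) (L.under (𝓞 K)) hpZ0]
    rw [Ideal.ramificationIdx'_ne_one_iff]
    · exact din_sq7 hqs hb.sf hl hla hP hlP
    · exact (din_sq7 hqs hb.sf hl hla hP hlP).trans (Ideal.pow_le_self two_ne_zero)
  have e5 : 0 < (L.under (𝓞 K)).ramificationIdx ℤ := Ideal.ramificationIdx_pos _ _
  have e6 : 0 < L.ramificationIdx (𝓞 K) := Ideal.ramificationIdx_pos _ _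
  rw [e1, e2, e3] at hle
  have e7 : 2 ≤ (L.under (𝓞 K)).ramificationIdx ℤ := by omega
  nlinarith

theorem inert_w7 {F : Type*} [Field F] [NumberField F] {ι : F ≃ₐ[ℚ] F} {L : Ideal (𝓞 F)}
    (h : Inert ι L) {s w : F} {a d l : ℕ} (ha : Squarefree a) (hs : s ^ 2 = -(a : F))
    (hw : w ^ 2 = (d : F)) (hd : d ∣ a) (hl : l.Prime) (hla : l ∣ a) (hL : (l : 𝓞 F) ∈ L)
    (hι : ι s = -s) : (l ∣ d → ι w = -w) ∧ (¬ l ∣ d → ι w = w) := by
  have ha0 : a ≠ 0 := ha.ne_zero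
  obtain ⟨m, hm⟩ := hd
  have hd0 : d ≠ 0 := by
    rintro rfl
    rw [zero_mul] at hm
    exact ha0 hm
  have hdF : (d : F) ≠ 0 := Nat.cast_ne_zero.mpr hd0
  have haF : (a : F) ≠ 0 := Nat.cast_ne_zero.mpr ha0
  have hw0 : w ≠ 0 := by
    rintro rfl
    rw [zero_pow two_ne_zero] at hw
    exact hdF hw.symm
  have hs0 : s ≠ 0 := by
    rintro rfl
    rw [zero_pow two_ne_zero] at hs
    exact haF (neg_eq_zero.mp hs.symm)
  have hcopL : ∀ n : ℕ, Nat.Coprime l n → ((n : ℤ) : 𝓞 F) ∉ L := by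
    intro n hcop hc
    have h1 := Nat.gcd_eq_gcd_ab l n
    rw [hcop] at h1
    have h2 : (1 : 𝓞 F) = (l : 𝓞 F) * ((Nat.gcdA l n : ℤ) : 𝓞 F) +
        ((n : ℤ) : 𝓞 F) * ((Nat.gcdB l n : ℤ) : 𝓞 F) := by
      have := congrArg (fun x : ℤ => (x : 𝓞 F)) h1
      push_cast at this ⊢
      exact this
    have h3 : (1 : 𝓞 F) ∈ L := by
      rw [h2]
      exact L.add_mem (L.mul_mem_right _ hL) (L.mul_mem_right _ hc)
    exact h.prime.ne_top ((Ideal.eq_top_iff_one L).2 h3)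
  constructor
  · intro hld
    have hcop : Nat.Coprime l m := by
      rw [hl.coprime_iff_not_dvd]
      rintro ⟨k, hk⟩
      obtain ⟨j, hj⟩ := hld
      have h1 : l * l ∣ a := ⟨j * k, by rw [hm, hj, hk]; ring⟩
      exact hl.one_lt.ne' (Nat.isUnit_iff.mp (ha l h1))
    have hmL := hcopL m hcop
    have hmL' : ((-(m : ℤ) : ℤ) : 𝓞 F) ∉ L := by
      intro hc
      apply hmL
      have := L.neg_mem hc
      push_cast at this ⊢
      rwa [neg_neg] at this
    obtain ⟨e, he⟩ : ∃ e : F, e = s / w := ⟨_, rfl⟩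
    have he1 : e * w = s := by
      rw [he]
      field_simp
    have he2 : e ^ 2 = ((-(m : ℤ) : ℤ) : F) := by
      have h1 : (e * w) ^ 2 = -(a : F) := by rw [he1, hs]
      have h2 : (e * w) ^ 2 = e ^ 2 * (d : F) := by
        rw [← hw]
        ring
      rw [h2, hm] at h1
      push_cast at h1 ⊢
      have h3 : (d : F) * (e ^ 2 + m) = 0 := by linear_combination h1
      rcases mul_eq_zero.mp h3 with h4 | h4
      · exact absurd h4 hdF
      · linear_combination h4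
    have hee := inert_sq h he2 hmL'
    have h5 := congrArg ι he1
    rw [map_mul, hee, hι, ← he1] at h5
    have he0 : e ≠ 0 := by
      rintro rfl
      rw [zero_mul] at he1
      exact hs0 he1.symm
    have h6 : e * (ι w + w) = 0 := by linear_combination h5
    rcases mul_eq_zero.mp h6 with h7 | h7
    · exact absurd h7 he0
    · linear_combination h7
  · intro hld
    have hcop : Nat.Coprime l d := (hl.coprime_iff_not_dvd).2 hld
    refine inert_sq h (n := (d : ℤ)) ?_ (hcopL d hcop)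
    rw [hw]
    push_cast
    rfl

end Pool.Agent.Work.MP_8efaaa_nt.N7
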