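import Mathlib
import Pool.Agent.Work.MP_8efaaa_nt.T.LatD
import Pool.Agent.Work.MP_8efaaa_nt.T.LatA
import Pool.Agent.Work.MP_8efaaa_nt.R.AInt
import Pool.Agent.Work.MP_8efaaa_nt.N7.Defs
import Pool.Agent.Work.MP_8efaaa_nt.N7.IBas

/-!
# N7/AFr (M): the chain of lattices `P^k c⁻¹`

`P = pr v`, `J = c⁻¹`, `M = P^5 J`, `w = 1`. PROOF. `32 ∈ P^5 ≤ P^5 J` (`2 ∈ P`, `1 ∈ J`); `16 ∈ P^5 c⁻¹` would give `16 y ∈ P^5` for `y ∈ c`, `y ∉ P`, but `v 16 = exp (-4)`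
(`T.dyadic`). `IsLat`: `T.isLat_lat`. `Ch M 1 k = M + ℤ 2^k`: descending induction on `k` (`k = 5`: `32 ∈ M`): `lat (P^(k+1) J)` has index two in `lat (P^k J)` (`T.two_lat`), and
`2^k` is in `P^k J`, not in `P^(k+1) J` (valuation as before), so `P^k J = P^(k+1) J + ℤ 2^k`, and `2^(k+1)` is a multiple of `2^k`.
-/

set_option autoImplicit false

namespace Pool.Agent.Work.MP_8efaaa_nt.N7

open IsDedekindDomain NumberField Pool.Agent.Work.MP_787500_nt.HC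
open Pool.Agent.Work.MP_8efaaa_nt.T Pool.Agent.Work.MP_8efaaa_nt.R
open scoped nonZeroDivisors

variable {K : Type*} [Field K] [NumberField K] [Algebra K ℂ] {a : ℕ} {s : K}
  {v : HeightOneSpectrum (𝓞 K)}

private theorem AFr_pow (v : HeightOneSpectrum (𝓞 K)) (k : ℕ) :
    ((pr v ^ k : Idl K) : FractionalIdeal (𝓞 K)⁰ K) =
      ((v.asIdeal ^ k : Ideal (𝓞 K)) : FractionalIdeal (𝓞 K)⁰ K) := by
  rw [Units.val_pow_eq_pow_val, FractionalIdeal.coeIdeal_pow]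
  rfl

private theorem AFr_mem {c : Ideal (𝓞 K)} (hc : c ≠ ⊥) (hv : (2 : 𝓞 K) ∈ v.asIdeal) (k : ℕ) :
    (2 : K) ^ k ∈ ((pr v ^ k * (idl c)⁻¹ : Idl K) : FractionalIdeal (𝓞 K)⁰ K) := by
  rw [mem_inv_idl hc]
  intro y _
  rw [AFr_pow, FractionalIdeal.mem_coeIdeal]
  refine ⟨2 ^ k * y, (v.asIdeal ^ k).mul_mem_right _ (Ideal.pow_mem_pow hv k), ?_⟩
  rw [map_mul, map_pow, map_ofNat]

private theorem AFr_nmem (h2 : v.valuation K (2 : K) = WithZero.exp (-1)) {c : Ideal (𝓞 K)}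
    (hc0 : c ≠ ⊥) (hc : ¬ c ≤ v.asIdeal) (k : ℕ) :
    (2 : K) ^ k ∉ ((pr v ^ (k + 1) * (idl c)⁻¹ : Idl K) : FractionalIdeal (𝓞 K)⁰ K) := by
  rw [mem_inv_idl hc0]
  intro h
  obtain ⟨y, hy, hyv⟩ := SetLike.not_le_iff_exists.1 hc
  have h1 := h y hy
  rw [AFr_pow, FractionalIdeal.mem_coeIdeal] at h1
  obtain ⟨z, hz, hzy⟩ := h1
  have h3 : z = 2 ^ k * y := by
    apply FaithfulSMul.algebraMap_injective (𝓞 K) K
    rw [hzy, map_mul, map_pow, map_ofNat]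
  rw [h3, ← v.intValuation_le_pow_iff_mem, map_mul, map_pow] at hz
  have h4 : v.intValuation (2 : 𝓞 K) = WithZero.exp (-1) := by
    have e : v.valuation K (algebraMap (𝓞 K) K 2) = v.intValuation 2 :=
      v.valuation_of_algebraMap (K := K) 2
    rw [map_ofNat (algebraMap (𝓞 K) K)] at e
    rw [← e, h2]
  have h5 : v.intValuation y = 1 := v.intValuation_eq_one_iff.2 hyv
  rw [h4, h5, mul_one, ← WithZero.exp_nsmul] at hz
  rw [WithZero.exp_le_exp] at hz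
  simp only [smul_eq_mul, nsmul_eq_mul] at hz
  push_cast at hz
  omega

private theorem AFr_coe {I : Idl K} {x : K} :
    algebraMap K ℂ x ∈ lat I ↔ x ∈ (I : FractionalIdeal (𝓞 K)⁰ K) := by
  rw [mem_lat]
  constructor
  · rintro ⟨y, hy, h⟩
    rwa [← (algebraMap K ℂ).injective h]
  · intro h
    exact ⟨x, h, rfl⟩

theorem fr_chain (hb : Base K a s) (hv : (2 : 𝓞 K) ∈ v.asIdeal) {c : Ideal (𝓞 K)}
    (hc : ¬ c ≤ v.asIdeal) : Fr (lat (pr v ^ 5 * (idl c)⁻¹)) 1 ∧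
      ∀ k ≤ 5, Ch (lat (pr v ^ 5 * (idl c)⁻¹)) 1 k = lat (pr v ^ k * (idl c)⁻¹) := by
  have hc0 : c ≠ ⊥ := by
    rintro rfl
    exact hc bot_le
  have h2 : v.valuation K (2 : K) = WithZero.exp (-1) :=
    (Qd.dyadic hb.dim hb.sq hb.sf hb.mod hv).2
  have hpow : ∀ k : ℕ, (2 : ℂ) ^ k = algebraMap K ℂ ((2 : K) ^ k) := by
    intro k
    rw [map_pow, map_ofNat]
  have hin : ∀ k : ℕ, (2 : ℂ) ^ k ∈ lat (pr v ^ k * (idl c)⁻¹ : Idl K) := by
    intro k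
    rw [hpow, AFr_coe]
    exact AFr_mem hc0 hv k
  have hnin : ∀ k : ℕ, (2 : ℂ) ^ k ∉ lat (pr v ^ (k + 1) * (idl c)⁻¹ : Idl K) := by
    intro k
    rw [hpow, AFr_coe]
    exact AFr_nmem h2 hc0 hc k
  have hfive : Ch (lat (pr v ^ 5 * (idl c)⁻¹ : Idl K)) 1 5 = lat (pr v ^ 5 * (idl c)⁻¹) := by
    unfold Ch
    rw [sup_eq_left, Submodule.span_singleton_le_iff_mem, mul_one]
    exact hin 5
  have hstep : ∀ k : ℕ, Ch (lat (pr v ^ 5 * (idl c)⁻¹ : Idl K)) 1 (k + 1) =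
      lat (pr v ^ (k + 1) * (idl c)⁻¹) →
      Ch (lat (pr v ^ 5 * (idl c)⁻¹ : Idl K)) 1 k = lat (pr v ^ k * (idl c)⁻¹) := by
    intro k hk
    rw [Ch_eq_sup, hk, mul_one]
    have ht := two_lat hb hv (pr v ^ (k + 1) * (idl c)⁻¹)
    have he : (pr v)⁻¹ * (pr v ^ (k + 1) * (idl c)⁻¹) = pr v ^ k * (idl c)⁻¹ := by
      rw [pow_succ' , mul_assoc, inv_mul_cancel_left]
    rw [he] at ht
    refine le_antisymm (sup_le ht.le ?_) ?_
    · rw [Submodule.span_singleton_le_iff_mem]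
      exact hin k
    · intro z hz
      obtain ⟨u, hu, hu', hz'⟩ := ht.ex
      rcases hz' z hz with h | h
      · exact Submodule.mem_sup_left h
      · rcases hz' _ (hin k) with h6 | h6
        · exact absurd h6 (hnin k)
        · have h7 : z = (z - u - (2 ^ k - u)) + 2 ^ k := by ring
          rw [h7]
          exact add_mem (Submodule.mem_sup_left (sub_mem h h6))
            (Submodule.mem_sup_right (Submodule.mem_span_singleton_self _))
  have h4 := hstep 4 hfive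
  have h3 := hstep 3 h4
  have h2' := hstep 2 h3
  have h1 := hstep 1 h2'
  have h0 := hstep 0 h1
  refine ⟨⟨isLat_lat hb _, ?_, ?_⟩, ?_⟩
  · have := hin 5
    norm_num at this ⊢
    exact this
  · have := hnin 4
    norm_num at this ⊢
    exact this
  · intro k hk
    interval_cases k
    · exact h0
    · exact h1
    · exact h2'
    · exact h3
    · exact h4
    · exact hfive

end Pool.Agent.Work.MP_8efaaa_nt.N7
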