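import Mathlib
import Pool.Agent.Work.MP_8efaaa_nt.T.CpxA
import Pool.Agent.Work.MP_8efaaa_nt.R.AInt
import Pool.Agent.Work.MP_8efaaa_nt.R.SD
import Pool.Agent.Work.MP_8efaaa_nt.R.CfF
import Pool.Agent.Work.MP_8efaaa_nt.N7.Defs
import Pool.Agent.Work.MP_8efaaa_nt.N7.AFr

/-!
# N7/AFv (M): the functions `fk`, `fv` of the chain are values of `W`

PROOF. `M = lat (P^5 J)`, `J = c⁻¹`, `w = 1`, `S_j = SS M 1 j`, `B_k = ev (Ch (k+1)) (Ch k) = eV v (P^(k+1) J)` (`fr_chain`), `k ≤ 4`.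
(1) `S_k ^ 2 = B_k + 2 B_(k+1)` (`cf_SS_sq`, `tj`), `k ≤ 3`. (2) `(S_(k-1) - S_k) ^ 2 = 2 B_k - 2 B_(k+1)` for `k = 1, 2, 3`: `SS_step`, `DD_sq`: it is `ev (Ch (k+1)) (Ch k) - ev (Ch (k+1)) D`, the sum of the three
values `ev` at `Ch (k+1)` is zero (`Tri.sum`), the third one is `H = B_k - S_k ^ 2` (`SS_sq`) `= -2 B_(k+1)` by (1), so `ev D = -B_k - H`. (3) Hence `B_(k-1) - B_k = S_(k-1)^2 - 3 B_k`
and `3 B_k = (S_(k-1) - S_k)^2 + S_k^2`, so `B_(k-1) - B_k = 2 S_k (S_(k-1) - S_k)`. (4) `sv (pr v) (eV v) (P^(k+1) J) = (B_(k-1) - B_k)/(2 (B_k + 2 B_(k+1))) = (S_(k-1) - S_k)/S_k`.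
(5) `wv (P^3 J) = sv (P^2 J) (1 + sv (P^3 J))/2 = ((S_0 - S_1)/S_1)(S_1/S_2)/2 = fv`, `wv (P^4 J) = ((S_1 - S_2)/S_2)(S_2/S_3)/2 = fk`. `SS_ne` for the denominators.
-/

set_option autoImplicit false

namespace Pool.Agent.Work.MP_8efaaa_nt.N7

open IsDedekindDomain NumberField Pool.Agent.Work.MP_787500_nt.HC
open Pool.Agent.Work.MP_8efaaa_nt.T Pool.Agent.Work.MP_8efaaa_nt.R
open scoped nonZeroDivisors
open Pool.Agent.Work.CM (ev)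

variable {K : Type*} [Field K] [NumberField K] [Algebra K ℂ] {a : ℕ} {s : K}
  {v : HeightOneSpectrum (𝓞 K)}

private theorem bdiff {M : Submodule ℤ ℂ} {w : ℂ} (h : Fr M w) {j : ℕ} (hj : j < 3) :
    ev (Ch M w (j + 1)) (Ch M w j) - ev (Ch M w (j + 2)) (Ch M w (j + 1)) =
      2 * SS M w (j + 1) * (SS M w j - SS M w (j + 1)) := by
  obtain ⟨D, hT⟩ := chain_tri h (k := j + 1) (by omega)
  have h1 := SS_sq h (k := j + 1) (by omega) hT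
  have h2 := DD_sq h (k := j + 1) (by omega) hT
  rw [SS_step h hj hT] at h2
  have h3 := hT.sum
  have h5 := cf_SS_sq h (j := j) (by omega)
  unfold tj at h5
  linear_combination h1 + h2 - h3 - h5

private theorem svE {v : HeightOneSpectrum (𝓞 K)} {J : Idl K}
    (hF : Fr (lat (pr v ^ 5 * J)) 1)
    (hC : ∀ k ≤ 5, Ch (lat (pr v ^ 5 * J)) 1 k = lat (pr v ^ k * J)) {j : ℕ} (hj : j < 3) :
    sv (pr v) (eV v) (pr v ^ (j + 2) * J) =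
      (SS (lat (pr v ^ 5 * J)) 1 j - SS (lat (pr v ^ 5 * J)) 1 (j + 1)) /
        SS (lat (pr v ^ 5 * J)) 1 (j + 1) := by
  have hE : ∀ k, k < 5 → eV v (pr v ^ (k + 1) * J) =
      ev (Ch (lat (pr v ^ 5 * J)) 1 (k + 1)) (Ch (lat (pr v ^ 5 * J)) 1 k) := by
    intro k hk
    unfold eV
    rw [hC (k + 1) (by omega), hC k (by omega), pow_succ', mul_assoc, inv_mul_cancel_left]
  have hne := SS_ne hF (j := j + 1) (by omega)
  have e1 : (pr v)⁻¹ * (pr v ^ (j + 2) * J) = pr v ^ (j + 1) * J := by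
    rw [pow_succ', mul_assoc, inv_mul_cancel_left]
  have e2 : pr v * (pr v ^ (j + 2) * J) = pr v ^ (j + 2 + 1) * J := by
    rw [pow_succ' _ (j + 2), mul_assoc]
  have h1 := bdiff hF hj
  have h2 := cf_SS_sq hF (j := j + 1) (by omega)
  unfold tj at h2
  unfold sv
  rw [e1, e2, hE j (by omega), hE (j + 1) (by omega), hE (j + 2) (by omega)]
  have h3 : ev (Ch (lat (pr v ^ 5 * J)) 1 (j + 1 + 1)) (Ch (lat (pr v ^ 5 * J)) 1 (j + 1)) +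
      2 * ev (Ch (lat (pr v ^ 5 * J)) 1 (j + 2 + 1)) (Ch (lat (pr v ^ 5 * J)) 1 (j + 2)) =
      SS (lat (pr v ^ 5 * J)) 1 (j + 1) ^ 2 := h2.symm
  have h4 : ev (Ch (lat (pr v ^ 5 * J)) 1 (j + 1)) (Ch (lat (pr v ^ 5 * J)) 1 j) -
      ev (Ch (lat (pr v ^ 5 * J)) 1 (j + 1 + 1)) (Ch (lat (pr v ^ 5 * J)) 1 (j + 1)) =
      2 * SS (lat (pr v ^ 5 * J)) 1 (j + 1) *
        (SS (lat (pr v ^ 5 * J)) 1 j - SS (lat (pr v ^ 5 * J)) 1 (j + 1)) := h1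
  rw [h3, h4]
  field_simp

theorem f_wv (hb : Base K a s) (hv : (2 : 𝓞 K) ∈ v.asIdeal) {c : Ideal (𝓞 K)}
    (hc : ¬ c ≤ v.asIdeal) :
    fk (lat (pr v ^ 5 * (idl c)⁻¹)) 1 = wv (pr v) (eV v) (pr v ^ 4 * (idl c)⁻¹) ∧
      fv (lat (pr v ^ 5 * (idl c)⁻¹)) 1 = wv (pr v) (eV v) (pr v ^ 3 * (idl c)⁻¹) := by
  obtain ⟨hF, hC⟩ := fr_chain hb hv hc
  have s0 := svE hF hC (j := 0) (by norm_num)
  have s1 := svE hF hC (j := 1) (by norm_num)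
  have s2 := svE hF hC (j := 2) (by norm_num)
  have n1 := SS_ne hF (j := 1) (by norm_num)
  have n2 := SS_ne hF (j := 2) (by norm_num)
  have n3 := SS_ne hF (j := 3) (by norm_num)
  norm_num at s0 s1 s2
  have e4 : (pr v)⁻¹ * (pr v ^ 4 * (idl c)⁻¹) = pr v ^ 3 * (idl c)⁻¹ := by
    rw [pow_succ', mul_assoc, inv_mul_cancel_left]
  have e3 : (pr v)⁻¹ * (pr v ^ 3 * (idl c)⁻¹) = pr v ^ 2 * (idl c)⁻¹ := by
    rw [pow_succ', mul_assoc, inv_mul_cancel_left]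
  constructor
  · unfold wv fk
    rw [e4, s1, s2]
    field_simp
    ring
  · unfold wv fv
    rw [e3, s0, s1]
    field_simp
    ring

end Pool.Agent.Work.MP_8efaaa_nt.N7
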