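import Mathlib
import Pool.Agent.Work.MP_8efaaa_nt.N5.BCjA
import Pool.Agent.Work.MP_8efaaa_nt.N7.AFv
import Pool.Agent.Work.MP_8efaaa_nt.N7.ICj

/-!
# N7/ACj (M): complex conjugation of the values

PROOF. `C = cl (pr v ^ 3 * (idl c)⁻¹)` with `c` integral, prime to `2` (`exists_rep`). `W C = fv (lat (pr v ^ 5 * (idl c)⁻¹)) 1` (`f_wv`), its complex conjugate is `fv (cjL ..) 1` (`conj_f`).
`cjL (lat (pr v ^ 5 * (idl c)⁻¹)) = lat (pr v' ^ 5 * (idl (c.map τ))⁻¹)` with `τ` of `exists_tau`: `z ∈ lat (I * (idl c)⁻¹)` iff `z * y ∈ lat I` for all `y ∈ c` (`mem_inv_idl`), and complex conjugation maps the image of `v^5` onto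
that of `v'^5`. So it is `wv (pr v') (eV v') (pr v' ^ 3 * (idl (c.map τ))⁻¹)` (`f_wv` for `v'`; `c.map τ` is prime to `v'`), `W'` of a class inverse to `C`.
-/

set_option autoImplicit false

namespace Pool.Agent.Work.MP_8efaaa_nt.N7

open IsDedekindDomain NumberField Pool.Agent.Work.MP_787500_nt.HC
open Pool.Agent.Work.MP_8efaaa_nt.T Pool.Agent.Work.MP_8efaaa_nt.R
open scoped nonZeroDivisors

variable {K : Type*} [Field K] [NumberField K] [Algebra K ℂ] {a : ℕ} {s : K}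
  {v v' : HeightOneSpectrum (𝓞 K)} {W W' : ClassGroup (𝓞 K) → ℂ}

private theorem acj_ne {c : Ideal (𝓞 K)} {v : HeightOneSpectrum (𝓞 K)}
    (hv : (2 : 𝓞 K) ∈ v.asIdeal) (hc : Nat.Coprime (Ideal.absNorm c) 2) : ¬ c ≤ v.asIdeal := by
  intro h
  have h1 : ((Ideal.absNorm c : ℕ) : 𝓞 K) ∈ v.asIdeal := h (Ideal.absNorm_mem c)
  have h2 : IsCoprime ((Ideal.absNorm c : ℕ) : ℤ) ((2 : ℕ) : ℤ) := Nat.isCoprime_iff_coprime.2 hc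
  obtain ⟨x, y, hxy⟩ := h2
  have h3 : ((x : ℤ) : 𝓞 K) * ((Ideal.absNorm c : ℕ) : 𝓞 K) + ((y : ℤ) : 𝓞 K) * 2 = 1 := by
    have := congrArg (Int.cast : ℤ → 𝓞 K) hxy
    push_cast at this
    exact this
  refine v.isPrime.ne_top ((Ideal.eq_top_iff_one _).2 ?_)
  rw [← h3]
  exact v.asIdeal.add_mem (v.asIdeal.mul_mem_left _ h1) (v.asIdeal.mul_mem_left _ hv)

private theorem acj_pow (v : HeightOneSpectrum (𝓞 K)) (n : ℕ) (x : K) :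
    x ∈ ((pr v ^ n : Idl K) : FractionalIdeal (𝓞 K)⁰ K) ↔
      ∃ u ∈ v.asIdeal ^ n, algebraMap (𝓞 K) K u = x := by
  rw [Units.val_pow_eq_pow_val]
  unfold pr
  rw [Units.val_mk0, ← FractionalIdeal.coeIdeal_pow]
  exact FractionalIdeal.mem_coeIdeal _

private theorem acj_mem {τ : 𝓞 K ≃+* 𝓞 K}
    (hτ : ∀ x : 𝓞 K, (starRingEnd ℂ) (algebraMap K ℂ (algebraMap (𝓞 K) K x)) =
      algebraMap K ℂ (algebraMap (𝓞 K) K (τ x))) {c : Ideal (𝓞 K)} (hc : c ≠ ⊥)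
    (hc' : c.map (τ : 𝓞 K →+* 𝓞 K) ≠ ⊥)
    (hv : v.asIdeal.map (τ : 𝓞 K →+* 𝓞 K) = v'.asIdeal) {x x' : K}
    (hx : x ∈ ((pr v ^ 5 * (idl c)⁻¹ : Idl K) : FractionalIdeal (𝓞 K)⁰ K))
    (hxx : algebraMap K ℂ x' = (starRingEnd ℂ) (algebraMap K ℂ x)) :
    x' ∈ ((pr v' ^ 5 * (idl (c.map (τ : 𝓞 K →+* 𝓞 K)))⁻¹ : Idl K) :
      FractionalIdeal (𝓞 K)⁰ K) := by
  rw [mem_inv_idl hc']
  intro y' hy'
  obtain ⟨y, hy, rfl⟩ := (Ideal.mem_map_iff_of_surjective (τ : 𝓞 K →+* 𝓞 K) τ.surjective).1 hy'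
  have h1 := (mem_inv_idl hc _ x).1 hx y hy
  rw [acj_pow] at h1 ⊢
  obtain ⟨u, hu, hu2⟩ := h1
  refine ⟨τ u, ?_, ?_⟩
  · rw [← hv, ← Ideal.map_pow]
    exact Ideal.mem_map_of_mem (τ : 𝓞 K →+* 𝓞 K) hu
  · apply (algebraMap K ℂ).injective
    rw [← hτ, hu2, map_mul, map_mul, map_mul, hxx, hτ]
    rfl

private theorem acj_ex {τ : 𝓞 K ≃+* 𝓞 K}
    (hτ : ∀ x : 𝓞 K, (starRingEnd ℂ) (algebraMap K ℂ (algebraMap (𝓞 K) K x)) =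
      algebraMap K ℂ (algebraMap (𝓞 K) K (τ x))) (x : K) :
    ∃ x' : K, algebraMap K ℂ x' = (starRingEnd ℂ) (algebraMap K ℂ x) := by
  obtain ⟨n, d, hd, rfl⟩ := IsFractionRing.div_surjective (A := 𝓞 K) x
  refine ⟨algebraMap (𝓞 K) K (τ n) / algebraMap (𝓞 K) K (τ d), ?_⟩
  rw [map_div₀, map_div₀, map_div₀, hτ, hτ]

private theorem acj_lat {τ : 𝓞 K ≃+* 𝓞 K} (hττ : ∀ x, τ (τ x) = x)
    (hτ : ∀ x : 𝓞 K, (starRingEnd ℂ) (algebraMap K ℂ (algebraMap (𝓞 K) K x)) =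
      algebraMap K ℂ (algebraMap (𝓞 K) K (τ x))) {c : Ideal (𝓞 K)} (hc : c ≠ ⊥)
    (hc' : c.map (τ : 𝓞 K →+* 𝓞 K) ≠ ⊥)
    (hv : v.asIdeal.map (τ : 𝓞 K →+* 𝓞 K) = v'.asIdeal)
    (hv' : v'.asIdeal.map (τ : 𝓞 K →+* 𝓞 K) = v.asIdeal) :
    N5.cjL (lat (pr v ^ 5 * (idl c)⁻¹)) =
      lat (pr v' ^ 5 * (idl (c.map (τ : 𝓞 K →+* 𝓞 K)))⁻¹) := by
  have hcc : (c.map (τ : 𝓞 K →+* 𝓞 K)).map (τ : 𝓞 K →+* 𝓞 K) = c := by
    rw [Ideal.map_map]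
    have : (τ : 𝓞 K →+* 𝓞 K).comp (τ : 𝓞 K →+* 𝓞 K) = RingHom.id _ := by
      ext x
      simp [hττ]
    rw [this, Ideal.map_id]
  ext z
  rw [N5.mem_cjL, mem_lat, mem_lat]
  constructor
  · rintro ⟨x, hx, hz⟩
    obtain ⟨x', hx'⟩ := acj_ex hτ x
    refine ⟨x', acj_mem hτ hc hc' hv hx hx', ?_⟩
    rw [hx', hz, Complex.conj_conj]
  · rintro ⟨x, hx, hz⟩
    obtain ⟨x', hx'⟩ := acj_ex hτ x
    refine ⟨x', ?_, by rw [hx', hz]⟩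
    have h1 := acj_mem (v := v') (v' := v) hτ hc' (by rw [hcc]; exact hc) hv' hx hx'
    rw [hcc] at h1
    exact h1

private theorem acj_main (hb : Base K a s) (h : CW K v v' W W') (C : ClassGroup (𝓞 K)) :
    (starRingEnd ℂ) (W C) = W' C⁻¹ := by
  obtain ⟨τ, hττ, -, hτ, -, hcl, hmap⟩ := exists_tau hb
  obtain ⟨c, hc, hN, hcC⟩ := exists_rep (K := K) (N := 2) two_ne_zero (cl (pr v) ^ 3 * C⁻¹)
  have hτ' : ∀ x : 𝓞 K, (starRingEnd ℂ) (algebraMap K ℂ (algebraMap (𝓞 K) K x)) =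
      algebraMap K ℂ (algebraMap (𝓞 K) K (τ x)) := hτ
  have hc' : c.map (τ : 𝓞 K →+* 𝓞 K) ≠ ⊥ := by
    intro h0
    refine hc ?_
    exact (Ideal.map_eq_bot_iff_of_injective (f := (τ : 𝓞 K →+* 𝓞 K)) τ.injective).1 h0
  have hv1 := hmap v v' h.ne h.hv h.hv'
  have hv2 := hmap v' v h.ne.symm h.hv' h.hv
  have n1 : ¬ c ≤ v.asIdeal := acj_ne h.hv hN
  have n2 : ¬ c.map (τ : 𝓞 K →+* 𝓞 K) ≤ v'.asIdeal := by
    intro h0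
    refine n1 ?_
    rw [← hv1] at h0
    intro x hx
    have h1 := h0 (Ideal.mem_map_of_mem (τ : 𝓞 K →+* 𝓞 K) hx)
    obtain ⟨y, hy, hxy⟩ :=
      (Ideal.mem_map_iff_of_surjective (τ : 𝓞 K →+* 𝓞 K) τ.surjective).1 h1
    have : y = x := τ.injective hxy
    rwa [this] at hy
  have e1 : W C = fv (lat (pr v ^ 5 * (idl c)⁻¹)) 1 := by
    rw [(f_wv hb h.hv n1).2, ← h.hW]
    congr 1
    rw [cl_mul, cl_pow, cl_inv, hcC, mul_inv, inv_inv, ← mul_assoc, mul_inv_cancel, one_mul]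
  have e2 : W' C⁻¹ = fv (lat (pr v' ^ 5 * (idl (c.map (τ : 𝓞 K →+* 𝓞 K)))⁻¹)) 1 := by
    rw [(f_wv hb h.hv' n2).2, ← h.hW']
    congr 1
    have hm : cl (pr v) * cl (pr v') = 1 := by
      rw [← cl_mul, h.mul]
      have := (cl_eq_iff (I := (1 : Idl K)) (J := prin (Units.mk0 (2 : K) two_ne_zero))).2
        ⟨Units.mk0 (2 : K) two_ne_zero, by rw [mul_one]⟩
      rw [← this, cl_one]
    rw [cl_mul, cl_pow, cl_inv, hcl c hc, hcC, inv_inv]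
    calc C⁻¹ = (cl (pr v) * cl (pr v')) ^ 3 * C⁻¹ := by rw [hm, one_pow, one_mul]
      _ = cl (pr v') ^ 3 * (cl (pr v) ^ 3 * C⁻¹) := by
        rw [mul_pow, mul_comm (cl (pr v) ^ 3), mul_assoc]
  rw [e1, e2, (N5.conj_f (fr_chain hb h.hv n1).1).2.2.2, acj_lat hττ hτ' hc hc' hv1 hv2, map_one]

theorem conj_W (hb : Base K a s) (h : CW K v v' W W') (C : ClassGroup (𝓞 K)) :
    (starRingEnd ℂ) (W C) = W' C⁻¹ ∧ (starRingEnd ℂ) (W' C) = W C⁻¹ := by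
  refine ⟨acj_main hb h C, ?_⟩
  have h' : CW K v' v W' W := ⟨h.ne.symm, h.hv', h.hv, by rw [mul_comm]; exact h.mul, h.hW', h.hW⟩
  exact acj_main hb h' C

end Pool.Agent.Work.MP_8efaaa_nt.N7
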