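import Mathlib
import Pool.Agent.Work.MP_8efaaa_nt.T.CpxA
import Pool.Agent.Work.MP_8efaaa_nt.N7.Defs

/-!
# N7/ARec (S-M): a third relation of the functions `W`, `W'`

PROOF. `V = vals ..`, `p = pr v`, `E = eV v`, `E' = eV v'`, `c = cl I`, `E₋ = E (p⁻¹ I)`. `W c ^ 2 = sv p E I = (E₋ - E)/(2 (E - E'))` (`wv_sq`; `E + 2 E (p I) = E - E'` by `V.back`).
`W' (p⁻¹ c) ^ 2 = sv p' E' (p⁻¹ I)`; its numerator is `E' (p'⁻¹ p⁻¹ I) - E' (p⁻¹ I)`, and `p'⁻¹ p⁻¹ = (2)⁻¹`, so `E' (p'⁻¹ p⁻¹ I) = 4 E' I` (`eV_prin`), `E' (p⁻¹ I) = -2 E I` (`V.back`);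
its denominator is `2 (E' (p⁻¹ I) + 2 E' (p' p⁻¹ I)) = 2 (E' (p⁻¹ I) - E (p⁻¹ I)) = 2 (-2 E - E₋)` (`V.back'`). So `1 + W' ^ 2 = (E + E₋ - 2 E')/(2 E + E₋)` and
`1 + W ^ 2 = (E₋ + E - 2 E')/(2 (E - E'))`; the product is `2` by `V.step` : `(E₋ - E) ^ 2 = 8 (E + 2 E (p I)) (E - E (p I)) = 4 (E - E') (2 E + E')`. The denominators are not zero (`V.ne`, at `I` and `p⁻¹ I`).
-/

set_option autoImplicit false

namespace Pool.Agent.Work.MP_8efaaa_nt.N7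

open IsDedekindDomain NumberField Pool.Agent.Work.MP_787500_nt.HC
open Pool.Agent.Work.MP_8efaaa_nt.T
open scoped nonZeroDivisors

variable {K : Type*} [Field K] [NumberField K] [Algebra K ℂ] {a : ℕ} {s : K}
  {v v' : HeightOneSpectrum (𝓞 K)} {W W' : ClassGroup (𝓞 K) → ℂ}

theorem rec3_complex (hb : Base K a s) (h : CW K v v' W W') (c : ClassGroup (𝓞 K)) :
    (1 + W c ^ 2) * (1 + W' (cl (pr v)⁻¹ * c) ^ 2) = 2 := by
  have V := vals hb h.ne h.hv h.hv' h.mul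
  obtain ⟨I, rfl⟩ := cl_surjective c
  rw [← cl_mul, h.hW, h.hW', wv_sq V, wv_sq V.symm]
  have h1 : (pr v')⁻¹ * ((pr v)⁻¹ * I) = prin (Units.mk0 (2 : K) two_ne_zero)⁻¹ * I := by
    have h5 : prin (Units.mk0 (2 : K) two_ne_zero)⁻¹ =
      (prin (Units.mk0 (2 : K) two_ne_zero))⁻¹ := map_inv _ _
    rw [h5, ← h.mul, mul_inv_rev, mul_assoc]
  have e1 : eV v' ((pr v')⁻¹ * ((pr v)⁻¹ * I)) = 4 * eV v' I := by
    rw [h1, eV_prin hb h.hv', Units.val_inv_eq_inv_val, Units.val_mk0, map_inv₀, map_ofNat]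
    norm_num
  have e2 : eV v' ((pr v)⁻¹ * I) = -2 * eV v I := by
    rw [V.back, mul_inv_cancel_left]
  have e3 := V.back' ((pr v)⁻¹ * I)
  have e4 := V.back I
  have e5 := V.step I
  have n1 := V.ne I
  have n2 := V.ne ((pr v)⁻¹ * I)
  rw [e2] at n2
  unfold sv
  rw [e1, e2]
  generalize eV v' (pr v' * ((pr v)⁻¹ * I)) = X at *
  generalize eV v ((pr v)⁻¹ * I) = Em at *
  generalize eV v (pr v * I) = Y at *
  generalize eV v I = E at *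
  generalize eV v' I = E' at *
  subst e3
  subst e4
  have d1 : E + 2 * Y ≠ 0 := fun h0 => n1 (by linear_combination h0)
  have d2 : -E + X ≠ 0 := fun h0 => n2 (by linear_combination -2 * h0)
  field_simp
  linear_combination -e5

end Pool.Agent.Work.MP_8efaaa_nt.N7
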