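import Mathlib
import Pool.Agent.Work.MP_8efaaa_nt.R.DFrob
import Pool.Agent.Work.MP_8efaaa_nt.T.CpxA
import Pool.Agent.Work.MP_8efaaa_nt.N5.CFrb
import Pool.Agent.Work.MP_8efaaa_nt.N7.AKr

/-!
# N7/CFrb (M): the Frobenius elements

PROOF. As `frob_act` (R/DFrob.lean) and `frob_mact` (N5/CFrb.lean, also for `w`). `T` = the finite set of the values `W C`, `W' C`; `S` = `T`, the elements `1 + t ^ 2`, `1 - t ^ 2` (`t ∈ T`), all `σ t - t'`. `N` = product of `2 a d` and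
the numbers of `good_val`, `frb_val`. `1 + W C ^ 2 ≠ 0`, `1 - W C ^ 2 ≠ 0` (`W C ^ 4 + W' C ^ 4 = 1`, `W' C ≠ 0`), the same for `W'`: `wdata_complex`. `w_kron` for `v`, `W` and for `v'`, `W'` gives the congruences.
-/

set_option autoImplicit false

namespace Pool.Agent.Work.MP_8efaaa_nt.N7

open IsDedekindDomain NumberField Pool.Agent.Work.MP_787500_nt.HC
open Pool.Agent.Work.MP_8efaaa_nt.T Pool.Agent.Work.MP_8efaaa_nt.R
open scoped nonZeroDivisors

universe u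

variable {K : Type u} {F : Type*} [Field K] [NumberField K] [Algebra K ℂ] [Field F] [NumberField F]
  [Algebra K F] [Algebra F ℂ] [IsScalarTower K F ℂ] [IsGalois K F] {a d : ℕ} {s : K}
  {v v' : HeightOneSpectrum (𝓞 K)} {w : F} {W W' : ClassGroup (𝓞 K) → F}

omit [NumberField K] [Algebra K ℂ] [NumberField F] [Algebra K F] [Algebra F ℂ]
  [IsScalarTower K F ℂ] [IsGalois K F] in
private theorem cfrb_pow7 {l : ℕ} (hl : l.Prime) (hl2 : l ≠ 2) {d : ℕ} {w : F}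
    (hw : w ^ 2 = (d : F)) : ∃ m : ℤ, w ^ l - (jacobiSym d l : ℤ) * w = (l : F) * (m : F) * w := by
  have : Fact l.Prime := ⟨hl⟩
  have h1 := legendreSym.eq_pow l (d : ℤ)
  rw [jacobiSym.legendreSym.to_jacobiSym] at h1
  have h2 : ((jacobiSym (d : ℤ) l : ℤ) : ZMod l) = (((d : ℤ) ^ (l / 2) : ℤ) : ZMod l) := by
    rw [h1]
    push_cast
    rfl
  rw [ZMod.intCast_eq_intCast_iff_dvd_sub] at h2
  obtain ⟨m, hm⟩ := h2
  refine ⟨m, ?_⟩
  have h3 : l = 2 * (l / 2) + 1 := by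
    have := (hl.eq_two_or_odd.resolve_left hl2)
    omega
  have h4 : w ^ l = (d : F) ^ (l / 2) * w := by
    conv_lhs => rw [h3]
    rw [pow_succ, pow_mul, hw]
  have h5 : ((d : F) ^ (l / 2)) - ((jacobiSym (d : ℤ) l : ℤ) : F) = (l : F) * (m : F) := by
    have h6 := congrArg (fun x : ℤ => (x : F)) hm
    push_cast at h6
    exact h6
  rw [h4, ← h5]
  ring

omit [NumberField K] [Algebra K ℂ] [NumberField F] [Algebra K F] [Algebra F ℂ]
  [IsScalarTower K F ℂ] [IsGalois K F] in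
private theorem cfrb_ne {x y : F} (h : x ^ 4 + y ^ 4 = 1) (hy : y ≠ 0) :
    1 + x ^ 2 ≠ 0 ∧ 1 - x ^ 2 ≠ 0 := by
  have h1 : (1 + x ^ 2) * (1 - x ^ 2) = y ^ 4 := by
    linear_combination (-1 : F) * h
  have h2 : (1 + x ^ 2) * (1 - x ^ 2) ≠ 0 := by
    rw [h1]
    exact pow_ne_zero _ hy
  exact ⟨left_ne_zero_of_mul h2, right_ne_zero_of_mul h2⟩

theorem frob_mact7 (hb : Base K a s) (h : ICtx7 K F v v' d w W W') (hd : d ≠ 0) :
    ∃ N : ℕ, N ≠ 0 ∧ 2 ∣ N ∧ a ∣ N ∧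
    ∀ (l : ℕ) (Q : Ideal (𝓞 F)) (σ : F ≃ₐ[K] F), l.Prime → ¬ l ∣ N → Q.IsPrime →
      Ideal.absNorm (Q.comap (algebraMap (𝓞 K) (𝓞 F))) = l → Frb σ Q l →
      MAct7 d w W W' σ (Q.comap (algebraMap (𝓞 K) (𝓞 F))) := by
  classical
  have hfd : FiniteDimensional K F := FiniteDimensional.right ℚ K F
  have hfin : Finite (F ≃ₐ[K] F) := inferInstance
  have := Fintype.ofFinite (F ≃ₐ[K] F)
  have hinj : Function.Injective (algebraMap F ℂ) := (algebraMap F ℂ).injective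
  have hrel := wdata_complex (W := fun C => algebraMap F ℂ (W C))
    (W' := fun C => algebraMap F ℂ (W' C)) hb h.cw.ne h.cw.hv h.cw.hv' h.cw.mul h.cw.hW h.cw.hW'
  -- the values
  set T : Finset F := (Finset.univ : Finset (ClassGroup (𝓞 K))).image W ∪
    (Finset.univ : Finset (ClassGroup (𝓞 K))).image W' with hT
  have tW : ∀ C, W C ∈ T := fun C =>
    Finset.mem_union_left _ (Finset.mem_image_of_mem W (Finset.mem_univ C))
  have tW' : ∀ C, W' C ∈ T := fun C =>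
    Finset.mem_union_right _ (Finset.mem_image_of_mem W' (Finset.mem_univ C))
  have four : ∀ C, W C ^ 4 + W' C ^ 4 = 1 := by
    intro C
    apply hinj
    rw [map_add, map_pow, map_pow, map_one]
    exact hrel.four C
  have ne1 : ∀ C, W C ≠ 0 := fun C e => hrel.ne C (by
    show algebraMap F ℂ (W C) = 0
    rw [e, map_zero])
  have ne2 : ∀ C, W' C ≠ 0 := fun C e => hrel.ne' C (by
    show algebraMap F ℂ (W' C) = 0
    rw [e, map_zero])
  set S : Finset F := ((((T ∪ T.image (fun t => 1 + t ^ 2)) ∪ T.image (fun t => 1 - t ^ 2)) ∪ {w}) ∪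
    ((Finset.univ : Finset (F ≃ₐ[K] F)) ×ˢ (T ×ˢ T)).image (fun p => p.1 p.2.1 - p.2.2)) ∪
    ((Finset.univ : Finset (F ≃ₐ[K] F)) ×ˢ ({1, -1, 0} : Finset ℤ)).image
      (fun p => p.1 w - (p.2 : F) * w) with hS
  have s2 : ∀ t ∈ T, 1 + t ^ 2 ∈ S := fun t ht =>
    Finset.mem_union_left _ (Finset.mem_union_left _ (Finset.mem_union_left _
      (Finset.mem_union_left _ (Finset.mem_union_right _
        (Finset.mem_image_of_mem (fun t => 1 + t ^ 2) ht)))))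
  have s2' : ∀ t ∈ T, 1 - t ^ 2 ∈ S := fun t ht =>
    Finset.mem_union_left _ (Finset.mem_union_left _ (Finset.mem_union_left _
      (Finset.mem_union_right _ (Finset.mem_image_of_mem (fun t => 1 - t ^ 2) ht))))
  have sw : w ∈ S := Finset.mem_union_left _ (Finset.mem_union_left _
    (Finset.mem_union_right _ (Finset.mem_singleton_self w)))
  have s3 : ∀ (σ : F ≃ₐ[K] F), ∀ t ∈ T, ∀ t' ∈ T, σ t - t' ∈ S := fun σ t ht t' ht' =>
    Finset.mem_union_left _ (Finset.mem_union_right _ (Finset.mem_image.2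
      ⟨(σ, t, t'), by simp [ht, ht'], rfl⟩))
  have s4 : ∀ (σ : F ≃ₐ[K] F) (j : ℤ), j ∈ ({1, -1, 0} : Finset ℤ) → σ w - (j : F) * w ∈ S :=
    fun σ j hj => Finset.mem_union_right _ (Finset.mem_image.2
      ⟨(σ, j), Finset.mem_product.2 ⟨Finset.mem_univ _, hj⟩, rfl⟩)
  obtain ⟨N1, hN1, hg⟩ := good_val S
  obtain ⟨N2, hN2, hf⟩ := frb_val (K := K) (insert w T)
  have ha0 : a ≠ 0 := by
    have := hb.mod
    omega
  refine ⟨2 * a * N1 * N2, by positivity, ⟨a * N1 * N2, by ring⟩,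
    ⟨2 * N1 * N2, by ring⟩, ?_⟩
  intro l Q σ hl hlN hQ hql hσ
  have hl2 : l ≠ 2 := fun e => hlN (e ▸ ⟨a * N1 * N2, by ring⟩)
  have hla : ¬ l ∣ a := fun e => hlN (e.trans ⟨2 * N1 * N2, by ring⟩)
  have hl1 : ¬ l ∣ N1 := fun e => hlN (e.trans ⟨2 * a * N2, by ring⟩)
  have hl3 : ¬ l ∣ N2 := fun e => hlN (e.trans ⟨2 * a * N1, by ring⟩)
  obtain ⟨Γ, hΓ, V, hV1, hV2⟩ := exists_val Q hQ
  set q : Ideal (𝓞 K) := Q.comap (algebraMap (𝓞 K) (𝓞 F)) with hq
  have hqp : q.IsPrime := Ideal.IsPrime.comap _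
  have hlQ : (l : 𝓞 F) ∈ Q := by
    have h1 : ((Ideal.absNorm q : ℕ) : 𝓞 K) ∈ q := Ideal.absNorm_mem q
    rw [hql, hq, Ideal.mem_comap, map_natCast] at h1
    exact h1
  set V' : Valuation F Γ := V.comap (algebraMap F ℂ) with hV'
  have v1 : ∀ x : 𝓞 F, V' (algebraMap (𝓞 F) F x) ≤ 1 := hV1
  have v2 : ∀ x : 𝓞 F, V' (algebraMap (𝓞 F) F x) < 1 ↔ x ∈ Q := hV2
  have vl : V' (l : F) < 1 := by
    have h1 := (v2 (l : 𝓞 F)).2 hlQ
    rwa [map_natCast] at h1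
  have hgood := hg Γ V' l hl hl1 v1 vl
  have hfrob := hf Γ V' l Q σ hl hl3 v1 v2 vl hσ
  have htower : ∀ x : 𝓞 K, algebraMap K ℂ (algebraMap (𝓞 K) K x) =
      algebraMap F ℂ (algebraMap (𝓞 F) F (algebraMap (𝓞 K) (𝓞 F) x)) := by
    intro x
    rw [IsScalarTower.algebraMap_apply K F ℂ, ← IsScalarTower.algebraMap_apply (𝓞 K) (𝓞 F) F,
      ← IsScalarTower.algebraMap_apply (𝓞 K) K F]
  have hgen : ∀ t ∈ T, (1 + t ^ 2 ≠ 0 ∧ 1 - t ^ 2 ≠ 0) →
      V (1 + algebraMap F ℂ t ^ 2) = 1 ∧ V (1 - algebraMap F ℂ t ^ 2) = 1 := by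
    intro t ht hne
    have e1 : algebraMap F ℂ (1 + t ^ 2) = 1 + algebraMap F ℂ t ^ 2 := by
      rw [map_add, map_one, map_pow]
    have e2 : algebraMap F ℂ (1 - t ^ 2) = 1 - algebraMap F ℂ t ^ 2 := by
      rw [map_sub, map_one, map_pow]
    rw [← e1, ← e2]
    exact ⟨(hgood _ (s2 t ht)).2 hne.1, (hgood _ (s2' t ht)).2 hne.2⟩
  have hgoodW : ∀ C, V (1 + algebraMap F ℂ (W C) ^ 2) = 1 ∧
      V (1 - algebraMap F ℂ (W C) ^ 2) = 1 := fun C =>
    hgen _ (tW C) (cfrb_ne (four C) (ne2 C))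
  have hgoodW' : ∀ C, V (1 + algebraMap F ℂ (W' C) ^ 2) = 1 ∧
      V (1 - algebraMap F ℂ (W' C) ^ 2) = 1 := fun C =>
    hgen _ (tW' C) (cfrb_ne ((add_comm _ _).trans (four C)) (ne1 C))
  -- a difference in `S` of value less than one is zero
  have hzero : ∀ x y : F, x - y ∈ S → ∀ u : F, V' (x - u) < 1 → V' (y - u) < 1 → x = y := by
    intro x y hxy u h1 h2
    by_contra hne'
    have h3 := (hgood _ hxy).2 (sub_ne_zero.2 hne')
    have h4 : V' (x - y) < 1 := by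
      have : x - y = (x - u) - (y - u) := by ring
      rw [this]
      exact V'.map_sub_lt h1 h2
    exact absurd h3 h4.ne
  have e0 : ∀ x y : F, V' (x - y ^ l) = V (algebraMap F ℂ x - algebraMap F ℂ y ^ l) := by
    intro x y
    rw [hV', Valuation.comap_apply, map_sub, map_pow]
  refine ⟨?_, ?_, ?_⟩
  · intro C
    have k3 := w_kron (W := fun C => algebraMap F ℂ (W C)) hb h.cw.hv h.cw.hW V hl hl2 hla hqp hql
      (fun x => by rw [htower]; exact hV1 _) (fun x => by rw [htower, hV2, hq, Ideal.mem_comap])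
      hgoodW C
    refine hzero _ _ (s3 σ _ (tW C) _ (tW _)) (W C ^ l)
      (hfrob _ (Finset.mem_insert_of_mem (tW C))) ?_
    rw [e0]
    exact k3.2
  · intro C
    have k3 := w_kron (W := fun C => algebraMap F ℂ (W' C)) hb h.cw.hv' h.cw.hW' V hl hl2 hla hqp hql
      (fun x => by rw [htower]; exact hV1 _) (fun x => by rw [htower, hV2, hq, Ideal.mem_comap])
      hgoodW' C
    refine hzero _ _ (s3 σ _ (tW' C) _ (tW' _)) (W' C ^ l)
      (hfrob _ (Finset.mem_insert_of_mem (tW' C))) ?_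
    rw [e0]
    exact k3.2
  · rw [hql]
    have h1 := hfrob w (Finset.mem_insert_self _ _)
    obtain ⟨m, hm⟩ := cfrb_pow7 hl hl2 h.hw
    have hj : (jacobiSym (d : ℤ) l : ℤ) ∈ ({1, -1, 0} : Finset ℤ) := by
      rcases jacobiSym.trichotomy (d : ℤ) l with h2 | h2 | h2 <;> simp [h2]
    refine hzero _ _ (s4 σ _ hj) (w ^ l) h1 ?_
    have e : ((jacobiSym (d : ℤ) l : ℤ) : F) * w - w ^ l = -((l : F) * ((m : F) * w)) := by
      rw [← neg_sub, hm, mul_assoc]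
    rw [e, Valuation.map_neg, map_mul]
    have hmw : V' ((m : F) * w) ≤ 1 := by
      rw [map_mul]
      have hm1 : V' (m : F) ≤ 1 := by
        have h2 := v1 (m : 𝓞 F)
        rwa [map_intCast] at h2
      exact mul_le_one' hm1 (hgood w sw).1
    calc V' (l : F) * V' ((m : F) * w) ≤ V' (l : F) * 1 := mul_le_mul_right hmw _
      _ = V' (l : F) := mul_one _
      _ < 1 := vl

end Pool.Agent.Work.MP_8efaaa_nt.N7
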