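import Mathlib
import Pool.Agent.Work.MP_8efaaa_nt.R.EInt
import Pool.Agent.Work.MP_8efaaa_nt.N7.CFrb
import Pool.Agent.Work.MP_8efaaa_nt.N7.IBas

/-!
# N7/CAct (S-M): all automorphisms act by ideals

PROOF. As `mact_of` (N5/CAct.lean): `frob_closure`, `frob_mact7`; product of ideals: `idl_mul`, `absNorm` and `jacobiSym` are multiplicative.
-/

set_option autoImplicit false

namespace Pool.Agent.Work.MP_8efaaa_nt.N7

open IsDedekindDomain NumberField Pool.Agent.Work.MP_787500_nt.HC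
open Pool.Agent.Work.MP_8efaaa_nt.T Pool.Agent.Work.MP_8efaaa_nt.R
open scoped nonZeroDivisors

universe u

variable {K : Type u} {F : Type*} [Field K] [NumberField K] [Algebra K ℂ] [Field F] [NumberField F]
  [Algebra K F] [Algebra F ℂ] [IsScalarTower K F ℂ] [IsGalois K F] {a d : ℕ} {s : K}
  {v v' : HeightOneSpectrum (𝓞 K)} {w : F} {W W' : ClassGroup (𝓞 K) → F}

/-- the property which is proved for all automorphisms -/
private def Good (a d : ℕ) (w : F) (W W' : ClassGroup (𝓞 K) → F) (f : F → F) : Prop :=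
  ∃ b : Ideal (𝓞 K), Nat.Coprime (Ideal.absNorm b) (2 * a) ∧ MAct7 d w W W' f b

omit [Algebra K ℂ] in
private theorem ne_bot_of {b : Ideal (𝓞 K)} (hb : Nat.Coprime (Ideal.absNorm b) (2 * a)) : b ≠ ⊥ := by
  rintro rfl
  rw [Ideal.absNorm_bot, Nat.coprime_zero_left] at hb
  omega

omit [Algebra K ℂ] in
private theorem idl_one' : idl (1 : Ideal (𝓞 K)) = (1 : Idl K) := by
  have h1 : (1 : Ideal (𝓞 K)) ≠ ⊥ := one_ne_zero
  have h2 := idl_mul (K := K) h1 h1
  rw [one_mul] at h2
  exact (left_eq_mul.1 h2)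

omit [Algebra K ℂ] in
private theorem cl_mul' (I J : Idl K) : cl (I * J) = cl I * cl J := map_mul _ _ _

omit [Algebra K ℂ] in
private theorem cl_one' : cl (1 : Idl K) = 1 := map_one _

omit [Algebra K ℂ] [NumberField F] [Algebra F ℂ] [IsScalarTower K F ℂ] [IsGalois K F] in
private theorem good_one : Good a d w W W' ⇑(1 : F ≃ₐ[K] F) := by
  refine ⟨1, by simp, ?_, ?_, ?_⟩
  · intro C
    rw [idl_one', inv_one, cl_one', one_mul]
    rfl
  · intro C
    rw [idl_one', inv_one, cl_one', one_mul]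
    rfl
  · rw [map_one, jacobiSym.one_right, Int.cast_one, one_mul]
    rfl

omit [Algebra K ℂ] [NumberField F] [Algebra F ℂ] [IsScalarTower K F ℂ] [IsGalois K F] in
private theorem good_mul {x y : F ≃ₐ[K] F} (hx : Good a d w W W' ⇑x) (hy : Good a d w W W' ⇑y) :
    Good a d w W W' ⇑(x * y) := by
  obtain ⟨b, hb1, hb3⟩ := hx
  obtain ⟨e, he1, he3⟩ := hy
  have hbe : cl (idl (b * e))⁻¹ = cl (idl b)⁻¹ * cl (idl e : Idl K)⁻¹ := by
    rw [idl_mul (ne_bot_of hb1) (ne_bot_of he1), mul_inv, cl_mul']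
  refine ⟨b * e, ?_, ?_, ?_, ?_⟩
  · rw [map_mul]
    exact Nat.Coprime.mul_left hb1 he1
  · intro C
    show x (y (W C)) = _
    rw [he3.hW, hb3.hW, hbe, mul_assoc]
  · intro C
    show x (y (W' C)) = _
    rw [he3.hW', hb3.hW', hbe, mul_assoc]
  · have h1 := he3.sq
    have h2 := hb3.sq
    have n1 : NeZero (Ideal.absNorm b) := ⟨fun h0 => by
      rw [h0, Nat.coprime_zero_left] at hb1
      omega⟩
    have n2 : NeZero (Ideal.absNorm e) := ⟨fun h0 => by
      rw [h0, Nat.coprime_zero_left] at he1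
      omega⟩
    show x (y w) = _
    rw [h1, map_mul, map_intCast, h2, map_mul, jacobiSym.mul_right, Int.cast_mul]
    ring

theorem mact7_of (hb : Base K a s) (h : ICtx7 K F v v' d w W W') (hd : d ≠ 0)
    (σ : F ≃ₐ[K] F) : ∃ b : Ideal (𝓞 K), Nat.Coprime (Ideal.absNorm b) (2 * a) ∧
      MAct7 d w W W' σ b := by
  obtain ⟨N, hN, h2N, haN, hact⟩ := frob_mact7 hb h hd
  have hσ : σ ∈ Subgroup.closure {σ : F ≃ₐ[K] F | ∃ (l : ℕ) (Q : Ideal (𝓞 F)), l.Prime ∧
      ¬ l ∣ N ∧ Q.IsPrime ∧ Ideal.absNorm (Q.comap (algebraMap (𝓞 K) (𝓞 F))) = l ∧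
      Frb σ Q l} := by
    rw [frob_closure N hN]
    trivial
  have hpow : ∀ x : F ≃ₐ[K] F, Good a d w W W' ⇑x → ∀ n : ℕ, Good a d w W W' ⇑(x ^ n) := by
    intro x hx n
    induction n with
    | zero => rw [pow_zero]; exact good_one
    | succ n ih => rw [pow_succ]; exact good_mul ih hx
  have key : Good a d w W W' ⇑σ := by
    induction hσ using Subgroup.closure_induction with
    | mem x hx =>
      obtain ⟨l, Q, hl, hlN, hQ, hQl, hF⟩ := hx
      have h3 := hact l Q x hl hlN hQ hQl hF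
      refine ⟨_, ?_, h3⟩
      rw [hQl]
      refine Nat.Coprime.mul_right ?_ ?_
      · rw [hl.coprime_iff_not_dvd]
        exact fun h0 => hlN (h0.trans h2N)
      · rw [hl.coprime_iff_not_dvd]
        exact fun h0 => hlN (h0.trans haN)
    | one => exact good_one
    | mul x y _ _ hx hy => exact good_mul hx hy
    | inv x _ hx =>
      have h1 : x⁻¹ = x ^ (orderOf x - 1) := by
        rw [inv_eq_iff_mul_eq_one, ← pow_succ']
        have : orderOf x - 1 + 1 = orderOf x := Nat.succ_pred_eq_of_pos (orderOf_pos x)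
        rw [this, pow_orderOf_eq_one]
      rw [h1]
      exact hpow x hx _
  exact key

end Pool.Agent.Work.MP_8efaaa_nt.N7
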