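import Mathlib
import Pool.Agent.Work.MP_787500_nt.HC.TrA
import Pool.Agent.Work.MP_8efaaa_nt.T.Ctx
import Pool.Agent.Work.MP_8efaaa_nt.N5.CFin
import Pool.Agent.Work.MP_8efaaa_nt.N7.Defs

/-!
# N7/CCtx (S-M): the field of the values

PROOF. `exists_other`, `exists_class_fun` (see `exists_wctx` in T/Ctx) give the complex functions `Wc`, `Wc'`; by `act_complex` and `transfer` their values are in the image of the algebraic
closure of `K`, so algebraic over `K`. `fin_gal_rat` for the finite set of the values (the class group is finite) and `Real.sqrt d`.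
-/

set_option autoImplicit false

namespace Pool.Agent.Work.MP_8efaaa_nt.N7

open IsDedekindDomain NumberField Pool.Agent.Work.MP_787500_nt.HC
open Pool.Agent.Work.MP_8efaaa_nt.T Pool.Agent.Work.MP_8efaaa_nt.R
open scoped nonZeroDivisors

universe u

variable {K : Type u} [Field K] [NumberField K] [Algebra K ℂ] {a : ℕ} {s : K}
  {v : HeightOneSpectrum (𝓞 K)}

private theorem alg_of {A : Type*} [CommGroup A] [Finite A] {Wc Wc' : A → ℂ} (h : Act K ℂ Wc Wc')
    (c : A) : IsAlgebraic K (Wc c) ∧ IsAlgebraic K (Wc' c) := by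
  obtain ⟨ψ, W, W', h1, h2, _⟩ := transfer h
  constructor
  · rw [← h1 c]
    exact (isAlgebraic_algHom_iff ψ ψ.injective).2 (Algebra.IsAlgebraic.isAlgebraic (R := K) (W c))
  · rw [← h2 c]
    exact (isAlgebraic_algHom_iff ψ ψ.injective).2 (Algebra.IsAlgebraic.isAlgebraic (R := K) (W' c))

theorem exists_ictx7 (hb : Base K a s) (hv : (2 : 𝓞 K) ∈ v.asIdeal) (d : ℕ) :
    ∃ (v' : HeightOneSpectrum (𝓞 K)) (F : IntermediateField K ℂ)
      (_ : FiniteDimensional K F) (_ : IsGalois K F) (_ : IsGalois ℚ F) (w : F)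
      (W W' : ClassGroup (𝓞 K) → F), ICtx7 K F v v' d w W W' := by
  classical
  obtain ⟨v', hne, hv', h2⟩ := exists_other hb hv
  obtain ⟨Wc, hW⟩ := exists_class_fun (wv (pr v) (eV v)) (wv_prin hb hv)
  obtain ⟨Wc', hW'⟩ := exists_class_fun (wv (pr v') (eV v')) (wv_prin hb hv')
  have hact := act_complex hb hv hv' hW hW'
  have hd2 : (((Real.sqrt (d : ℝ) : ℝ) : ℂ)) ^ 2 = (d : ℂ) := by
    rw [← Complex.ofReal_pow, Real.sq_sqrt (Nat.cast_nonneg d)]
    simp
  have hda : IsAlgebraic K ((Real.sqrt (d : ℝ) : ℝ) : ℂ) := by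
    refine ⟨Polynomial.X ^ 2 - Polynomial.C (d : K), ?_, ?_⟩
    · exact (Polynomial.monic_X_pow_sub_C (d : K) (n := 2) (by norm_num)).ne_zero
    · simp [hd2]
  have hfin : Fintype (ClassGroup (𝓞 K)) := inferInstance
  obtain ⟨F, h1, h3, h4, hF⟩ := N5.fin_gal_rat (K := K)
    (insert ((Real.sqrt (d : ℝ) : ℝ) : ℂ) (Finset.univ.image Wc ∪ Finset.univ.image Wc')) (by
    intro z hz
    rcases Finset.mem_insert.1 hz with rfl | hz
    · exact hda
    · rcases Finset.mem_union.1 hz with hz | hz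
      · obtain ⟨c, _, rfl⟩ := Finset.mem_image.1 hz
        exact (alg_of hact c).1
      · obtain ⟨c, _, rfl⟩ := Finset.mem_image.1 hz
        exact (alg_of hact c).2)
  have hdF : ((Real.sqrt (d : ℝ) : ℝ) : ℂ) ∈ F := hF _ (Finset.mem_insert_self _ _)
  have hWF : ∀ c, Wc c ∈ F := fun c => hF _ (Finset.mem_insert_of_mem
    (Finset.mem_union_left _ (Finset.mem_image_of_mem _ (Finset.mem_univ c))))
  have hWF' : ∀ c, Wc' c ∈ F := fun c => hF _ (Finset.mem_insert_of_mem
    (Finset.mem_union_right _ (Finset.mem_image_of_mem _ (Finset.mem_univ c))))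
  refine ⟨v', F, h1, h3, h4, ⟨((Real.sqrt (d : ℝ) : ℝ) : ℂ), hdF⟩, fun c => ⟨Wc c, hWF c⟩,
    fun c => ⟨Wc' c, hWF' c⟩, ⟨hne, hv, hv', h2, hW, hW'⟩, ?_, ?_⟩
  · apply Subtype.ext
    simpa using hd2
  · exact Complex.conj_ofReal _

end Pool.Agent.Work.MP_8efaaa_nt.N7
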