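import Mathlib
import Pool.Agent.Work.MP_8efaaa_nt.N5.CConj
import Pool.Agent.Work.MP_8efaaa_nt.T.CpxA
import Pool.Agent.Work.MP_8efaaa_nt.N7.ARec
import Pool.Agent.Work.MP_8efaaa_nt.N7.ACj
import Pool.Agent.Work.MP_8efaaa_nt.N7.CCtx
import Pool.Agent.Work.MP_8efaaa_nt.N7.CAct

/-!
# N7/CDat (S-M): assembly of the Galois data over `ℚ`

PROOF. A complex embedding of `K`, `exists_ictx7`; `rel`: `wdata_complex`, `prod`: `wprod_complex`, `rec3`: `rec3_complex`, all checked after `algebraMap F ℂ` (injective). `act`: `mact7_of`. `κ`: `exists_conj` (N5/CConj),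
`conj_W`; `κ s = -s`: its image in `ℂ` is the complex conjugate of a square root of `-a` (`a > 0`), see `conj_s` (N5/BCjB).
-/

set_option autoImplicit false

namespace Pool.Agent.Work.MP_8efaaa_nt.N7

open IsDedekindDomain NumberField Pool.Agent.Work.MP_787500_nt.HC
open Pool.Agent.Work.MP_8efaaa_nt.T Pool.Agent.Work.MP_8efaaa_nt.R
open scoped nonZeroDivisors

universe u

private theorem conj_sq {t : ℂ} {a : ℕ} (ha : 0 < a) (h : t ^ 2 = -(a : ℂ)) :
    (starRingEnd ℂ) t = -t := by
  have h1 : ((starRingEnd ℂ) t) ^ 2 = t ^ 2 := by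
    rw [← map_pow, h, map_neg, map_natCast]
  rcases sq_eq_sq_iff_eq_or_eq_neg.1 h1 with h2 | h2
  · exfalso
    obtain ⟨r, hr⟩ := Complex.conj_eq_iff_real.1 h2
    rw [hr] at h
    have h3 : ((r ^ 2 : ℝ) : ℂ) = ((-(a : ℝ) : ℝ) : ℂ) := by
      push_cast
      exact h
    have h4 := Complex.ofReal_injective h3
    have h5 : (0 : ℝ) < a := by exact_mod_cast ha
    nlinarith [sq_nonneg r]
  · exact h2

private theorem idat7_of {K : Type u} {F : Type*} [Field K] [NumberField K] [Algebra K ℂ]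
    [Field F] [NumberField F] [Algebra K F] [Algebra F ℂ] [IsScalarTower K F ℂ] [IsGalois K F]
    [IsGalois ℚ F] {a : ℕ} {s : K} (hb : Base K a s) {v v' : HeightOneSpectrum (𝓞 K)}
    {d : ℕ} (hd : d ≠ 0) {w : F} {W W' : ClassGroup (𝓞 K) → F}
    (h : ICtx7 K F v v' d w W W') : ∃ κ : F ≃ₐ[ℚ] F, IDat7 K F a d s v w W W' κ := by
  obtain ⟨κ, hκ⟩ := N5.exists_conj (F := F)
  have inj : Function.Injective (algebraMap F ℂ) := (algebraMap F ℂ).injective
  have hw := h.cw
  have R := wdata_complex (W := fun C => algebraMap F ℂ (W C))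
    (W' := fun C => algebraMap F ℂ (W' C)) hb hw.ne hw.hv hw.hv' hw.mul hw.hW hw.hW'
  have hP := wprod_complex (W := fun C => algebraMap F ℂ (W C)) hb hw.ne hw.hv hw.hv' hw.mul hw.hW
  have hR := rec3_complex hb hw
  have ha : 0 < a := Nat.pos_of_ne_zero (by
    rintro rfl
    have := hb.mod
    norm_num at this)
  refine ⟨κ, ?_⟩
  refine
    { rel := ⟨fun c => ?_, fun c => ?_, fun c => ?_, fun c => ?_, fun c => ?_⟩
      rec3 := fun c => ?_
      prod := fun m β hβ c => ?_
      hw := h.hw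
      act := fun σ => mact7_of hb h hd σ
      cs := ?_
      cw := ?_
      cW := fun C => ?_
      cW' := fun C => ?_ }
  · apply inj
    rw [map_add, map_pow, map_pow, map_one]
    exact R.four c
  · apply inj
    rw [map_mul, map_pow, map_add, map_one, map_pow, map_mul, map_ofNat]
    exact R.rec1 c
  · apply inj
    rw [map_mul, map_pow, map_add, map_one, map_pow, map_mul, map_ofNat]
    exact R.rec2 c
  · intro h0
    apply R.ne c
    show algebraMap F ℂ (W c) = 0
    rw [h0, map_zero]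
  · intro h0
    apply R.ne' c
    show algebraMap F ℂ (W' c) = 0
    rw [h0, map_zero]
  · apply inj
    rw [map_mul, map_add, map_add, map_one, map_pow, map_pow, map_ofNat]
    exact hR c
  · apply inj
    rw [map_pow, ← IsScalarTower.algebraMap_apply K F ℂ, map_pow, map_prod]
    simp only [map_add, map_one, map_pow]
    exact hP m β hβ c
  · apply inj
    rw [hκ, map_neg, ← IsScalarTower.algebraMap_apply K F ℂ]
    apply conj_sq ha
    rw [← map_pow, hb.sq, map_neg, map_natCast]
  · apply inj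
    rw [hκ]
    exact h.hwr
  · apply inj
    rw [hκ]
    exact (conj_W hb hw C).1
  · apply inj
    rw [hκ]
    exact (conj_W hb hw C).2

theorem exists_idat7 {K : Type u} [Field K] [NumberField K] {a : ℕ} {s : K} (hb : Base K a s)
    {v : HeightOneSpectrum (𝓞 K)} (hv : (2 : 𝓞 K) ∈ v.asIdeal) {d : ℕ} (hd : d ≠ 0) :
    ∃ (F : Type) (_ : Field F) (_ : NumberField F) (_ : Algebra K F)
      (_ : FiniteDimensional K F) (_ : IsGalois K F) (_ : IsGalois ℚ F) (w : F)
      (W W' : ClassGroup (𝓞 K) → F) (κ : F ≃ₐ[ℚ] F), IDat7 K F a d s v w W W' κ := by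
  obtain ⟨φ⟩ : Nonempty (K →+* ℂ) := inferInstance
  let _ : Algebra K ℂ := φ.toAlgebra
  obtain ⟨v', F, hF1, hF2, hF3, w, W, W', h0⟩ := exists_ictx7 hb hv d
  have hNF : NumberField F := NumberField.of_module_finite K F
  have hF4 : @IsGalois ℚ _ F _ DivisionRing.toRatAlgebra := by
    convert hF3
  obtain ⟨κ, h⟩ := idat7_of hb hd h0
  exact ⟨F, inferInstance, hNF, inferInstance, hF1, hF2, hF4, w, W, W', κ, h⟩

end Pool.Agent.Work.MP_8efaaa_nt.N7
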