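import Mathlib
import Pool.Agent.Work.MP_8efaaa_nt.T.CDefs
import Pool.Agent.Work.MP_8efaaa_nt.N5.DVal
import Pool.Agent.Work.MP_8efaaa_nt.N5.DRed

/-!
# N7/DRed (M): reduction modulo `L`, the curve `y ^ 2 = x ^ 3 + 4 x`

PROOF. As `red` (N5/DRed.lean, the curve `y^2 = x^3 - x`). `V` from `inert_val`, `T = (p, q)` with integers `p`, `q`, so `V p ≤ 1`, `V q ≤ 1`. Suppose `m R = R + T`. `R = 0`: `m R = 0`, `T ≠ 0`. `R = (x, y)`, `V x > 1`: `V y ^ 2 = V x ^ 3`,
`V (ι x) = V x > 1`, but the first coordinate of `R + T` is `((y - q)^2 - x (x - p)^2)/(x - p)^2 - p` with numerator `4 x - 2 y q + q^2 + 2 p x^2 - p^2 x`, of valuation `≤ V x ^ 2`: so `V (ι x) ≤ 1`, contradiction.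
`V x ≤ 1`, `V y ≤ 1`: `V (ι x - x) < 1`, `V (ι y - y) < 1`, `T = m R - R`. (C1) `ι x = x`: `ι y = y` gives `T = 0`, impossible; `ι y = -y ≠ y`: `V y < 1` (`V 2 = 1`), `T = 2 (-R)`, slope `(3 x^2 + 4)/(-2 y)`;
`V (3 x^2 + 4) = 1` by `32 = (8 + 3 x^2) (3 x^2 + 4) - 9 x (x^3 + 4 x)`, `V (x^3 + 4 x) < 1`; so `V p > 1`, contradiction. (C2) `ι x ≠ x`: slope `(ι y + y)/(ι x - x)`; if `V (ι y + y) = 1`: `V p > 1`. Otherwise
`V y < 1`, and `(ι y + y)(ι y - y) = (ι x - x)(ι x^2 + ι x x + x^2 + 4)`, the last factor has valuation `1`, so the slope has valuation `> 1` again, contradiction.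
-/

set_option autoImplicit false

namespace Pool.Agent.Work.MP_8efaaa_nt.N7

open NumberField WeierstrassCurve WeierstrassCurve.Affine
open Pool.Agent.Work.MP_8efaaa_nt.T Pool.Agent.Work.MP_8efaaa_nt.N5
open scoped Classical

section val

variable {F : Type*} [Field F] {Γ : Type} [LinearOrderedCommGroupWithZero Γ] (V : Valuation F Γ)

private theorem vle {a b : F} (ha : V a ≤ 1) (hb : V b ≤ 1) : V (a + b) ≤ 1 :=
  (V.map_add a b).trans (max_le ha hb)

private theorem vlt {a b : F} (ha : V a < 1) (hb : V b < 1) : V (a + b) < 1 :=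
  lt_of_le_of_lt (V.map_add a b) (max_lt ha hb)

private theorem vltm {a b : F} (ha : V a ≤ 1) (hb : V b < 1) : V (a * b) < 1 := by
  rw [map_mul]
  calc V a * V b ≤ 1 * V b := by gcongr
    _ = V b := one_mul _
    _ < 1 := hb

private theorem vlem {a b : F} (ha : V a ≤ 1) (hb : V b ≤ 1) : V (a * b) ≤ 1 := by
  rw [map_mul]
  exact mul_le_one' ha hb

private theorem vsq {a : F} (ha : V (a ^ 2) < 1) : V a < 1 := by
  rw [map_pow] at ha
  by_contra h
  push Not at h
  exact absurd ha (not_lt.2 (one_le_pow₀ h))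

end val

private theorem eqE {F : Type*} [Field F] {x y : F} (h : (cE F).Nonsingular x y) :
    y ^ 2 = x ^ 3 + 4 * x := by
  have h1 := h.1
  rw [WeierstrassCurve.Affine.equation_iff] at h1
  simp only [cE] at h1
  linear_combination h1

private theorem add_ptE {F : Type*} [Field F] {x1 y1 x2 y2 x3 y3 : F}
    {h1 : (cE F).Nonsingular x1 y1} {h2 : (cE F).Nonsingular x2 y2}
    {h3 : (cE F).Nonsingular x3 y3}
    (hx : x1 ≠ x2) (h : Point.some x1 y1 h1 + Point.some x2 y2 h2 = Point.some x3 y3 h3) :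
    x3 * (x1 - x2) ^ 2 = (y1 - y2) ^ 2 - (x1 + x2) * (x1 - x2) ^ 2 := by
  rw [Point.add_of_X_ne hx, Point.some.injEq] at h
  have h4 := h.1
  rw [slope_of_X_ne hx] at h4
  simp only [addX, cE] at h4
  have h5 : x1 - x2 ≠ 0 := sub_ne_zero.2 hx
  rw [← h4]
  field_simp
  ring

private theorem dbl_ptE {F : Type*} [Field F] [CharZero F] {x y x3 y3 : F}
    {h1 : (cE F).Nonsingular x y} {h3 : (cE F).Nonsingular x3 y3}
    (hy : y ≠ 0) (h : Point.some x y h1 + Point.some x y h1 = Point.some x3 y3 h3) :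
    x3 * (2 * y) ^ 2 = (x ^ 2 - 4) ^ 2 := by
  have hEq := eqE h1
  have hne : y ≠ (cE F).negY x y := by
    simp only [negY, cE]
    intro h0
    apply hy
    have : 2 * y = 0 := by linear_combination h0
    exact (mul_eq_zero.mp this).resolve_left two_ne_zero
  have h2Y0 : 2 * y ≠ 0 := mul_ne_zero two_ne_zero hy
  rw [WeierstrassCurve.Affine.Point.add_self_of_Y_ne (h₁ := h1) hne, Point.some.injEq] at h
  have h4 := h.1
  rw [WeierstrassCurve.Affine.slope_of_Y_ne rfl hne] at h4
  simp only [addX, negY, cE] at h4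
  have h2Y : y - (-y - 0 * x - 0) = 2 * y := by ring
  rw [h2Y] at h4
  rw [← h4]
  field_simp
  linear_combination (-8 * x) * hEq

/-- the action of an automorphism on the points -/
theorem exists_galE {F : Type*} [Field F] [NumberField F] (σ : F ≃ₐ[ℚ] F) :
    ∃ m : (cE F).Point →+ (cE F).Point, ∀ (x y : F) (hn : (cE F).Nonsingular x y),
      ∃ hn' : (cE F).Nonsingular (σ x) (σ y),
        m (Point.some x y hn) = Point.some (σ x) (σ y) hn' := by
  have hW : cE F = WeierstrassCurve.Affine.baseChange (cE ℚ) F := by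
    unfold cE
    ext
    all_goals simp [WeierstrassCurve.Affine.baseChange, WeierstrassCurve.baseChange]
  generalize cE F = W at hW
  subst hW
  refine ⟨Point.map (W' := cE ℚ) (σ : F →ₐ[ℚ] F), fun x y hn => ⟨?_, ?_⟩⟩
  · exact ((cE ℚ).baseChange_nonsingular (f := (σ : F →ₐ[ℚ] F))
      (σ : F →ₐ[ℚ] F).injective x y).mpr hn
  · rw [Point.map_some]
    rfl

theorem red7 {F : Type*} [Field F] [NumberField F] {ι : F ≃ₐ[ℚ] F} {L : Ideal (𝓞 F)}
    (h : Inert ι L) {m : (cE F).Point →+ (cE F).Point}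
    (hm : ∀ (x y : F) (hn : (cE F).Nonsingular x y), ∃ hn' : (cE F).Nonsingular (ι x) (ι y),
        m (Point.some x y hn) = Point.some (ι x) (ι y) hn')
    (R : (cE F).Point) {p q : ℤ} (hn : (cE F).Nonsingular (p : F) (q : F)) :
    m R ≠ R + Point.some (p : F) (q : F) hn := by
  obtain ⟨Γ, _, V, hV1, hV2, hVi, hVt⟩ := inert_val h
  intro heq
  obtain ⟨P0, hP0⟩ : ∃ P0 : F, P0 = (p : F) := ⟨_, rfl⟩
  obtain ⟨Q0, hQ0⟩ : ∃ Q0 : F, Q0 = (q : F) := ⟨_, rfl⟩
  have hint : ∀ n : ℤ, V (n : F) ≤ 1 := fun n => by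
    have := hV1 (n : 𝓞 F)
    simpa using this
  have hnat : ∀ n : ℕ, V (n : F) ≤ 1 := fun n => by
    have := hV1 (n : 𝓞 F)
    simpa using this
  have hVp : V P0 ≤ 1 := by rw [hP0]; exact hint p
  have hVq : V Q0 ≤ 1 := by rw [hQ0]; exact hint q
  have hpq : Q0 ^ 2 = P0 ^ 3 + 4 * P0 := by rw [hP0, hQ0]; exact eqE hn
  revert hn
  rw [← hP0, ← hQ0]
  intro hn heq
  have hT0 : Point.some P0 Q0 hn ≠ 0 := Point.some_ne_zero _
  have h4V : V (4 : F) ≤ 1 := by simpa using hnat 4
  have hV4 : V (4 : F) = 1 := by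
    rw [show (4 : F) = 2 * 2 by norm_num, map_mul, hV2, one_mul]
  rcases R with _ | ⟨x, y, hxyn⟩
  · have h0 : m (Point.zero : (cE F).Point) = 0 := map_zero m
    rw [h0] at heq
    have h1 : (Point.zero : (cE F).Point) + Point.some P0 Q0 hn = Point.some P0 Q0 hn :=
      zero_add _
    rw [h1] at heq
    exact hT0 heq.symm
  obtain ⟨hιn, hmR⟩ := hm x y hxyn
  rw [hmR] at heq
  have hxy := eqE hxyn
  have hι := eqE hιn
  by_cases hx1 : V x ≤ 1
  · -- `x`, `y` integral
    have hy1 : V y ≤ 1 := by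
      by_contra h4
      push Not at h4
      have h5 := one_lt_pow₀ h4 two_ne_zero
      rw [← map_pow, hxy] at h5
      refine absurd h5 (not_lt.2 ?_)
      rw [show x ^ 3 + 4 * x = x * (x ^ 2 + 4) by ring]
      refine vlem V hx1 (vle V ?_ h4V)
      rw [map_pow]; exact pow_le_one₀ zero_le hx1
    have hix := hVt x hx1
    have hiy := hVt y hy1
    have hnn : (cE F).Nonsingular x (-y) := by
      have := (cE F).nonsingular_neg x y |>.2 hxyn
      simpa [negY, cE] using this
    have hneg : -(Point.some x y hxyn) = Point.some x (-y) hnn := by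
      rw [Point.neg_some, Point.some.injEq]
      exact ⟨rfl, by simp [negY, cE]⟩
    have hsub : Point.some (ι x) (ι y) hιn + Point.some x (-y) hnn = Point.some P0 Q0 hn := by
      rw [← hneg, heq]
      abel
    have hιx1 : V (ι x) ≤ 1 := by rw [hVi]; exact hx1
    have hιy1 : V (ι y) ≤ 1 := by rw [hVi]; exact hy1
    have hm1 : V (-1 : F) ≤ 1 := by rw [Valuation.map_neg, map_one]
    by_cases hxx : ι x = x
    · have h1 : (ι y - y) * (ι y + y) = 0 := by
        rw [hxx] at hι
        linear_combination hι - hxy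
      have hnoty : ι y ≠ y := by
        intro h3
        have h4 : Point.some (ι x) (ι y) hιn = Point.some x y hxyn := by
          rw [Point.some.injEq]; exact ⟨hxx, h3⟩
        rw [h4] at heq
        exact hT0 (left_eq_add.1 heq)
      rcases mul_eq_zero.1 h1 with h2 | h2
      · exact hnoty (sub_eq_zero.1 h2)
      · have h3 : ι y = -y := by linear_combination h2
        have hy0 : y ≠ 0 := by
          intro hy0
          exact hnoty (by rw [h3, hy0, neg_zero])
        have h4 : Point.some (ι x) (ι y) hιn = Point.some x (-y) hnn := by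
          rw [Point.some.injEq]; exact ⟨hxx, h3⟩
        rw [h4] at hsub
        have h5 := dbl_ptE (neg_ne_zero.2 hy0) hsub
        have h6 : V (2 * y) < 1 := by
          rw [h3, show -y - y = -(2 * y) by ring, Valuation.map_neg] at hiy
          exact hiy
        have h7 : V y < 1 := by
          rw [map_mul, hV2, one_mul] at h6
          exact h6
        have h8 : V (x ^ 2 - 4) < 1 := by
          apply vsq V
          rw [← h5, show P0 * (2 * -y) ^ 2 = (P0 * (2 * y)) * (2 * y) by ring]
          exact vltm V (vlem V hVp h6.le) h6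
        have h9 : V (y ^ 2) < 1 := by rw [pow_two]; exact vltm V hy1 h7
        have h10 : V (8 * x) < 1 := by
          rw [show 8 * x = (-x) * (x ^ 2 - 4) + y ^ 2 by rw [hxy]; ring]
          refine vlt V (vltm V ?_ h8) h9
          rw [Valuation.map_neg]
          exact hx1
        have h11 : V x < 1 := by
          rw [show (8 : F) = 2 * 2 * 2 by norm_num, map_mul, map_mul, map_mul, hV2, one_mul, one_mul,
            one_mul] at h10
          exact h10
        have h12 : V (4 : F) < 1 := by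
          rw [show (4 : F) = (-1) * (x ^ 2 - 4) + x * x by ring]
          exact vlt V (vltm V hm1 h8) (vltm V hx1 h11)
        rw [hV4] at h12
        exact lt_irrefl _ h12
    · have h1 := add_ptE hxx hsub
      have hsum : V (ι y + y) < 1 := by
        apply vsq V
        rw [show (ι y + y) ^ 2 = (P0 * (ι x - x)) * (ι x - x) + ((ι x + x) * (ι x - x)) * (ι x - x) by
          linear_combination -h1]
        exact vlt V (vltm V (vlem V hVp hix.le) hix)
          (vltm V (vlem V (vle V hιx1 hx1) hix.le) hix)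
      have h2y : V (2 * y) < 1 := by
        rw [show 2 * y = (ι y + y) + (-1) * (ι y - y) by ring]
        exact vlt V hsum (vltm V hm1 hiy)
      have hy : V y < 1 := by
        rw [map_mul, hV2, one_mul] at h2y
        exact h2y
      have hxy2 : V (y ^ 2) < 1 := by rw [pow_two]; exact vltm V hy1 hy
      have hV32 : V (32 : F) = 1 := by
        rw [show (32 : F) = 2 * 4 * 4 by norm_num, map_mul, map_mul, hV2, hV4, one_mul, one_mul]
      have h8 : V (8 : F) ≤ 1 := by simpa using hnat 8
      have h9 : V (9 : F) ≤ 1 := by simpa using hnat 9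
      have h3' : V (3 : F) ≤ 1 := by simpa using hnat 3
      have hx2 : V (x ^ 2) ≤ 1 := by rw [map_pow]; exact pow_le_one₀ zero_le hx1
      have hkey : ¬ V (ι x ^ 2 + ι x * x + x ^ 2 + 4) < 1 := by
        intro hlt
        have h3 : V (3 * x ^ 2 + 4) < 1 := by
          rw [show 3 * x ^ 2 + 4 = (ι x ^ 2 + ι x * x + x ^ 2 + 4) + (-(ι x + (x + x))) * (ι x - x) by
            ring]
          refine vlt V hlt (vltm V ?_ hix)
          rw [Valuation.map_neg]
          exact vle V hιx1 (vle V hx1 hx1)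
        have h4 : V (32 : F) < 1 := by
          rw [show (32 : F) = (8 + 3 * x ^ 2) * (3 * x ^ 2 + 4) + (-(9 * x)) * y ^ 2 by
            rw [hxy]; ring]
          refine vlt V (vltm V (vle V h8 (vlem V h3' hx2)) h3) (vltm V ?_ hxy2)
          rw [Valuation.map_neg]
          exact vlem V h9 hx1
        rw [hV32] at h4
        exact lt_irrefl _ h4
      apply hkey
      apply vsq V
      have hne : ι x - x ≠ 0 := sub_ne_zero.2 hxx
      have h3 : (ι y + y) * (ι y - y) = (ι x - x) * (ι x ^ 2 + ι x * x + x ^ 2 + 4) := by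
        linear_combination hι - hxy
      have h4 : (ι x ^ 2 + ι x * x + x ^ 2 + 4) ^ 2 =
          (P0 * (ι y - y)) * (ι y - y) + ((ι x + x) * (ι y - y)) * (ι y - y) := by
        have h5 : (ι x - x) ^ 2 * (ι x ^ 2 + ι x * x + x ^ 2 + 4) ^ 2 =
          (ι x - x) ^ 2 * ((P0 * (ι y - y)) * (ι y - y) + ((ι x + x) * (ι y - y)) * (ι y - y)) := by
          rw [← mul_pow, ← h3]
          linear_combination (-(ι y - y) ^ 2) * h1
        exact mul_left_cancel₀ (pow_ne_zero 2 hne) h5
      rw [h4]
      exact vlt V (vltm V (vlem V hVp hiy.le) hiy)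
        (vltm V (vlem V (vle V hιx1 hx1) hiy.le) hiy)
  · -- `V x > 1`
    push Not at hx1
    have hx0 : 0 < V x := lt_trans zero_lt_one hx1
    have hxp : x ≠ P0 := by
      rintro rfl
      exact absurd hVp (not_le.2 hx1)
    have h1 := add_ptE hxp heq.symm
    have h2 : V (x - P0) = V x := by
      rw [Valuation.map_sub_eq_of_lt_left]
      exact lt_of_le_of_lt hVp hx1
    have h3 : ι x * (x - P0) ^ 2 =
        P0 * x ^ 2 + ((P0 ^ 2 + 4) * x + (4 * P0 + (-2 * Q0) * y)) := by
      linear_combination h1 + hxy + hpq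
    have hx1' : 1 ≤ V x := hx1.le
    have hVy : V y ≤ V x ^ 2 := by
      by_contra h4
      push Not at h4
      have h5 : (V x ^ 2) ^ 2 < V y ^ 2 := pow_lt_pow_left₀ h4 zero_le two_ne_zero
      rw [← map_pow V y, hxy] at h5
      refine absurd h5 (not_lt.2 ?_)
      refine (V.map_add _ _).trans (max_le ?_ ?_)
      · rw [map_pow, ← pow_mul]
        exact pow_le_pow_right₀ hx1.le (by norm_num)
      · rw [map_mul, hV4, one_mul, ← pow_mul]
        calc V x = V x ^ 1 := (pow_one _).symm
          _ ≤ _ := pow_le_pow_right₀ hx1.le (by norm_num)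
    have hx2 : 1 ≤ V x ^ 2 := one_le_pow₀ hx1.le
    have hxx2 : V x ≤ V x ^ 2 := by
      calc V x = V x ^ 1 := (pow_one _).symm
        _ ≤ _ := pow_le_pow_right₀ hx1.le (by norm_num)
    have h4 : V (ι x * (x - P0) ^ 2) ≤ V x ^ 2 := by
      rw [h3]
      have aux : ∀ a b : F, V a ≤ 1 → V b ≤ V x ^ 2 → V (a * b) ≤ V x ^ 2 := by
        intro a b ha hb
        rw [map_mul]
        calc V a * V b ≤ 1 * V b := by gcongr
          _ = V b := one_mul _
          _ ≤ _ := hb
      refine (V.map_add _ _).trans (max_le ?_ ((V.map_add _ _).trans (max_le ?_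
        ((V.map_add _ _).trans (max_le ?_ ?_)))))
      · exact aux _ _ hVp (by rw [map_pow])
      · refine aux _ _ (vle V ?_ h4V) hxx2
        rw [map_pow]; exact pow_le_one₀ zero_le hVp
      · exact (vlem V h4V hVp).trans hx2
      · refine aux _ _ ?_ hVy
        rw [show (-2 : F) * Q0 = -(2 * Q0) by ring, Valuation.map_neg]
        exact vlem V hV2.le hVq
    rw [map_mul, map_pow, h2, hVi] at h4
    have h5 : 1 * V x ^ 2 < V x * V x ^ 2 := by
      have : 0 < V x ^ 2 := pow_pos hx0 2
      gcongr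
    rw [one_mul] at h5
    exact absurd h4 (not_le.2 h5)

end Pool.Agent.Work.MP_8efaaa_nt.N7
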