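import Mathlib
import Pool.Agent.Work.MP_8efaaa_nt.N7.Defs
import Pool.Agent.Work.MP_8efaaa_nt.T.Quad

/-!
# N7/EId (S-M): the action of the inertia element on `W`, `W'`

PROOF. `σ := ι ∘ κ` (`(κ.trans ι)`) fixes `s`, so it is an automorphism over `K` (`K` is generated by `s` over `ℚ`: `hb.dim`, `s^2 = -a`; see `iota_pt` in N5/EIo.lean). `act` gives `b`. `σ w = ι w = e w`, so `jacobiSym d (N b) = e`
(`w ≠ 0`, characteristic zero). `W C = κ (W' C⁻¹)` (`cW'`), so `ι (W C) = σ (W' C⁻¹)`, the same for `W'`.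
-/

set_option autoImplicit false

namespace Pool.Agent.Work.MP_8efaaa_nt.N7

open IsDedekindDomain NumberField Pool.Agent.Work.MP_787500_nt.HC
open Pool.Agent.Work.MP_8efaaa_nt.T
open scoped nonZeroDivisors

theorem iota7 {K : Type*} {F : Type*} [Field K] [NumberField K] [Field F] [NumberField F]
    [Algebra K F] {a d : ℕ} {s : K} (hb : Base K a s) {v : HeightOneSpectrum (𝓞 K)} {w : F}
    {W W' : ClassGroup (𝓞 K) → F} {κ : F ≃ₐ[ℚ] F} (h : IDat7 K F a d s v w W W' κ) (hd : d ≠ 0)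
    {ι : F ≃ₐ[ℚ] F} (h1 : ι (algebraMap K F s) = -algebraMap K F s) {e : ℤ}
    (h2 : ι w = e * w) : ∃ b : Ideal (𝓞 K), Nat.Coprime (Ideal.absNorm b) (2 * a) ∧
      jacobiSym d (Ideal.absNorm b) = e ∧
      (∀ C, ι (W C) = W' (cl (idl b)⁻¹ * C⁻¹)) ∧ ∀ C, ι (W' C) = W (cl (idl b)⁻¹ * C⁻¹) := by
  have ha0 : 0 < a := by
    have := hb.mod
    omega
  have hfix : ∀ x : K, ι (κ (algebraMap K F x)) = algebraMap K F x := by
    intro x
    obtain ⟨m, n, hmn⟩ := Pool.Agent.Work.MP_787500_nt.Quad.exists_coords hb.dim hb.sq ha0 x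
    have e1 : algebraMap K F x = (m : F) + n * algebraMap K F s := by
      rw [hmn, map_add, map_mul, map_ratCast, map_ratCast]
    rw [e1, map_add, map_mul, h.cs, map_ratCast, map_ratCast, map_add, map_mul, map_neg, h1,
      map_ratCast, map_ratCast, neg_neg]
  let σ : F ≃ₐ[K] F := AlgEquiv.ofRingEquiv (f := (κ.trans ι).toRingEquiv) hfix
  have hσ : ∀ x, σ x = ι (κ x) := fun x => rfl
  obtain ⟨b, hbc, hA⟩ := h.act σ
  have hw0 : w ≠ 0 := by
    rintro rfl
    have := h.hw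
    rw [zero_pow two_ne_zero] at this
    exact (Nat.cast_ne_zero.mpr hd) this.symm
  refine ⟨b, hbc, ?_, fun C => ?_, fun C => ?_⟩
  · have h3 := hA.sq
    rw [hσ, h.cw, h2] at h3
    have h4 := mul_right_cancel₀ hw0 h3
    exact_mod_cast h4.symm
  · have h3 := hA.hW' C⁻¹
    rw [hσ, h.cW', inv_inv] at h3
    exact h3
  · have h3 := hA.hW C⁻¹
    rw [hσ, h.cW, inv_inv] at h3
    exact h3

end Pool.Agent.Work.MP_8efaaa_nt.N7
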