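import Mathlib
import Pool.Agent.Work.MP_8efaaa_nt.T.Fin
import Pool.Agent.Work.MP_8efaaa_nt.T.Val
import Pool.Agent.Work.MP_787500_nt.HC.ArC
import Pool.Agent.Work.MP_8efaaa_nt.N7.Defs

/-!
# N7/EOld (M): the sum of all points is zero and `4` divides the class number

PROOF. (1) `sum_zero_cl`: copy the proof of `T.main` (T/Fin.lean) up to `hz'`: `S + j Q = 0`, `j < 4`, and the equation `z ^ 4 = e 8^h β^n k^4 32^j`; then copy the valuation part of the proof of `four_dvd_index` (T/Val.lean):
it shows `j = 0` and `4 ∣ r n = h`. So `S = 0`. (2) `sum_zero7`: `F` is finite over `K`, choose an embedding `ψ : F →ₐ[K] AlgebraicClosure K`; `ψ ∘ W`, `ψ ∘ W'` satisfy `WCtx`: `rel` and `prod` by applying `ψ`, `act`: an automorphism of the algebraic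
closure over `K` maps `ψ F` to itself (`F` is normal over `K`, `AlgEquiv.restrictNormal` with `ψ` as algebra structure), so it induces an automorphism of `F` over `K`, use `h.act`. The sum of the images of the points under the injective homomorphism
`Point.map ψ` (compare `exists_mp` in R/TorB.lean for the base change) is zero, so the sum is zero.
-/

set_option autoImplicit false

namespace Pool.Agent.Work.MP_8efaaa_nt.N7

open IsDedekindDomain NumberField Pool.Agent.Work.MP_787500_nt.HC
open WeierstrassCurve WeierstrassCurve.Affine Pool.Agent.Work.MP_8efaaa_nt.T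
open scoped nonZeroDivisors Classical

universe u v

section torsion

variable {F : Type*} [Field F] [CharZero F]

private theorem ns_Q : (cE F).Nonsingular 2 (-4) := by
  rw [nonsingular_iff', equation_iff]
  simp only [cE]
  refine ⟨by ring, Or.inr ?_⟩
  norm_num

private theorem ns_Q' : (cE F).Nonsingular 2 4 := by
  rw [nonsingular_iff', equation_iff]
  simp only [cE]
  refine ⟨by ring, Or.inr ?_⟩
  norm_num

private theorem ns_T : (cE F).Nonsingular 0 0 := by
  rw [nonsingular_iff', equation_iff]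
  simp only [cE]
  refine ⟨by ring, Or.inl ?_⟩
  norm_num

open scoped Classical in
private theorem Q_add_Q : (Point.some 2 (-4) ns_Q : (cE F).Point) + Point.some 2 (-4) ns_Q =
    Point.some 0 0 ns_T := by
  have hy : (-4 : F) ≠ (cE F).negY 2 (-4) := by
    simp only [negY, cE]
    norm_num
  have hs : (cE F).slope 2 2 (-4) (-4) = -2 := by
    rw [slope_of_Y_ne rfl hy]
    simp only [negY, cE]
    norm_num
  rw [Point.add_self_of_Y_ne hy]
  simp only [Point.some.injEq]
  rw [hs]
  constructor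
  · simp only [addX, cE]
    norm_num
  · simp only [addY, negAddY, negY, addX, cE]
    norm_num

open scoped Classical in
private theorem T_add_T : (Point.some 0 0 ns_T : (cE F).Point) + Point.some 0 0 ns_T = 0 := by
  rw [Point.add_of_Y_eq rfl]
  simp only [negY, cE]
  norm_num

open scoped Classical in
private theorem Q_add_Q' : (Point.some 2 4 ns_Q' : (cE F).Point) + Point.some 2 (-4) ns_Q = 0 := by
  rw [Point.add_of_Y_eq rfl]
  simp only [negY, cE]
  norm_num

end torsion

private theorem log_neg_one {K : Type u} [Field K] [NumberField K]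
    (w : HeightOneSpectrum (𝓞 K)) {e : K} (he : e = 1 ∨ e = -1) :
    WithZero.log (w.valuation K e) = 0 := by
  rcases he with rfl | rfl
  · rw [map_one, WithZero.log_one]
  · rw [Valuation.map_neg, map_one, WithZero.log_one]

private theorem val_four {K : Type u} [Field K] [NumberField K] {a : ℕ} {s : K} (hb : Base K a s)
    {v : HeightOneSpectrum (𝓞 K)} (hv : (2 : 𝓞 K) ∈ v.asIdeal) {β : Kˣ}
    (hβ : prin β = pr v ^ orderOf (cl (pr v)⁻¹)) {k z e : K} (hk : k ≠ 0) (he : e = 1 ∨ e = -1)
    {j : ℕ} (hj : j < 4)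
    (h : z ^ 4 = e * 8 ^ Nat.card (ClassGroup (𝓞 K)) *
      (β : K) ^ (Subgroup.zpowers (cl (pr v)⁻¹)).index * k ^ 4 * 32 ^ j) :
    j = 0 ∧ 4 ∣ Nat.card (ClassGroup (𝓞 K)) := by
  obtain ⟨v', hne, hv', -⟩ := exists_other hb hv
  set r := orderOf (cl (pr v)⁻¹) with hr
  set n := (Subgroup.zpowers (cl (pr v)⁻¹)).index with hn
  have hcard : Nat.card (ClassGroup (𝓞 K)) = r * n := by
    rw [hn, hr, ← Nat.card_zpowers, Subgroup.card_mul_index]
  have hr0 : 0 < r := orderOf_pos _
  have h2v : v.valuation K (2 : K) = WithZero.exp (-1) := (Qd.dyadic hb.dim hb.sq hb.sf hb.mod hv).2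
  have h2v' : v'.valuation K (2 : K) = WithZero.exp (-1) := (Qd.dyadic hb.dim hb.sq hb.sf hb.mod hv').2
  obtain ⟨hβv, hβv'⟩ := val_alpha hβ
  have hβv' := hβv' v' hne.symm
  have he0 : e ≠ 0 := by
    rcases he with rfl | rfl
    · exact one_ne_zero
    · exact neg_ne_zero.2 one_ne_zero
  have h20 : (2 : K) ≠ 0 := two_ne_zero
  have hz : z ≠ 0 := by
    rintro rfl
    have h1 : e * 8 ^ Nat.card (ClassGroup (𝓞 K)) * (β : K) ^ n * k ^ 4 * 32 ^ j ≠ 0 := by
      have h8 : (8 : K) ≠ 0 := by norm_num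
      have h32 : (32 : K) ≠ 0 := by norm_num
      have := β.ne_zero
      positivity
    apply h1
    rw [← h, zero_pow (by norm_num)]
  have key : ∀ w : HeightOneSpectrum (𝓞 K), w.valuation K (2 : K) = WithZero.exp (-1) →
      4 * WithZero.log (w.valuation K z) = -3 * ((r * n : ℕ) : ℤ) + n * WithZero.log (w.valuation K (β : K)) +
        4 * WithZero.log (w.valuation K k) - 5 * j := by
    intro w hw
    have h1 := congrArg (fun x => WithZero.log (w.valuation K x)) h
    have e8 : (8 : K) = 2 ^ 3 := by norm_num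
    have e32 : (32 : K) = 2 ^ 5 := by norm_num
    have n1 : ∀ x : K, x ≠ 0 → w.valuation K x ≠ 0 := fun x hx => (Valuation.ne_zero_iff _).2 hx
    simp only [map_mul, map_pow, e8, e32] at h1
    have m2 := n1 2 h20
    have mβ := n1 β β.ne_zero
    have mk := n1 k hk
    have me := n1 e he0
    have p2 : ((w.valuation K 2) ^ 3) ^ Nat.card (ClassGroup (𝓞 K)) ≠ 0 :=
      pow_ne_zero _ (pow_ne_zero _ m2)
    have pβ : w.valuation K (β : K) ^ n ≠ 0 := pow_ne_zero _ mβ
    have pk : w.valuation K k ^ 4 ≠ 0 := pow_ne_zero _ mk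
    have pj : ((w.valuation K 2) ^ 5) ^ j ≠ 0 := pow_ne_zero _ (pow_ne_zero _ m2)
    rw [WithZero.log_mul (mul_ne_zero (mul_ne_zero (mul_ne_zero me p2) pβ) pk) pj,
      WithZero.log_mul (mul_ne_zero (mul_ne_zero me p2) pβ) pk, WithZero.log_mul (mul_ne_zero me p2) pβ,
      WithZero.log_mul me p2] at h1
    simp only [WithZero.log_pow, hw, WithZero.log_exp, log_neg_one w he, hcard] at h1
    simp only [nsmul_eq_mul] at h1
    push_cast at h1 ⊢
    linarith
  have k1 := key v' h2v'
  have k2 := key v h2v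
  rw [hβv', WithZero.log_one] at k1
  rw [hβv, WithZero.log_exp] at k2
  have hj0 : j = 0 := by
    have h1 : 4 * (WithZero.log (v.valuation K z) - WithZero.log (v.valuation K k) + ((r * n : ℕ) : ℤ)) =
        -5 * (j : ℤ) := by
      push_cast at k2 ⊢
      linarith
    omega
  refine ⟨hj0, ?_⟩
  rw [hj0] at k1
  rw [hcard]
  have h1 : (4 : ℤ) ∣ 3 * ((r * n : ℕ) : ℤ) :=
    ⟨WithZero.log (v'.valuation K k) - WithZero.log (v'.valuation K z), by
      push_cast at k1 ⊢
      linarith⟩
  omega

theorem sum_zero_cl {K : Type u} [Field K] [NumberField K] {a : ℕ} {s : K} (hb : Base K a s)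
    (hnc : ¬ IsCongruent a) {v : HeightOneSpectrum (𝓞 K)} (hv : (2 : 𝓞 K) ∈ v.asIdeal)
    {W W' : ClassGroup (𝓞 K) → AlgebraicClosure K} (h : WCtx K v W W') :
    ∑ c, Point.some (xW W W' c) (yW W W' c) (nonsing_W h.rel c) = 0 ∧
      4 ∣ Nat.card (ClassGroup (𝓞 K)) := by
  classical
  obtain ⟨β, hβ⟩ : ∃ β : Kˣ, prin β = pr v ^ orderOf (cl (pr v)⁻¹) := by
    have h1 : cl (1 : Idl K) = cl (pr v ^ orderOf (cl (pr v)⁻¹)) := by
      rw [cl_pow, cl_one]
      have h2 := pow_orderOf_eq_one (cl (pr v)⁻¹)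
      rw [cl_inv, inv_pow, orderOf_inv, inv_eq_one] at h2
      rw [cl_inv, orderOf_inv, h2]
    obtain ⟨x, hx⟩ := cl_eq_iff.1 h1
    exact ⟨x, by rw [hx, mul_one]⟩
  obtain ⟨k, hk, e, he, hprod⟩ := prod_W h hβ
  set S : (cE (AlgebraicClosure K)).Point := ∑ c, Point.some (xW W W' c) (yW W W' c) (nonsing_W h.rel c) with hS
  -- the sum is one of the four points
  have key : ∃ j : ℕ, j < 4 ∧ S + ∑ _i : Fin j, Point.some 2 (-4) (ns_Q (F := AlgebraicClosure K)) = 0 := by
    rcases sum_W h with h | ⟨x, y, hn, hxy, h⟩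
    · exact ⟨0, by norm_num, by rw [hS, h]; simp⟩
    · rcases points_K hb hnc hxy with ⟨rfl, rfl⟩ | ⟨rfl, rfl | rfl⟩
      · refine ⟨2, by norm_num, ?_⟩
        rw [hS, h, Fin.sum_univ_two, Q_add_Q]
        simp only [map_zero]
        exact T_add_T
      · refine ⟨1, by norm_num, ?_⟩
        rw [hS, h, Fin.sum_univ_one]
        simp only [map_ofNat]
        exact Q_add_Q'
      · refine ⟨3, by norm_num, ?_⟩
        rw [hS, h, Fin.sum_univ_three, ← add_assoc, ← add_assoc]
        simp only [map_ofNat, map_neg]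
        rw [Q_add_Q, add_assoc, Q_add_Q]
        exact T_add_T
  obtain ⟨j, hj, hsum⟩ := key
  let x : ClassGroup (𝓞 K) ⊕ Fin j → (AlgebraicClosure K) := Sum.elim (xW W W') (fun _ => 2)
  let y : ClassGroup (𝓞 K) ⊕ Fin j → (AlgebraicClosure K) := Sum.elim (yW W W') (fun _ => -4)
  have hn : ∀ i, (cE (AlgebraicClosure K)).Nonsingular (x i) (y i) := by
    rintro (c | i)
    · exact nonsing_W h.rel c
    · exact ns_Q
  have hx : ∀ i, x i ≠ 0 := by
    rintro (c | i)
    · exact xW_ne h.rel c
    · exact two_ne_zero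
  obtain ⟨z, hz⟩ := sum_zero (K := K) hn hx (fun σ => by
    obtain ⟨c, hc⟩ := h.act σ
    refine ⟨Equiv.sumCongr (Equiv.mulLeft c) (Equiv.refl _), ?_⟩
    rintro (d | i)
    · have h1 := hc d
      constructor
      · show σ (xW W W' d) = xW W W' (c * d)
        unfold xW
        rw [map_div₀, map_mul, map_add, map_one, map_pow, map_pow, map_ofNat, h1.1, h1.2]
      · show σ (yW W W' d) = yW W W' (c * d)
        unfold yW
        rw [map_div₀, map_mul, map_add, map_one, map_pow, map_pow, map_ofNat, h1.1, h1.2]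
    · constructor
      · show σ 2 = 2
        exact map_ofNat σ 2
      · show σ (-4) = -4
        rw [map_neg, map_ofNat]) (by
    rw [Fintype.sum_sum_type]
    exact hsum)
  have hz' : algebraMap K (AlgebraicClosure K) (z ^ 4) = algebraMap K (AlgebraicClosure K) (e * 8 ^ Nat.card (ClassGroup (𝓞 K)) *
      (β : K) ^ (Subgroup.zpowers (cl (pr v)⁻¹)).index * k ^ 4 * 32 ^ j) := by
    rw [map_pow, hz, Fintype.prod_sum_type, map_mul _ _ ((32 : K) ^ j), ← hprod]
    congr 1
    show ∏ _i : Fin j, fE (2 : (AlgebraicClosure K)) (-4) = _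
    rw [Finset.prod_const, Finset.card_univ, Fintype.card_fin, map_pow, map_ofNat]
    congr 1
    unfold fE
    norm_num
  obtain ⟨hj0, h4⟩ := val_four hb hv hβ hk he hj ((algebraMap K (AlgebraicClosure K)).injective hz')
  refine ⟨?_, h4⟩
  subst hj0
  have h5 : ∑ _i : Fin 0, Point.some 2 (-4) (ns_Q (F := AlgebraicClosure K)) = 0 := rfl
  rw [h5, add_zero] at hsum
  exact hsum

/-- base change of the points -/
private theorem exists_mp7 {K F L : Type*} [Field K] [Field F] [Field L] [Algebra K F] [Algebra K L]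
    (ψ : F →ₐ[K] L) : ∃ m : (cE F).Point →+ (cE L).Point, Function.Injective m ∧
    ∀ (x y : F) (hn : (cE F).Nonsingular x y), ∃ hn' : (cE L).Nonsingular (ψ x) (ψ y),
      m (Point.some x y hn) = Point.some (ψ x) (ψ y) hn' := by
  have h1 : cE F = WeierstrassCurve.Affine.baseChange (cE K) F := by
    unfold cE
    ext
    all_goals simp [WeierstrassCurve.Affine.baseChange, WeierstrassCurve.baseChange]
    exact (map_ofNat (algebraMap K F) 4).symm
  have h2 : cE L = WeierstrassCurve.Affine.baseChange (cE K) L := by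
    unfold cE
    ext
    all_goals simp [WeierstrassCurve.Affine.baseChange, WeierstrassCurve.baseChange]
    exact (map_ofNat (algebraMap K L) 4).symm
  generalize cE F = W at h1
  subst h1
  generalize cE L = W at h2
  subst h2
  refine ⟨Point.map (W' := cE K) ψ, Point.map_injective ψ, fun x y hn => ⟨?_, ?_⟩⟩
  · exact ((cE K).baseChange_nonsingular (f := ψ) ψ.injective x y).mpr hn
  · rw [Point.map_some]

private theorem some_congr7 {F : Type*} [Field F] {W : WeierstrassCurve.Affine F} {x y x' y' : F}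
    (hn : W.Nonsingular x y) (hn' : W.Nonsingular x' y') (hx : x = x') (hy : y = y') :
    (Point.some x y hn : W.Point) = Point.some x' y' hn' := by
  subst hx
  subst hy
  rfl

theorem sum_zero7 {K : Type u} {F : Type v} [Field K] [NumberField K] [Field F] [NumberField F]
    [Algebra K F] [FiniteDimensional K F] [IsGalois K F] {a d : ℕ} {s : K} (hb : Base K a s)
    (hnc : ¬ IsCongruent a) {v : HeightOneSpectrum (𝓞 K)} (hv : (2 : 𝓞 K) ∈ v.asIdeal) {w : F}
    {W W' : ClassGroup (𝓞 K) → F} {κ : F ≃ₐ[ℚ] F} (h : IDat7 K F a d s v w W W' κ) :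
    ∑ c, Point.some (xW W W' c) (yW W W' c) (nonsing_W h.rel c) = 0 ∧
      4 ∣ Nat.card (ClassGroup (𝓞 K)) := by
  obtain ⟨ψ⟩ : Nonempty (F →ₐ[K] AlgebraicClosure K) := ⟨IsAlgClosed.lift⟩
  have e2 : ψ 2 = 2 := map_ofNat ψ 2
  have e4 : ψ 4 = 4 := map_ofNat ψ 4
  have hrel : WRel (cl (pr v)⁻¹) (fun C => ψ (W C)) (fun C => ψ (W' C)) := by
    refine ⟨fun C => ?_, fun C => ?_, fun C => ?_, fun C => ?_, fun C => ?_⟩
    · have := congrArg ψ (h.rel.four C)
      simpa using this
    · have := congrArg ψ (h.rel.rec1 C)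
      simpa [e2] using this
    · have := congrArg ψ (h.rel.rec2 C)
      simpa [e2] using this
    · exact fun h0 => h.rel.ne C ((map_eq_zero ψ).1 h0)
    · exact fun h0 => h.rel.ne' C ((map_eq_zero ψ).1 h0)
  have hctx : WCtx K v (fun C => ψ (W C)) (fun C => ψ (W' C)) := by
    refine ⟨hrel, fun m β hβ c => ?_, fun σ => ?_⟩
    · have := congrArg ψ (h.prod m β hβ c)
      rw [map_pow, AlgHom.commutes, map_pow, map_prod] at this
      rw [this]
      simp
    · let _ : Algebra F (AlgebraicClosure K) := ψ.toRingHom.toAlgebra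
      have hst : IsScalarTower K F (AlgebraicClosure K) :=
        IsScalarTower.of_algebraMap_eq fun x => (ψ.commutes x).symm
      obtain ⟨b, -, hb'⟩ := h.act (σ.restrictNormal F)
      refine ⟨cl (idl b)⁻¹, fun C => ⟨?_, ?_⟩⟩
      · rw [← hb'.hW C]
        exact (σ.restrictNormal_commutes F (W C)).symm
      · rw [← hb'.hW' C]
        exact (σ.restrictNormal_commutes F (W' C)).symm
  obtain ⟨h1, h2⟩ := sum_zero_cl hb hnc hv hctx
  refine ⟨?_, h2⟩
  obtain ⟨m, hm, hms⟩ := exists_mp7 ψ
  apply hm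
  rw [map_sum, map_zero, ← h1]
  refine Finset.sum_congr rfl fun c _ => ?_
  obtain ⟨hn', e⟩ := hms _ _ (nonsing_W h.rel c)
  rw [e]
  apply some_congr7
  · unfold xW
    simp [e2]
  · unfold yW
    simp [e4]

end Pool.Agent.Work.MP_8efaaa_nt.N7
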