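import Mathlib
import Pool.Agent.Work.MP_8efaaa_nt.T.WPt

/-!
# N7/EPt (M): the conjugate point

PROOF. Let `x = W u`, `v = W' u ^ 2`: `v^2 = 1 - x^4`, `x, v ≠ 0`. `W (p u)^2 = 2 x/(1 + x^2)` (`rec1`), `W' (p u)^2 = 2/(1 + x^2) - 1 = (1 - x^2)/(1 + x^2)` (`h3`), `W' (p u) = v (1 + W' (p u)^2)/2 = v/(1 + x^2)` (`rec2`). So the point
`P (p u)` is `(2 (1 + x)/(1 - x), 4 v/(1 - x)^2)` (for `yW` use `v^2 = (1 - x)(1 + x)(1 + x^2)`). The claim is `(2 (1 + v)/x^2, 4 (1 + v)/x^3) + (2 (1 + x)/(1 - x), 4 v/(1 - x)^2) = (2, 4)`. Easiest: `(2, 4) + (-P (p u))`: first coordinates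
`2` and `2 (1 + x)/(1 - x)` are different (`x ≠ 0`), slope `m = (4 + 4 v/(1 - x)^2)/(2 - 2 (1 + x)/(1 - x)) = -(v + (1 - x)^2)/(x (1 - x))`, check with `field_simp; ring` modulo `v^2 = 1 - x^4`.
(`1 - x ≠ 0`, `1 + x ≠ 0`, `1 + x^2 ≠ 0`, since `v ≠ 0`.) Numerical check: `x = 1/2`: `(15.745966, 62.983866) + (6, 15.491933) = (2, 4)`.
-/

set_option autoImplicit false

namespace Pool.Agent.Work.MP_8efaaa_nt.N7

open WeierstrassCurve WeierstrassCurve.Affine Pool.Agent.Work.MP_8efaaa_nt.T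
open scoped Classical

private theorem some_congr' {F : Type*} [Field F] {W : WeierstrassCurve.Affine F} {x y x' y' : F}
    (hn : W.Nonsingular x y) (hx : x = x') (hy : y = y') :
    ∃ hn' : W.Nonsingular x' y', (Point.some x y hn : W.Point) = Point.some x' y' hn' := by
  subst hx
  subst hy
  exact ⟨hn, rfl⟩

private theorem L1 {F : Type*} [Field F] [CharZero F] {x v : F} (hv0 : v ≠ 0)
    (hvf : v ^ 2 = (1 - x) * (1 + x) * (1 + x ^ 2)) (h1m : 1 - x ≠ 0)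
    (h1s : 1 + x ^ 2 ≠ 0) : 4 * (1 + 2 * x / (1 + x ^ 2)) / (v / (1 + x ^ 2)) ^ 3 =
      4 * v / (1 - x) ^ 2 := by
  field_simp
  linear_combination (-(v ^ 2 + (1 - x) * (1 + x) * (1 + x ^ 2))) * hvf

private theorem L0 {F : Type*} [Field F] [CharZero F] {x v : F}
    (hvf : v ^ 2 = (1 - x) * (1 + x) * (1 + x ^ 2)) (h1m : 1 - x ≠ 0) (h1p : 1 + x ≠ 0)
    (h1s : 1 + x ^ 2 ≠ 0) : 2 * (1 + 2 * x / (1 + x ^ 2)) / (v / (1 + x ^ 2)) ^ 2 =
      2 * (1 + x) / (1 - x) := by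
  rw [div_pow, hvf]
  field_simp
  ring

private theorem L2 {F : Type*} [Field F] [CharZero F] {x v : F} (hx0 : x ≠ 0)
    (h1m : 1 - x ≠ 0) :
    (4 - - (4 * v / (1 - x) ^ 2)) / (2 - 2 * (1 + x) / (1 - x)) =
      - ((1 - x) ^ 2 + v) / (x * (1 - x)) := by
  have h2 : 2 - 2 * (1 + x) / (1 - x) = - (4 * x) / (1 - x) := by
    field_simp
    ring
  rw [h2]
  field_simp
  ring

private theorem L3 {F : Type*} [Field F] [CharZero F] {x v : F} (hx0 : x ≠ 0)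
    (hvf : v ^ 2 = (1 - x) * (1 + x) * (1 + x ^ 2)) (h1m : 1 - x ≠ 0) :
    (- ((1 - x) ^ 2 + v) / (x * (1 - x))) ^ 2 - 2 - 2 * (1 + x) / (1 - x) =
      2 * (1 + v) / x ^ 2 := by
  field_simp
  linear_combination hvf

private theorem L4 {F : Type*} [Field F] [CharZero F] {x v : F} (hx0 : x ≠ 0)
    (hvf : v ^ 2 = (1 - x) * (1 + x) * (1 + x ^ 2)) (h1m : 1 - x ≠ 0) :
    -((- ((1 - x) ^ 2 + v) / (x * (1 - x))) * (2 * (1 + v) / x ^ 2 - 2) + 4) =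
      4 * (1 + v) / x ^ 3 := by
  field_simp
  linear_combination 2 * hvf

theorem pt_conj {A F : Type*} [Field F] [CharZero F] [CommGroup A] {p : A} {W W' : A → F}
    (h : WRel p W W') (h3 : ∀ c, (1 + W c ^ 2) * (1 + W' (p * c) ^ 2) = 2) (u : A)
    (hQ : (cE F).Nonsingular 2 4) :
    ∃ hn : (cE F).Nonsingular (2 * (1 + W' u ^ 2) / W u ^ 2) (4 * (1 + W' u ^ 2) / W u ^ 3),
      Point.some _ _ hn + Point.some (xW W W' (p * u)) (yW W W' (p * u)) (nonsing_W h (p * u)) =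
        Point.some 2 4 hQ := by
  set x : F := W u with hx
  set v : F := W' u ^ 2 with hv
  have hx0 : x ≠ 0 := h.ne u
  have hv0 : v ≠ 0 := pow_ne_zero 2 (h.ne' u)
  have hvf : v ^ 2 = (1 - x) * (1 + x) * (1 + x ^ 2) := by
    have := h.four u
    rw [hv, hx]
    linear_combination this
  have hne : (1 - x) * (1 + x) * (1 + x ^ 2) ≠ 0 := by
    rw [← hvf]
    exact pow_ne_zero 2 hv0
  have h1m : 1 - x ≠ 0 := fun h0 => hne (by rw [h0]; ring)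
  have h1p : 1 + x ≠ 0 := fun h0 => hne (by rw [h0]; ring)
  have h1s : 1 + x ^ 2 ≠ 0 := fun h0 => hne (by rw [h0]; ring)
  have r1 := h.rec1 u
  have r2 := h.rec2 u
  have r3 := h3 u
  rw [← hx] at r1 r3
  rw [← hv] at r2
  have hX : W (p * u) ^ 2 = 2 * x / (1 + x ^ 2) := by
    rw [eq_div_iff h1s]
    exact r1
  have hZ2 : 1 + W' (p * u) ^ 2 = 2 / (1 + x ^ 2) := by
    rw [eq_div_iff h1s, mul_comm]
    exact r3
  have hZ : W' (p * u) = v / (1 + x ^ 2) := by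
    rw [hZ2] at r2
    have h2 : (2 : F) ≠ 0 := two_ne_zero
    apply mul_left_cancel₀ h2
    rw [← r2]
    ring
  have hxW : xW W W' (p * u) = 2 * (1 + x) / (1 - x) := by
    unfold xW
    rw [hX, hZ, L0 hvf h1m h1p h1s]
  have hyW : yW W W' (p * u) = 4 * v / (1 - x) ^ 2 := by
    unfold yW
    rw [hX, hZ, L1 hv0 hvf h1m h1s]
  obtain ⟨hn2, he2⟩ := some_congr' (nonsing_W h (p * u)) hxW hyW
  rw [he2]
  have hneg : -(Point.some _ _ hn2 : (cE F).Point) =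
      Point.some _ _ ((nonsingular_neg (W' := cE F) ..).mpr hn2) := Point.neg_some hn2
  have hnY : (cE F).negY (2 * (1 + x) / (1 - x)) (4 * v / (1 - x) ^ 2) =
      -(4 * v / (1 - x) ^ 2) := by
    show -(4 * v / (1 - x) ^ 2) - 0 * (2 * (1 + x) / (1 - x)) - 0 = _
    ring
  have hxne : (2 : F) ≠ 2 * (1 + x) / (1 - x) := by
    intro h0
    rw [eq_div_iff h1m] at h0
    have h4 : (4 : F) * x = 0 := by linear_combination -h0
    exact hx0 ((mul_eq_zero.1 h4).resolve_left (by norm_num))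
  have hadd := Point.add_of_X_ne (W := cE F) (h₁ := hQ)
    (h₂ := (nonsingular_neg (W' := cE F) ..).mpr hn2) hxne
  have hsl : (cE F).slope 2 (2 * (1 + x) / (1 - x)) 4
      ((cE F).negY (2 * (1 + x) / (1 - x)) (4 * v / (1 - x) ^ 2)) =
      - ((1 - x) ^ 2 + v) / (x * (1 - x)) := by
    rw [slope_of_X_ne hxne, hnY, L2 hx0 h1m]
  have hXe : (cE F).addX 2 (2 * (1 + x) / (1 - x)) ((cE F).slope 2 (2 * (1 + x) / (1 - x)) 4
      ((cE F).negY (2 * (1 + x) / (1 - x)) (4 * v / (1 - x) ^ 2))) = 2 * (1 + v) / x ^ 2 := by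
    rw [hsl]
    show (- ((1 - x) ^ 2 + v) / (x * (1 - x))) ^ 2 + 0 * (- ((1 - x) ^ 2 + v) / (x * (1 - x))) -
      0 - 2 - 2 * (1 + x) / (1 - x) = _
    rw [zero_mul, add_zero, sub_zero]
    exact L3 hx0 hvf h1m
  have hYe : (cE F).addY 2 (2 * (1 + x) / (1 - x)) 4 ((cE F).slope 2 (2 * (1 + x) / (1 - x)) 4
      ((cE F).negY (2 * (1 + x) / (1 - x)) (4 * v / (1 - x) ^ 2))) = 4 * (1 + v) / x ^ 3 := by
    rw [addY, negAddY, hXe, hsl]
    show -(- ((1 - x) ^ 2 + v) / (x * (1 - x)) * (2 * (1 + v) / x ^ 2 - 2) + 4) -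
      0 * (2 * (1 + v) / x ^ 2) - 0 = _
    rw [zero_mul, sub_zero, sub_zero]
    exact L4 hx0 hvf h1m
  obtain ⟨hn, he⟩ := some_congr' _ hXe hYe
  refine ⟨hn, ?_⟩
  rw [← he, ← hadd, ← hneg, neg_add_cancel_right]

end Pool.Agent.Work.MP_8efaaa_nt.N7
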