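import Mathlib
import Pool.Agent.Work.MP_8efaaa_nt.N7.Defs
import Pool.Agent.Work.MP_8efaaa_nt.N7.IBas
import Pool.Agent.Work.MP_8efaaa_nt.N7.ICj

/-!
# N7/ESub (M): the subgroup of index two

PROOF. For integral `c` with `N c` prime to `a` put `χ c = jacobiSym (N c) d` (`d` odd, `d ∣ a`, `d % 4 = 1`). It depends only on the class: if `cl (idl c) = cl (idl c')` then `c * c'.map τ` is principal (`exists_tau`), `= (x)`, `2 x = m + n s`
(`exists_int_coords`), `4 N c N c' = m^2 + a n^2`, so `jacobiSym (4 N c N c') d = jacobiSym (m^2) d` and the left side is not zero, so it is `1`: `χ c = χ c'`. `S` = the classes `cl (idl c)` with `χ c = 1`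
(`exists_rep` with `N = a`); closed under products, contains `1`, inverses (`χ (c.map τ) = χ c`). The class of `v * b` is not in `S`: `N v = 2`, `jacobiSym 2 d * jacobiSym (N b) d = -1`: `jacobiSym 2 d = 1` for `d % 8 = 1`, `-1` for
`d % 8 = 5`, and `jacobiSym (N b) d = jacobiSym d (N b)` (quadratic reciprocity, `d % 4 = 1`, `N b` odd). So the index is two, and the product of two classes outside `S` is in `S`.
-/

set_option autoImplicit false

namespace Pool.Agent.Work.MP_8efaaa_nt.N7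

open IsDedekindDomain NumberField Pool.Agent.Work.MP_787500_nt.HC
open Pool.Agent.Work.MP_8efaaa_nt.T
open scoped nonZeroDivisors

variable {K : Type*} [Field K] [NumberField K]

private theorem norm_half7 {a : ℕ} {s : K} (hb : Base K a s) {δ : 𝓞 K} {m n : ℤ}
    (hδ : 2 * algebraMap (𝓞 K) K δ = m + n * s) :
    4 * (Ideal.absNorm (Ideal.span {δ}) : ℤ) = m ^ 2 + a * n ^ 2 := by
  have ha0 : 0 < a := by
    have := hb.mod
    omega
  obtain ⟨σ, hσ⟩ := Pool.Agent.Work.MP_787500_nt.Quad.exists_conj hb.dim hb.sq ha0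
  let τ : K ≃ₐ[ℚ] K := AlgEquiv.ofRingEquiv (f := σ) (fun r => by simp)
  have hτ : ∀ z, τ z = σ z := fun z => rfl
  have h1 : Algebra.norm ℚ (τ (algebraMap (𝓞 K) K δ)) = Algebra.norm ℚ (algebraMap (𝓞 K) K δ) :=
    Algebra.norm_eq_of_algEquiv τ _
  have h2 : (2 * algebraMap (𝓞 K) K δ) * (2 * τ (algebraMap (𝓞 K) K δ)) =
      algebraMap ℚ K ((m ^ 2 + a * n ^ 2 : ℤ) : ℚ) := by
    have h3 : 2 * τ (algebraMap (𝓞 K) K δ) = τ (2 * algebraMap (𝓞 K) K δ) := by
      rw [map_mul, map_ofNat]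
    rw [h3, hτ, hδ, map_add, map_mul, hσ, map_intCast, map_intCast, map_intCast]
    push_cast
    linear_combination -(n : K) ^ 2 * hb.sq
  have h2' : algebraMap (𝓞 K) K δ * τ (algebraMap (𝓞 K) K δ) =
      algebraMap ℚ K (((m ^ 2 + a * n ^ 2 : ℤ) : ℚ) / 4) := by
    rw [map_div₀, ← h2, map_ofNat]
    field_simp
    ring
  have h3 := congrArg (Algebra.norm ℚ) h2'
  rw [map_mul, h1, Algebra.norm_algebraMap, hb.dim] at h3
  have h4 : (Algebra.norm ℚ (algebraMap (𝓞 K) K δ)) = ((Algebra.norm ℤ δ : ℤ) : ℚ) :=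
    (Algebra.coe_norm_int δ).symm
  rw [h4] at h3
  have h5 : (4 * Algebra.norm ℤ δ) ^ 2 = (m ^ 2 + a * n ^ 2) ^ 2 := by
    have : (4 * ((Algebra.norm ℤ δ : ℤ) : ℚ)) ^ 2 = ((m ^ 2 + a * n ^ 2 : ℤ) : ℚ) ^ 2 := by
      have h6 : (4 * ((Algebra.norm ℤ δ : ℤ) : ℚ)) ^ 2 =
          16 * (((Algebra.norm ℤ δ : ℤ) : ℚ) * ((Algebra.norm ℤ δ : ℤ) : ℚ)) := by ring
      rw [h6, h3]
      ring
    exact_mod_cast this
  rw [Ideal.absNorm_span_singleton, Int.natCast_natAbs]
  have h6 : (0 : ℤ) ≤ m ^ 2 + a * n ^ 2 := by positivity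
  have h7 : |4 * Algebra.norm ℤ δ| = |m ^ 2 + a * n ^ 2| := by
    rw [← sq_eq_sq_iff_abs_eq_abs, h5]
  rw [abs_mul, abs_of_nonneg h6] at h7
  simpa using h7

private theorem jac_ne {n a d : ℕ} (hda : d ∣ a) (h : Nat.Coprime n a) : jacobiSym n d ≠ 0 := by
  rcases Nat.eq_zero_or_pos d with hd | hd
  · subst hd
    have : a = 0 := Nat.eq_zero_of_zero_dvd hda
    subst this
    rw [Nat.coprime_zero_right] at h
    subst h
    simp
  · have : NeZero d := ⟨by omega⟩
    intro h0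
    rw [jacobiSym.eq_zero_iff_not_coprime] at h0
    apply h0
    rw [Int.gcd_natCast_natCast]
    exact h.coprime_dvd_right hda

private theorem norm_map7 {a : ℕ} {s : K} (hb : Base K a s) {τ : 𝓞 K ≃+* 𝓞 K}
    (h : ∀ c : Ideal (𝓞 K), c * c.map (τ : 𝓞 K →+* 𝓞 K) =
      Ideal.span {((Ideal.absNorm c : ℕ) : 𝓞 K)}) {c : Ideal (𝓞 K)} (hc : c ≠ ⊥) :
    Ideal.absNorm (c.map (τ : 𝓞 K →+* 𝓞 K)) = Ideal.absNorm c := by
  have h1 := congrArg Ideal.absNorm (h c)
  have h2 : Algebra.norm ℤ ((Ideal.absNorm c : ℕ) : 𝓞 K) = ((Ideal.absNorm c : ℕ) : ℤ) ^ 2 := by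
    rw [Algebra.norm_natCast, RingOfIntegers.rank, hb.dim]
  rw [map_mul, Ideal.absNorm_span_singleton, h2, Int.natAbs_pow, Int.natAbs_natCast, pow_two] at h1
  have h3 : Ideal.absNorm c ≠ 0 := fun h0 => hc (Ideal.absNorm_eq_zero_iff.1 h0)
  exact Nat.eq_of_mul_eq_mul_left (Nat.pos_of_ne_zero h3) h1

private theorem princ7 {I : Ideal (𝓞 K)} (hI : I ≠ ⊥) (h : cl (idl I) = 1) :
    ∃ x : 𝓞 K, I = Ideal.span {x} := by
  have h1 : cl (1 : Idl K) = cl (idl I) := by rw [h, cl_one]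
  obtain ⟨x, hx⟩ := cl_eq_iff.1 h1
  rw [mul_one] at hx
  have h2 := congrArg (fun J : Idl K => (J : FractionalIdeal (𝓞 K)⁰ K)) hx
  rw [idl_ne hI] at h2
  have h3 : (x : K) ∈ (I : FractionalIdeal (𝓞 K)⁰ K) := by
    rw [h2]
    unfold prin
    rw [coe_toPrincipalIdeal]
    exact FractionalIdeal.mem_spanSingleton_self _ _
  obtain ⟨y, hy, hyx⟩ := (FractionalIdeal.mem_coeIdeal _).1 h3
  refine ⟨y, ?_⟩
  have h4 : (I : FractionalIdeal (𝓞 K)⁰ K) =
      ((Ideal.span {y} : Ideal (𝓞 K)) : FractionalIdeal (𝓞 K)⁰ K) := by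
    rw [h2, FractionalIdeal.coeIdeal_span_singleton, hyx]
    unfold prin
    rw [coe_toPrincipalIdeal]
  exact FractionalIdeal.coeIdeal_injective h4

/-- the symbol depends only on the class -/
private theorem chi_eq {a d : ℕ} {s : K} (hb : Base K a s) (hda : d ∣ a) (hd : Odd d)
    {c c' : Ideal (𝓞 K)} (hc : c ≠ ⊥) (hc' : c' ≠ ⊥)
    (h1 : Nat.Coprime (Ideal.absNorm c) a) (h1' : Nat.Coprime (Ideal.absNorm c') a)
    (h : cl (idl c) = cl (idl c')) :
    jacobiSym (Ideal.absNorm c) d = jacobiSym (Ideal.absNorm c') d := by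
  obtain ⟨τ, -, -, -, h2, h3, -⟩ := exists_tau hb
  have hn := norm_map7 hb h2 hc'
  have hc'' : c'.map (τ : 𝓞 K →+* 𝓞 K) ≠ ⊥ := by
    intro h0
    rw [h0, Ideal.absNorm_bot] at hn
    exact hc' (Ideal.absNorm_eq_zero_iff.1 hn.symm)
  have hne : c * c'.map (τ : 𝓞 K →+* 𝓞 K) ≠ ⊥ := mul_ne_zero hc hc''
  obtain ⟨x, hx⟩ := princ7 hne (by
    rw [idl_mul hc hc'', cl_mul, h3 c' hc', h, mul_inv_cancel])
  obtain ⟨m, n, hmn, -⟩ := Qd.exists_int_coords hb.dim hb.sq hb.sf (by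
    have := hb.mod
    omega) x.isIntegral_coe
  have h4 := norm_half7 hb hmn
  rw [← hx, map_mul, hn] at h4
  have h5 : jacobiSym (4 * (Ideal.absNorm c * Ideal.absNorm c' : ℕ)) d = jacobiSym (m ^ 2) d := by
    apply jacobiSym.mod_left'
    rw [h4]
    obtain ⟨k, hk⟩ := hda
    have : (m ^ 2 + (a : ℤ) * n ^ 2) = m ^ 2 + d * (k * n ^ 2) := by rw [hk]; push_cast; ring
    rw [this, Int.add_mul_emod_self_left]
  have h6 : jacobiSym 4 d = 1 := by
    have h7 : (4 : ℤ) = 2 ^ 2 := by norm_num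
    rw [h7]
    apply jacobiSym.sq_one'
    rw [Int.gcd_eq_natAbs]
    have h8 : Nat.Coprime 2 d := (Nat.coprime_two_left).mpr hd
    simpa using h8
  rw [jacobiSym.mul_left, h6, one_mul, jacobiSym.pow_left] at h5
  push_cast at h5
  rw [jacobiSym.mul_left] at h5
  have n1 := jac_ne hda h1
  have n2 := jac_ne hda h1'
  rcases jacobiSym.trichotomy (Ideal.absNorm c) d with e1 | e1 | e1
  · exact absurd e1 n1
  · rcases jacobiSym.trichotomy (Ideal.absNorm c') d with e2 | e2 | e2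
    · exact absurd e2 n2
    · rw [e1, e2]
    · rw [e1, e2] at h5
      rcases jacobiSym.trichotomy m d with e3 | e3 | e3 <;> rw [e3] at h5 <;> norm_num at h5
  · rcases jacobiSym.trichotomy (Ideal.absNorm c') d with e2 | e2 | e2
    · exact absurd e2 n2
    · rw [e1, e2] at h5
      rcases jacobiSym.trichotomy m d with e3 | e3 | e3 <;> rw [e3] at h5 <;> norm_num at h5
    · rw [e1, e2]

private theorem norm_v7 {a : ℕ} {s : K} (hb : Base K a s) {v : HeightOneSpectrum (𝓞 K)}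
    (hv : (2 : 𝓞 K) ∈ v.asIdeal) : Ideal.absNorm v.asIdeal = 2 := by
  obtain ⟨h1, -⟩ := Qd.dyadic hb.dim hb.sq hb.sf hb.mod hv
  rw [Ideal.absNorm_apply, Submodule.cardQuot_apply, Nat.card_eq_two_iff]
  refine ⟨Submodule.Quotient.mk 0, Submodule.Quotient.mk 1, ?_, ?_⟩
  · intro h0
    rw [Submodule.Quotient.eq] at h0
    apply v.isPrime.ne_top
    rw [Ideal.eq_top_iff_one]
    have h2 := v.asIdeal.neg_mem h0
    rwa [zero_sub, neg_neg] at h2
  · ext q
    simp only [Set.mem_insert_iff, Set.mem_singleton_iff, Set.mem_univ, iff_true]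
    obtain ⟨x, rfl⟩ := Submodule.Quotient.mk_surjective _ q
    rcases h1 x with h2 | h2
    · left
      rw [Submodule.Quotient.eq, sub_zero]
      exact h2
    · right
      rw [Submodule.Quotient.eq]
      exact h2

theorem exists_sub7 {K : Type*} [Field K] [NumberField K] {a d : ℕ} {s : K} (hb : Base K a s)
    (hda : d ∣ a) {v : HeightOneSpectrum (𝓞 K)} (hv : (2 : 𝓞 K) ∈ v.asIdeal)
    {b : Ideal (𝓞 K)} (hbc : Nat.Coprime (Ideal.absNorm b) (2 * a))
    (h : (d % 8 = 1 ∧ jacobiSym d (Ideal.absNorm b) = -1) ∨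
      (d % 8 = 5 ∧ jacobiSym d (Ideal.absNorm b) = 1)) :
    ∃ S : Subgroup (ClassGroup (𝓞 K)), 2 * Nat.card S = Nat.card (ClassGroup (𝓞 K)) ∧
      (∀ C C' : ClassGroup (𝓞 K), C ∉ S → C' ∉ S → C * C' ∈ S) ∧
      cl (pr v)⁻¹ * cl (idl b)⁻¹ ∉ S := by
  classical
  have ha0 : a ≠ 0 := by
    have := hb.mod
    omega
  have haodd : Odd a := by
    have := hb.mod
    rw [Nat.odd_iff]
    omega
  have hd4 : d % 4 = 1 := by omega
  have hdo : Odd d := by
    rw [Nat.odd_iff]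
    omega
  obtain ⟨τ, -, -, -, h2, h3, -⟩ := exists_tau hb
  have htop : idl (⊤ : Ideal (𝓞 K)) = (1 : Idl K) := by
    apply Units.ext
    rw [idl_ne (by exact top_ne_bot), FractionalIdeal.coeIdeal_top, Units.val_one]
  let S : Subgroup (ClassGroup (𝓞 K)) :=
    { carrier := {C | ∃ c : Ideal (𝓞 K), c ≠ ⊥ ∧ Nat.Coprime (Ideal.absNorm c) a ∧
        cl (idl c) = C ∧ jacobiSym (Ideal.absNorm c) d = 1}
      mul_mem' := by
        rintro C C' ⟨c, hc, h4, rfl, h5⟩ ⟨c', hc', h4', rfl, h5'⟩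
        refine ⟨c * c', mul_ne_zero hc hc', ?_, ?_, ?_⟩
        · rw [map_mul]
          exact h4.mul_left h4'
        · rw [idl_mul hc hc', cl_mul]
        · rw [map_mul]
          push_cast
          rw [jacobiSym.mul_left, h5, h5', one_mul]
      one_mem' := by
        refine ⟨⊤, top_ne_bot, ?_, ?_, ?_⟩
        · rw [Ideal.absNorm_top]
          exact Nat.coprime_one_left a
        · rw [htop, cl_one]
        · rw [Ideal.absNorm_top, Nat.cast_one, jacobiSym.one_left]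
      inv_mem' := by
        rintro C ⟨c, hc, h4, rfl, h5⟩
        have hn := norm_map7 hb h2 hc
        refine ⟨c.map (τ : 𝓞 K →+* 𝓞 K), ?_, ?_, h3 c hc, ?_⟩
        · intro h0
          rw [h0, Ideal.absNorm_bot] at hn
          exact hc (Ideal.absNorm_eq_zero_iff.1 hn.symm)
        · rw [hn]
          exact h4
        · rw [hn]
          exact h5 }
  have hmem : ∀ c : Ideal (𝓞 K), c ≠ ⊥ → Nat.Coprime (Ideal.absNorm c) a →
      (cl (idl c) ∈ S ↔ jacobiSym (Ideal.absNorm c) d = 1) := by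
    intro c hc h4
    constructor
    · rintro ⟨c', hc', h4', h5, h6⟩
      rw [chi_eq hb hda hdo hc hc' h4 h4' h5.symm]
      exact h6
    · intro h5
      exact ⟨c, hc, h4, rfl, h5⟩
  have hmul : ∀ C C' : ClassGroup (𝓞 K), C ∉ S → C' ∉ S → C * C' ∈ S := by
    intro C C' hC hC'
    obtain ⟨c, hc, h4, rfl⟩ := exists_rep ha0 C
    obtain ⟨c', hc', h4', rfl⟩ := exists_rep ha0 C'
    rw [hmem c hc h4] at hC
    rw [hmem c' hc' h4'] at hC'
    have n1 := jac_ne hda h4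
    have n2 := jac_ne hda h4'
    have e1 : jacobiSym (Ideal.absNorm c) d = -1 := by
      rcases jacobiSym.trichotomy (Ideal.absNorm c) d with e | e | e
      · exact absurd e n1
      · exact absurd e hC
      · exact e
    have e2 : jacobiSym (Ideal.absNorm c') d = -1 := by
      rcases jacobiSym.trichotomy (Ideal.absNorm c') d with e | e | e
      · exact absurd e n2
      · exact absurd e hC'
      · exact e
    rw [← cl_mul, ← idl_mul hc hc', hmem _ (mul_ne_zero hc hc') (by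
      rw [map_mul]
      exact h4.mul_left h4'), map_mul]
    push_cast
    rw [jacobiSym.mul_left, e1, e2]
    norm_num
  -- the element outside
  have hnv := norm_v7 hb hv
  have hbne : b ≠ ⊥ := by
    rintro rfl
    rw [Ideal.absNorm_bot, Nat.coprime_zero_left] at hbc
    have := hb.mod
    omega
  have hba : Nat.Coprime (Ideal.absNorm b) a := hbc.coprime_dvd_right ⟨2, by ring⟩
  have hb2 : Nat.Coprime (Ideal.absNorm b) 2 := hbc.coprime_dvd_right ⟨a, rfl⟩
  have hbo : Odd (Ideal.absNorm b) := Nat.coprime_two_right.1 hb2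
  have hvb : v.asIdeal * b ≠ ⊥ := mul_ne_zero v.ne_bot hbne
  have hvbc : Nat.Coprime (Ideal.absNorm (v.asIdeal * b)) a := by
    rw [map_mul, hnv]
    exact (Nat.coprime_two_left.2 haodd).mul_left hba
  have hel : cl (pr v)⁻¹ * cl (idl b)⁻¹ = (cl (idl (v.asIdeal * b)))⁻¹ := by
    rw [idl_mul v.ne_bot hbne, idl_pr, cl_mul, mul_inv, cl_inv, cl_inv]
  have hout : cl (pr v)⁻¹ * cl (idl b)⁻¹ ∉ S := by
    rw [hel, inv_mem_iff, hmem _ hvb hvbc, map_mul, hnv]
    push_cast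
    rw [jacobiSym.mul_left, ← jacobiSym.quadratic_reciprocity_one_mod_four hd4 hbo,
      jacobiSym.at_two hdo, ZMod.χ₈_nat_eq_if_mod_eight]
    rcases h with ⟨h5, h6⟩ | ⟨h5, h6⟩
    · rw [h6, if_neg (by omega), if_pos (Or.inl h5)]
      norm_num
    · rw [h6, if_neg (by omega), if_neg (by omega)]
      norm_num
  refine ⟨S, ?_, hmul, hout⟩
  have hind : S.index = 2 := by
    rw [Subgroup.index_eq_two_iff]
    refine ⟨cl (pr v)⁻¹ * cl (idl b)⁻¹, fun C => ?_⟩
    by_cases hC : C ∈ S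
    · right
      refine ⟨hC, fun h5 => hout ?_⟩
      exact (S.mul_mem_cancel_left hC).1 h5
    · left
      exact ⟨hmul _ _ hC hout, hC⟩
  rw [← S.card_mul_index, hind, mul_comm]

end Pool.Agent.Work.MP_8efaaa_nt.N7
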