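import Mathlib

/-!
# N7/NFac (S): factorization (pure Nat)

PROOF. A prime `q ∣ a`, `m = a / q > 1` (`a` is not a prime, `a ≠ 1`), `m` prime to `q`, all odd. `q % 8 = 1`: `d = l = q`. `q % 8 = 5`: `d = q`, `l` a prime factor of `m`.
`q % 8 = 3`: `m % 8 = 5`, `d = m`, `l = q`. `q % 8 = 7`: `m % 8 = 1`, `d = m`, `l` a prime factor of `m`.
-/

set_option autoImplicit false

namespace Pool.Agent.Work.MP_8efaaa_nt.N7

theorem exists_factor7 {a : ℕ} (ha : Squarefree a) (h8 : a % 8 = 7) (hp : ¬ a.Prime) :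
    ∃ d l : ℕ, d ∣ a ∧ l.Prime ∧ l ∣ a ∧ ((d % 8 = 1 ∧ l ∣ d) ∨ (d % 8 = 5 ∧ ¬ l ∣ d)) := by
  have ha1 : a ≠ 1 := by
    rintro rfl
    omega
  have hq : a.minFac.Prime := Nat.minFac_prime ha1
  obtain ⟨m, hm⟩ := Nat.minFac_dvd a
  obtain ⟨q, hqe⟩ : ∃ q, q = a.minFac := ⟨_, rfl⟩
  rw [← hqe] at hq hm
  have hm1 : m ≠ 1 := by
    rintro rfl
    rw [mul_one] at hm
    exact hp (hm ▸ hq)
  have hl : m.minFac.Prime := Nat.minFac_prime hm1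
  have hlm : m.minFac ∣ m := Nat.minFac_dvd m
  have hma : m ∣ a := ⟨q, by rw [mul_comm]; exact hm⟩
  have hqa : q ∣ a := ⟨m, hm⟩
  have hqm : ¬ q ∣ m := by
    intro h
    have h1 : q * q ∣ a := by
      conv_rhs => rw [hm]
      exact Nat.mul_dvd_mul_left q h
    exact hq.one_lt.ne' (Nat.isUnit_iff.1 (ha q h1))
  have hmul : (q % 8) * (m % 8) % 8 = 7 := by
    rw [← Nat.mul_mod, ← hm]
    exact h8
  have hqlt : q % 8 < 8 := Nat.mod_lt _ (by norm_num)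
  have hmlt : m % 8 < 8 := Nat.mod_lt _ (by norm_num)
  have hcases : (q % 8 = 1) ∨ (q % 8 = 5) ∨ (q % 8 = 3 ∧ m % 8 = 5) ∨ (q % 8 = 7 ∧ m % 8 = 1) := by
    generalize q % 8 = x at *
    generalize m % 8 = y at *
    interval_cases x <;> interval_cases y <;> omega
  rcases hcases with h | h | ⟨h, h'⟩ | ⟨h, h'⟩
  · exact ⟨q, q, hqa, hq, hqa, Or.inl ⟨h, dvd_refl q⟩⟩
  · refine ⟨q, m.minFac, hqa, hl, hlm.trans hma, Or.inr ⟨h, fun hd => ?_⟩⟩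
    have h1 : m.minFac = q := (Nat.prime_dvd_prime_iff_eq hl hq).1 hd
    rw [h1] at hlm
    exact hqm hlm
  · exact ⟨m, q, hma, hq, hqa, Or.inr ⟨h', hqm⟩⟩
  · exact ⟨m, m.minFac, hma, hl, hlm.trans hma, Or.inl ⟨h', hlm⟩⟩

end Pool.Agent.Work.MP_8efaaa_nt.N7
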