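import Mathlib
import Pool.Agent.Work.MP_8efaaa_nt.T.Fin
import Pool.Agent.Work.MP_8efaaa_nt.N7.CDat
import Pool.Agent.Work.MP_8efaaa_nt.N7.NFac
import Pool.Agent.Work.MP_8efaaa_nt.N7.NPr
import Pool.Agent.Work.MP_8efaaa_nt.N7.DIn
import Pool.Agent.Work.MP_8efaaa_nt.N7.DRed
import Pool.Agent.Work.MP_8efaaa_nt.N7.EPt
import Pool.Agent.Work.MP_8efaaa_nt.N7.EId
import Pool.Agent.Work.MP_8efaaa_nt.N7.ESub
import Pool.Agent.Work.MP_8efaaa_nt.N7.EOld

/-!
# N7/EMain (M-L): the theorem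

PROOF. `h` = class number, suppose that `a` is not congruent. `exists_idat7` with `d = 1` and `sum_zero7`: `4 ∣ h`. So `a` is not a prime (`prime_odd`). `exists_factor7`: `d`, `l`; `exists_idat7` for this `d`, `exists_inert7`, `inert_w7`: `ι w = e w`, `e = -1` if `d % 8 = 1`,
`e = 1` if `d % 8 = 5`. `iota7`: `b`; `exists_sub7`: `S`. Let `P c = (xW c, yW c)`, `p = cl (pr v)⁻¹`, `g = cl (idl b)⁻¹`, `m` the action of `ι` on points (`exists_galE`), `Q = (2, 4)`. `m (P C) = (2 (1 + W' u^2)/W u^2, 4 (1 + W' u^2)/W u^3)` with `u = g C⁻¹` (`iota7`),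
so `m (P C) + P (p u) = Q` (`pt_conj`). Sum over `C ∈ S`, `z = ∑_{C ∈ S} P C`: `C ↦ p g C⁻¹` is a bijection from `S` to the complement of `S` (`p g ∉ S`, `exists_sub7`), so `m z + (∑_{all} P - z) = (h/2) Q`, and `∑_{all} P = 0` (`sum_zero7`):
`m z = z + (h/2) Q`. `Q` has order four: `2 Q = (0, 0)`, `3 Q = (2, -4)` (see the private lemmas in T/Fin.lean). If `4 ∤ h/2` then `(h/2) Q` is `(2, 4)`, `(0, 0)` or `(2, -4)`, contradiction to `red7`. So `8 ∣ h`.
-/

set_option autoImplicit false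

namespace Pool.Agent.Work.MP_8efaaa_nt.N7

open IsDedekindDomain NumberField Pool.Agent.Work.MP_787500_nt.HC
open WeierstrassCurve WeierstrassCurve.Affine Pool.Agent.Work.MP_8efaaa_nt.T
open Pool.Agent.Work.MP_8efaaa_nt.N5
open scoped nonZeroDivisors Classical

universe u

private theorem em_Q {F : Type*} [Field F] [CharZero F] : (cE F).Nonsingular 2 4 := by
  rw [nonsingular_iff', equation_iff]
  simp only [cE]
  refine ⟨by ring, Or.inr ?_⟩
  norm_num

private theorem em_T {F : Type*} [Field F] [CharZero F] : (cE F).Nonsingular 0 0 := by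
  rw [nonsingular_iff', equation_iff]
  simp only [cE]
  refine ⟨by ring, Or.inl ?_⟩
  norm_num

private theorem em_Q_add_Q {F : Type*} [Field F] [CharZero F] :
    (Point.some 2 4 em_Q : (cE F).Point) + Point.some 2 4 em_Q = Point.some 0 0 em_T := by
  have hy : (4 : F) ≠ (cE F).negY 2 4 := by
    simp only [negY, cE]
    norm_num
  have hs : (cE F).slope 2 2 4 4 = 2 := by
    rw [slope_of_Y_ne rfl hy]
    simp only [negY, cE]
    norm_num
  rw [Point.add_self_of_Y_ne hy]
  simp only [Point.some.injEq]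
  rw [hs]
  constructor
  · simp only [addX, cE]
    norm_num
  · simp only [addY, negAddY, negY, addX, cE]
    norm_num

private theorem em_T_add_T {F : Type*} [Field F] [CharZero F] :
    (Point.some 0 0 em_T : (cE F).Point) + Point.some 0 0 em_T = 0 := by
  rw [Point.add_of_Y_eq rfl]
  simp only [negY, cE]
  norm_num

private theorem em_smul {F : Type*} [Field F] [CharZero F] (k : ℕ) :
    (4 * k + 2) • (Point.some 2 4 em_Q : (cE F).Point) = Point.some 0 0 em_T := by
  have h2 : 2 • (Point.some 2 4 em_Q : (cE F).Point) = Point.some 0 0 em_T := by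
    rw [two_nsmul, em_Q_add_Q]
  have h4 : 4 • (Point.some 2 4 em_Q : (cE F).Point) = 0 := by
    rw [show 4 = 2 * 2 by norm_num, mul_nsmul, h2, two_nsmul, em_T_add_T]
  rw [add_nsmul, mul_nsmul, h4, nsmul_zero, zero_add, h2]

private theorem em_congr {F : Type*} [Field F] {W : WeierstrassCurve.Affine F} {x y x' y' : F}
    (hn : W.Nonsingular x y) (hn' : W.Nonsingular x' y') (hx : x = x') (hy : y = y') :
    (Point.some x y hn : W.Point) = Point.some x' y' hn' := by
  subst hx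
  subst hy
  rfl

/-- sums over a subgroup of index two and its complement -/
private theorem em_sum {A E : Type*} [CommGroup A] [Fintype A] [AddCommGroup E] (S : Subgroup A)
    (q : A) (hq : q ∉ S) (hS : ∀ C C' : A, C ∉ S → C' ∉ S → C * C' ∈ S) (P : A → E)
    (h0 : ∑ c, P c = 0) :
    ∑ C ∈ Finset.univ.filter (fun C => C ∈ S), P (q * C⁻¹) =
      -∑ C ∈ Finset.univ.filter (fun C => C ∈ S), P C := by
  have h1 : ∑ C ∈ Finset.univ.filter (fun C => C ∈ S), P (q * C⁻¹) =
      ∑ C ∈ Finset.univ.filter (fun C => ¬ C ∈ S), P C := by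
    refine Finset.sum_nbij' (fun C => q * C⁻¹) (fun C => q * C⁻¹) ?_ ?_ ?_ ?_ ?_
    · intro C hC
      simp only [Finset.mem_filter, Finset.mem_univ, true_and] at hC ⊢
      intro h
      apply hq
      have := S.mul_mem h hC
      rwa [inv_mul_cancel_right] at this
    · intro C hC
      simp only [Finset.mem_filter, Finset.mem_univ, true_and] at hC ⊢
      exact hS _ _ hq fun h => hC (S.inv_mem_iff.1 h)
    · intro C _
      simp
    · intro C _
      simp
    · intro C _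
      rfl
  rw [h1, eq_neg_iff_add_eq_zero, add_comm, Finset.sum_filter_add_sum_filter_not, h0]

theorem main7 {K : Type u} [Field K] [NumberField K] {a : ℕ} {s : K} (hb : Base K a s)
    (h : ¬ 8 ∣ Nat.card (ClassGroup (𝓞 K))) : IsCongruent a := by
  by_contra hnc
  obtain ⟨v, hv⟩ : ∃ v : HeightOneSpectrum (𝓞 K), (2 : 𝓞 K) ∈ v.asIdeal := by
    obtain ⟨v, hv⟩ := Pool.Agent.Work.MP_787500_nt.Quad.exists_place (K := K) Nat.prime_two
    exact ⟨v, by exact_mod_cast hv⟩
  have ha0 : a ≠ 0 := hb.sf.ne_zero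
  -- four divides the class number
  have h4 : 4 ∣ Nat.card (ClassGroup (𝓞 K)) := by
    obtain ⟨F, _, _, _, _, _, _, w, W, W', κ, hI⟩ := exists_idat7 hb hv (d := 1) one_ne_zero
    exact (sum_zero7 hb hnc hv hI).2
  have hnp : ¬ a.Prime := by
    intro hp
    obtain ⟨k, hk⟩ := prime_odd hb hp
    omega
  obtain ⟨d, l, hda, hl, hla, hcase⟩ := exists_factor7 hb.sf hb.mod hnp
  have hd0 : d ≠ 0 := fun h0 => ha0 (Nat.eq_zero_of_zero_dvd (h0 ▸ hda))
  obtain ⟨F, _, _, _, _, _, _, w, W, W', κ, hI⟩ := exists_idat7 hb hv hd0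
  obtain ⟨ι, L, hin, hlL, hιs⟩ := exists_inert7 (F := F) hb hl hla
  have hs2 : (algebraMap K F s) ^ 2 = -(a : F) := by
    rw [← map_pow, hb.sq, map_neg, map_natCast]
  have hιw := inert_w7 hin hb.sf hs2 hI.hw hda hl hla hlL hιs
  obtain ⟨e, hew, hcase2⟩ : ∃ e : ℤ, ι w = e * w ∧ ((d % 8 = 1 ∧ e = -1) ∨ (d % 8 = 5 ∧ e = 1)) := by
    rcases hcase with ⟨h1, h2⟩ | ⟨h1, h2⟩
    · refine ⟨-1, ?_, Or.inl ⟨h1, rfl⟩⟩
      rw [hιw.1 h2]
      push_cast
      ring
    · refine ⟨1, ?_, Or.inr ⟨h1, rfl⟩⟩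
      rw [hιw.2 h2]
      push_cast
      ring
  obtain ⟨b, hbc, hjac, hW, hW'⟩ := iota7 hb hI hd0 hιs hew
  obtain ⟨S, hS2, hSS, hpg⟩ := exists_sub7 hb hda hv hbc (by
    rcases hcase2 with ⟨h1, h2⟩ | ⟨h1, h2⟩
    · exact Or.inl ⟨h1, by rw [hjac, h2]⟩
    · exact Or.inr ⟨h1, by rw [hjac, h2]⟩)
  obtain ⟨m, hm⟩ := exists_galE ι
  set p := cl (pr v)⁻¹ with hp
  set g := cl (idl b)⁻¹ with hg
  -- the conjugate of a point
  have hpt : ∀ C, m (Point.some (xW W W' C) (yW W W' C) (nonsing_W hI.rel C)) +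
      Point.some (xW W W' (p * g * C⁻¹)) (yW W W' (p * g * C⁻¹)) (nonsing_W hI.rel (p * g * C⁻¹)) =
      Point.some 2 4 em_Q := by
    intro C
    obtain ⟨hn', h1⟩ := hm _ _ (nonsing_W hI.rel C)
    obtain ⟨hn, h2⟩ := pt_conj hI.rel hI.rec3 (g * C⁻¹) em_Q
    have h3 : (Point.some (ι (xW W W' C)) (ι (yW W W' C)) hn' : (cE F).Point) =
        Point.some _ _ hn := by
      apply em_congr
      · unfold xW
        rw [map_div₀, map_mul, map_add, map_one, map_pow, map_pow, map_ofNat, hW, hW']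
      · unfold yW
        rw [map_div₀, map_mul, map_add, map_one, map_pow, map_pow, map_ofNat, hW, hW']
    have h4 : (Point.some (xW W W' (p * g * C⁻¹)) (yW W W' (p * g * C⁻¹))
        (nonsing_W hI.rel (p * g * C⁻¹)) : (cE F).Point) =
        Point.some (xW W W' (p * (g * C⁻¹))) (yW W W' (p * (g * C⁻¹)))
        (nonsing_W hI.rel (p * (g * C⁻¹))) := by
      apply em_congr
      · rw [mul_assoc]
      · rw [mul_assoc]
    rw [h1, h3, h4]
    exact h2
  -- the sum over the subgroup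
  have hsum0 := (sum_zero7 hb hnc hv hI).1
  have hsum := em_sum S (p * g) hpg hSS
    (fun C => (Point.some (xW W W' C) (yW W W' C) (nonsing_W hI.rel C) : (cE F).Point)) hsum0
  have hcard : (Finset.univ.filter (fun C => C ∈ S)).card = Nat.card S := by
    rw [Nat.card_eq_fintype_card, Fintype.card_subtype]
  obtain ⟨k, hk⟩ : ∃ k, Nat.card S = 4 * k + 2 := ⟨Nat.card S / 4, by omega⟩
  have htot : ∑ C ∈ Finset.univ.filter (fun C => C ∈ S),
      (m (Point.some (xW W W' C) (yW W W' C) (nonsing_W hI.rel C)) +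
      Point.some (xW W W' (p * g * C⁻¹)) (yW W W' (p * g * C⁻¹)) (nonsing_W hI.rel (p * g * C⁻¹))) =
      Point.some 0 0 em_T := by
    rw [Finset.sum_congr rfl fun C _ => hpt C, Finset.sum_const, hcard, hk, em_smul]
  rw [Finset.sum_add_distrib, hsum, ← map_sum] at htot
  have hT : (cE F).Nonsingular (((0 : ℤ) : F)) (((0 : ℤ) : F)) := by
    rw [Int.cast_zero]
    exact em_T
  apply red7 hin hm (∑ C ∈ Finset.univ.filter (fun C => C ∈ S),
    Point.some (xW W W' C) (yW W W' C) (nonsing_W hI.rel C)) hT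
  have h5 : (Point.some (((0 : ℤ) : F)) (((0 : ℤ) : F)) hT : (cE F).Point) =
      Point.some 0 0 em_T := em_congr _ _ Int.cast_zero Int.cast_zero
  rw [h5, ← htot]
  abel

end Pool.Agent.Work.MP_8efaaa_nt.N7
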